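import Pool.Agent.Y879.GL.Scale

set_option autoImplicit false

/-!
# Gap laws for the rough numbers of a given pattern
-/

namespace Pool.Agent.Y879.GL

open Polynomial Finset Filter
open Pool.Agent.W123.RP Pool.Agent.H373R2.T7 Pool.Agent.W123.RU Pool.Agent.W123.RU.Poly
open Pool.Agent.TH464.PW Pool.Agent.TH464.PO

/-- the polynomial `a X + b` -/
noncomputable def li (a b : ℕ) : ℤ[X] := C (a : ℤ) * X + C (b : ℤ)

lemma li_eval (a b : ℕ) (m : ℤ) : (li a b).eval m = a * m + b := by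
  unfold li
  simp

lemma li_inj {a b b' : ℕ} (h : li a b = li a b') : b = b' := by
  have h0 : (li a b).eval 0 = (li a b').eval 0 := by rw [h]
  rw [li_eval, li_eval] at h0
  omega

/-- a pattern: the modulus `M` (with the prime factors `p ≤ P0`), the residue `c`, the shifts `h` -/
structure Pat {k : ℕ} (P0 M c : ℕ) (h : Fin k → ℕ) : Prop where
  hM : 0 < M
  hc : c < M
  hk : 0 < k
  hkP : k ≤ P0
  hpr : ∀ p : ℕ, p.Prime → (p ∣ M ↔ p ≤ P0)
  cop : ∀ i, Nat.Coprime M (c + h i)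
  inj : Function.Injective h
  dif : ∀ i j, i ≠ j → ∀ p : ℕ, p.Prime → P0 < p → ¬ (p : ℤ) ∣ (h i : ℤ) - h j

/-- the numbers `n ≡ c` modulo `M` such that no `n + h i` has a prime factor up to `y` -/
def Rg {k : ℕ} (M c : ℕ) (h : Fin k → ℕ) (y n : ℕ) : Prop :=
  n % M = c ∧ ∀ p : ℕ, p.Prime → p ≤ y → ∀ i, ¬ p ∣ n + h i

/-- the sieve density -/
noncomputable def VP (P0 M k y : ℕ) : ℝ :=
  (∏ p ∈ (Ioc P0 y).filter Nat.Prime, (1 - (k : ℝ) / p)) / M

variable {k P0 M c : ℕ} {h : Fin k → ℕ}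

/-- the system of the pattern -/
noncomputable def sy (M c : ℕ) (h : Fin k → ℕ) : Fin k → ℤ[X] := fun i => li M (c + h i)

lemma sy_eval (i : Fin k) (m : ℤ) : (sy M c h i).eval m = M * m + ((c + h i : ℕ) : ℤ) := li_eval _ _ _

lemma Q_iff (p m : ℕ) : Q (sy M c h) p m ↔ ∃ i, p ∣ M * m + c + h i := by
  unfold Q
  apply exists_congr
  intro i
  rw [sy_eval]
  rw [show ((M : ℤ) * (m : ℤ) + ((c + h i : ℕ) : ℤ)) = ((M * m + c + h i : ℕ) : ℤ) by push_cast; ring]
  exact Int.natCast_dvd_natCast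

lemma prime_not_dvd (H : Pat P0 M c h) (p : ℕ) (hp : p.Prime) (hpP : P0 < p) : ¬ p ∣ M := by
  rw [H.hpr p hp]
  omega

lemma few_classes (H : Pat P0 M c h) (p : ℕ) (hp : p.Prime) :
    ∃ m : ℕ, ∀ i, ¬ p ∣ M * m + c + h i := by
  by_cases hpM : p ∣ M
  · refine ⟨0, fun i hi => ?_⟩
    rw [mul_zero, zero_add] at hi
    have h1 : p ∣ Nat.gcd M (c + h i) := Nat.dvd_gcd hpM hi
    rw [H.cop i] at h1
    exact hp.one_lt.ne' (Nat.dvd_one.1 h1)
  · by_contra hcon
    push Not at hcon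
    choose F hF using hcon
    have hpP : P0 < p := by
      rw [H.hpr p hp] at hpM
      omega
    have hinj : Function.Injective (fun m : Fin p => F m) := by
      intro a b hab
      have h1 := hF a
      have h2 := hF b
      change F a = F b at hab
      rw [hab] at h1
      have h3 : (p : ℤ) ∣ (M : ℤ) * ((a : ℕ) - (b : ℕ)) := by
        have e1 : (p : ℤ) ∣ ((M * a + c + h (F b) : ℕ) : ℤ) := Int.natCast_dvd_natCast.2 h1
        have e2 : (p : ℤ) ∣ ((M * b + c + h (F b) : ℕ) : ℤ) := Int.natCast_dvd_natCast.2 h2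
        have e3 := dvd_sub e1 e2
        push_cast at e3
        rw [show (M : ℤ) * (a : ℕ) + c + (h (F b)) - (M * (b : ℕ) + c + h (F b)) =
          M * ((a : ℕ) - (b : ℕ)) by ring] at e3
        exact e3
      have hpi : Prime (p : ℤ) := Nat.prime_iff_prime_int.1 hp
      rcases hpi.dvd_or_dvd h3 with h4 | h4
      · exact absurd (Int.natCast_dvd_natCast.1 h4) hpM
      · have ha := a.2
        have hb := b.2
        have h5 : ((a : ℕ) : ℤ) - ((b : ℕ) : ℤ) = 0 := by
          apply Int.eq_zero_of_abs_lt_dvd h4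
          rw [abs_lt]
          constructor <;> omega
        apply Fin.ext
        omega
    have h6 := Fintype.card_le_of_injective _ hinj
    rw [Fintype.card_fin, Fintype.card_fin] at h6
    have := H.hkP
    omega

lemma sy_sys (H : Pat P0 M c h) : Sys (sy M c h) where
  irr := fun i => by
    unfold sy li
    apply irreducible_C_mul_X_add_C
    · exact_mod_cast H.hM.ne'
    · exact (Nat.isCoprime_iff_coprime.2 (H.cop i)).isRelPrime
  deg := fun i => by
    unfold sy li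
    rw [natDegree_linear (by exact_mod_cast H.hM.ne')]
    norm_num
  lead := fun i => by
    unfold sy li
    rw [leadingCoeff_linear (by exact_mod_cast H.hM.ne')]
    exact_mod_cast H.hM
  inj := fun i j hij => H.inj (by
    have := li_inj hij
    omega)
  adm := fun p hp => by
    obtain ⟨m, hm⟩ := few_classes H p hp
    refine ⟨m, fun i => ?_⟩
    rw [sy_eval, show ((M : ℤ) * (m : ℤ) + ((c + h i : ℕ) : ℤ)) = ((M * m + c + h i : ℕ) : ℤ) by
      push_cast; ring, Int.natCast_dvd_natCast]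
    exact hm i

lemma sy_noTr (H : Pat P0 M c h) (hlt : ∀ i, h i < M) : NoTr (sy M c h) := by
  intro i j t ht heq
  have h0 := congrArg (Polynomial.eval 0) heq
  rw [eval_comp, eval_add, eval_X, eval_C, sy_eval, sy_eval] at h0
  have h1 : ((c + h i : ℕ) : ℤ) = M * t + ((c + h j : ℕ) : ℤ) := by
    rw [mul_zero, zero_add, zero_add] at h0
    exact h0
  have h2 : c + h i = M * t + (c + h j) := by exact_mod_cast h1
  have h3 := hlt i
  have h4 := Nat.le_mul_of_pos_right M (show 0 < t by omega)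
  omega

open Classical in
lemma nu_large (H : Pat P0 M c h) (p : ℕ) (hp : p.Prime) (hpP : P0 < p) :
    nuB (Q (sy M c h)) p = k := by
  have hpM := prime_not_dvd H p hp hpP
  have : Fact p.Prime := ⟨hp⟩
  have hM0 : (M : ZMod p) ≠ 0 := by
    rw [Ne, ZMod.natCast_eq_zero_iff]
    exact hpM
  have key : ∀ (r : ℕ) (i : Fin k), p ∣ M * r + c + h i ↔
      (r : ZMod p) = -((c : ZMod p) + h i) * (M : ZMod p)⁻¹ := by
    intro r i
    rw [← ZMod.natCast_eq_zero_iff]
    push_cast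
    constructor
    · intro h1
      field_simp
      linear_combination h1
    · intro h1
      rw [h1]
      field_simp
      ring
  unfold nuB
  have hcard : (Finset.univ : Finset (Fin k)).card = k := by simp
  refine Eq.trans (Eq.symm ?_) hcard
  apply Finset.card_bij (fun i _ => (-((c : ZMod p) + h i) * (M : ZMod p)⁻¹).val)
  · intro i _
    rw [mem_filter, mem_range]
    refine ⟨ZMod.val_lt _, ?_⟩
    rw [Q_iff]
    refine ⟨i, ?_⟩
    rw [key]
    rw [ZMod.natCast_val, ZMod.cast_id', id]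
  · intro i _ j _ hij
    have h1 := ZMod.val_injective p hij
    by_contra hne
    apply H.dif i j hne p hp hpP
    have h2 : (c : ZMod p) + h i = c + h j := by
      have hMi : (M : ZMod p)⁻¹ ≠ 0 := inv_ne_zero hM0
      have := mul_right_cancel₀ hMi h1
      exact neg_injective this
    have h3 : (h i : ZMod p) = h j := add_left_cancel h2
    have h4 : ((h i : ℤ) : ZMod p) = ((h j : ℤ) : ZMod p) := by
      push_cast
      exact h3
    exact (ZMod.intCast_eq_intCast_iff_dvd_sub _ _ p).1 h4.symm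
  · intro r hr
    rw [mem_filter, mem_range, Q_iff] at hr
    obtain ⟨h1, i, h2⟩ := hr
    refine ⟨i, mem_univ _, ?_⟩
    rw [key] at h2
    rw [← h2, ZMod.val_natCast, Nat.mod_eq_of_lt h1]

open Classical in
lemma nu_small (H : Pat P0 M c h) (p : ℕ) (hp : p.Prime) (hpP : p ≤ P0) :
    nuB (Q (sy M c h)) p = 0 := by
  unfold nuB
  rw [Finset.card_eq_zero, Finset.filter_eq_empty_iff]
  intro r _ hQ
  rw [Q_iff] at hQ
  obtain ⟨i, hi⟩ := hQ
  have hpM : p ∣ M := (H.hpr p hp).2 hpP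
  have h1 : p ∣ c + h i := by
    rw [add_assoc] at hi
    exact (Nat.dvd_add_right (hpM.mul_right r)).1 hi
  have h2 : p ∣ Nat.gcd M (c + h i) := Nat.dvd_gcd hpM h1
  rw [H.cop i] at h2
  exact hp.one_lt.ne' (Nat.dvd_one.1 h2)

open Classical in
lemma V_eq (H : Pat P0 M c h) (y : ℕ) : VP P0 M k y = Vq (Q (sy M c h)) y / M := by
  unfold VP Vq
  congr 1
  have hsub : (Ioc P0 y).filter Nat.Prime ⊆ pz y := by
    intro p hp
    rw [mem_filter, mem_Ioc] at hp
    unfold pz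
    rw [mem_filter, mem_Icc]
    exact ⟨⟨hp.2.one_lt.le, hp.1.2⟩, hp.2⟩
  rw [← Finset.prod_subset hsub (f := fun p => (1 - (nuB (Q (sy M c h)) p : ℝ) / p))]
  · apply Finset.prod_congr rfl
    intro p hp
    rw [mem_filter, mem_Ioc] at hp
    rw [nu_large H p hp.2 hp.1.1]
  · intro p hp hp2
    unfold pz at hp
    rw [mem_filter, mem_Icc] at hp
    rw [mem_filter, mem_Ioc] at hp2
    have hpP : p ≤ P0 := by
      by_contra h1
      exact hp2 ⟨⟨by omega, hp.1.2⟩, hp.2⟩
    rw [nu_small H p hp.2 hpP]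
    simp

lemma Rg_iff (H : Pat P0 M c h) (y n : ℕ) :
    Rg M c h y n ↔ ∃ m, n = M * m + c ∧ Sf (Q (sy M c h)) y m := by
  constructor
  · rintro ⟨h1, h2⟩
    have h3 : n = M * (n / M) + c := by
      rw [← h1]
      exact (Nat.div_add_mod n M).symm
    refine ⟨n / M, h3, ?_⟩
    intro p hp hQ
    unfold pz at hp
    rw [mem_filter, mem_Icc] at hp
    rw [Q_iff] at hQ
    obtain ⟨i, hi⟩ := hQ
    apply h2 p hp.2 hp.1.2 i
    rwa [h3]
  · rintro ⟨m, rfl, h1⟩
    refine ⟨?_, ?_⟩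
    · rw [Nat.mul_add_mod]
      exact Nat.mod_eq_of_lt H.hc
    · intro p hp hpy i hi
      refine h1 p ?_ ?_
      · unfold pz
        rw [mem_filter, mem_Icc]
        exact ⟨⟨hp.one_lt.le, hpy⟩, hp⟩
      · rw [Q_iff]
        exact ⟨i, hi⟩

open Classical in
/-- **The gap laws for the rough numbers of a pattern**, in all intervals `(u, u + Y]`. -/
theorem gap_pat (H : Pat P0 M c h) (hlt : ∀ i, h i < M) (θ : ℝ) (hθ : 0 < θ) (k0 : ℕ) (x0 ε : ℝ) (hε : 0 < ε) :
    ∃ r0 : ℕ, ∀ r : ℕ, r0 ≤ r → ∀ᶠ X : ℕ in atTop, ∀ u Y : ℕ, c ≤ u → (X : ℝ) ^ θ ≤ Y →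
      ∀ l T : ℕ, (l ≤ k0 ∨ T * VP P0 M k ⌊(X : ℝ) ^ (1 / (r : ℝ))⌋₊ ≤ x0) →
        |(Pk (Rg M c h ⌊(X : ℝ) ^ (1 / (r : ℝ))⌋₊) l T u Y : ℝ) -
          Y * VP P0 M k ⌊(X : ℝ) ^ (1 / (r : ℝ))⌋₊ *
            Ck l (T * VP P0 M k ⌊(X : ℝ) ^ (1 / (r : ℝ))⌋₊)| ≤
          ε * (Y * VP P0 M k ⌊(X : ℝ) ^ (1 / (r : ℝ))⌋₊) := by
  have : Nonempty (Fin k) := ⟨⟨0, H.hk⟩⟩
  exact gap_scale (sy M c h) (sy_sys H) (sy_noTr H hlt) M c H.hM (fun y => Rg M c h y)
    (fun y => VP P0 M k y) 0 (fun y _ n => Rg_iff H y n) (fun y _ => V_eq H y) θ hθ k0 x0 ε hε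

/-- few prime factors -/
lemma few_of_rough (x : ℝ) (hx : 1 < x) (N m : ℕ) (hN : N ≠ 0) (hNx : (N : ℝ) ≤ x ^ m)
    (hr : ∀ q : ℕ, q.Prime → q ∣ N → x < q) : N.primeFactorsList.length ≤ m := by
  have h1 : ∀ l : List ℕ, (∀ q ∈ l, x < (q : ℝ)) → x ^ l.length ≤ ((l.prod : ℕ) : ℝ) := by
    intro l
    induction l with
    | nil => intro _; simp
    | cons a l ih =>
      intro hl
      rw [List.length_cons, List.prod_cons, pow_succ, Nat.cast_mul]
      have h2 : x < (a : ℝ) := hl a List.mem_cons_self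
      have h3 := ih (fun q hq => hl q (List.mem_cons_of_mem a hq))
      rw [mul_comm (x ^ l.length)]
      exact mul_le_mul h2.le h3 (by positivity) (by linarith)
  have h2 := h1 N.primeFactorsList (fun q hq =>
    hr q (Nat.prime_of_mem_primeFactorsList hq) (Nat.dvd_of_mem_primeFactorsList hq))
  rw [Nat.prod_primeFactorsList hN] at h2
  exact (pow_le_pow_iff_right₀ hx).1 (h2.trans hNx)

end Pool.Agent.Y879.GL
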