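import Pool.Agent.Y879.GL.Two

set_option autoImplicit false

/-!
# The system `q`, `q ^ 2 - 2`, `a - m q`
-/

namespace Pool.Agent.Y879.GL

open Polynomial Finset Filter
open Pool.Agent.W123.RP Pool.Agent.H373R2.T7 Pool.Agent.W123.RU Pool.Agent.W123.RU.Poly
open Pool.Agent.TH464.PW Pool.Agent.TH464.PO

/-- the system `q`, `q ^ 2 - 2`, `a - m q` -/
noncomputable def s3 (a m : ℕ) : Fin 3 → ℤ[X] := ![X, quad 1 0 (-2), C (-(m : ℤ)) * X + C (a : ℤ)]

lemma s3_eval0 (a m : ℕ) (x : ℤ) : (s3 a m 0).eval x = x := by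
  change (X : ℤ[X]).eval x = _
  rw [eval_X]

lemma s3_eval1 (a m : ℕ) (x : ℤ) : (s3 a m 1).eval x = x ^ 2 - 2 := by
  change (quad 1 0 (-2)).eval x = _
  rw [quad_eval]
  ring

lemma s3_eval2 (a m : ℕ) (x : ℤ) : (s3 a m 2).eval x = a - m * x := by
  change (C (-(m : ℤ)) * X + C (a : ℤ)).eval x = _
  rw [eval_add, eval_mul, eval_C, eval_X, eval_C]
  ring

lemma s3_us (a m : ℕ) (H U : ℝ) (hm : 1 ≤ m) (hcop : Nat.Coprime m a) (hodd : Odd ((a : ℤ) - m))
    (haH : (a : ℝ) ≤ H) (hmH : (m : ℝ) ≤ H) (h2H : 2 ≤ H) (haU : U < a) : US 3 2 H U (s3 a m) := by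
  have hm0 : (-(m : ℤ)) ≠ 0 := by
    have : (m : ℤ) ≠ 0 := by exact_mod_cast (by omega : m ≠ 0)
    exact neg_ne_zero.2 this
  have hirr1 : Irreducible (quad 1 0 (-2)) := by
    apply quad_irr _ _ _ one_ne_zero
    · rintro p hp ⟨h1, _, _⟩
      exact (Nat.prime_iff_prime_int.1 hp).not_unit (isUnit_of_dvd_one h1)
    · rintro ⟨s, hs⟩
      have h1 : s * s = 8 := by linarith
      have h2 : s < 3 := by nlinarith
      have h3 : -3 < s := by nlinarith
      interval_cases s <;> omega
  have hirr2 : Irreducible (C (-(m : ℤ)) * X + C (a : ℤ)) := by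
    apply irreducible_C_mul_X_add_C hm0
    have h1 : IsCoprime (m : ℤ) (a : ℤ) := Nat.isCoprime_iff_coprime.2 hcop
    exact h1.neg_left.isRelPrime
  have d0 : (s3 a m 0).natDegree = 1 := natDegree_X
  have d1 : (s3 a m 1).natDegree = 2 := quad_deg _ _ _ one_ne_zero
  have d2 : (s3 a m 2).natDegree = 1 := natDegree_linear hm0
  have haa : ∀ t : ℕ, 1 ≤ t → (t : ℝ) ≤ U → (t : ℤ) < a := by
    intro t _ h
    have : (t : ℝ) < a := by linarith
    exact_mod_cast this
  refine ⟨?_, ?_, ?_, ?_, ?_, ?_⟩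
  · intro i
    fin_cases i
    · exact irreducible_X
    · exact hirr1
    · exact hirr2
  · intro i
    fin_cases i
    · exact (by rw [d0]; norm_num : (s3 a m 0).natDegree ≠ 0)
    · exact (by rw [d1]; norm_num : (s3 a m 1).natDegree ≠ 0)
    · exact (by rw [d2]; norm_num : (s3 a m 2).natDegree ≠ 0)
  · intro i
    fin_cases i
    · exact (by rw [d0]; norm_num : (s3 a m 0).natDegree ≤ 2)
    · exact (by rw [d1] : (s3 a m 1).natDegree ≤ 2)
    · exact (by rw [d2]; norm_num : (s3 a m 2).natDegree ≤ 2)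
  · intro i k
    fin_cases i
    · change |(((X : ℤ[X]).coeff k : ℤ) : ℝ)| ≤ H
      rw [coeff_X]
      split_ifs
      · simp
        linarith
      · simp
        linarith
    · change |(((quad 1 0 (-2)).coeff k : ℤ) : ℝ)| ≤ H
      have h4 := quad_coeff 1 0 (-2) k 2 (by norm_num) (by norm_num) (by norm_num)
      have h5 : |(((quad 1 0 (-2)).coeff k : ℤ) : ℝ)| ≤ 2 := by exact_mod_cast h4
      linarith
    · change |(((C (-(m : ℤ)) * X + C (a : ℤ)).coeff k : ℤ) : ℝ)| ≤ H
      rw [coeff_add, coeff_C_mul, coeff_X, coeff_C]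
      rcases k with _ | _ | k
      · simp
        linarith
      · simp
        linarith
      · simp
        linarith
  · intro p hp
    obtain ⟨w, hw⟩ := hodd
    rcases Nat.lt_or_ge p 3 with hp3 | hp3
    · have hp2 : p = 2 := by
        have := hp.two_le
        omega
      subst hp2
      refine ⟨1, fun i => ?_⟩
      fin_cases i
      · change ¬ ((2 : ℕ) : ℤ) ∣ (s3 a m 0).eval ((1 : ℕ) : ℤ)
        rw [s3_eval0]
        decide
      · change ¬ ((2 : ℕ) : ℤ) ∣ (s3 a m 1).eval ((1 : ℕ) : ℤ)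
        rw [s3_eval1]
        decide
      · change ¬ ((2 : ℕ) : ℤ) ∣ (s3 a m 2).eval ((1 : ℕ) : ℤ)
        rw [s3_eval2]
        push_cast
        omega
    · have hn0 : ∀ x : ℕ, 1 ≤ x → x ≤ 2 → ¬ (p : ℤ) ∣ (s3 a m 0).eval (x : ℤ) := by
        intro x hx1 hx2 h
        rw [s3_eval0, Int.natCast_dvd_natCast] at h
        have := Nat.le_of_dvd (by omega) h
        omega
      have hn1 : ∀ x : ℕ, 1 ≤ x → x ≤ 2 → ¬ (p : ℤ) ∣ (s3 a m 1).eval (x : ℤ) := by
        intro x hx1 hx2 h
        rw [s3_eval1] at h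
        have hp2 : ¬ (p : ℤ) ∣ 2 := by
          intro h2
          have h3 : p ∣ 2 := by exact_mod_cast h2
          have := Nat.le_of_dvd (by norm_num) h3
          omega
        have hp1 : ¬ (p : ℤ) ∣ 1 := fun h2 => hp2 (h2.trans (one_dvd _))
        interval_cases x
        · apply hp1
          have := (dvd_neg (a := (p : ℤ))).2 h
          push_cast at this
          norm_num at this
          exact this
        · apply hp2
          push_cast at h
          norm_num at h
          exact h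
      by_contra hcon
      push Not at hcon
      have key : ∀ x : ℕ, 1 ≤ x → x ≤ 2 → (p : ℤ) ∣ a - m * x := by
        intro x hx1 hx2
        obtain ⟨i, hi⟩ := hcon x
        fin_cases i
        · exact absurd hi (hn0 x hx1 hx2)
        · exact absurd hi (hn1 x hx1 hx2)
        · rw [← s3_eval2]
          exact hi
      have k1 := key 1 (by norm_num) (by norm_num)
      have k2 := key 2 (by norm_num) (by norm_num)
      have k3 : (p : ℤ) ∣ m := by
        have := dvd_sub k1 k2
        push_cast at this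
        ring_nf at this
        exact this
      have k4 : (p : ℤ) ∣ a := by
        have := dvd_add k1 k3
        push_cast at this
        ring_nf at this
        exact this
      have k5 : p ∣ Nat.gcd m a := Nat.dvd_gcd (by exact_mod_cast k3) (by exact_mod_cast k4)
      rw [hcop] at k5
      exact hp.one_lt.ne' (Nat.dvd_one.1 k5)
  · intro i j t ht htU
    have ht' : (t : ℤ) ≠ 0 := by exact_mod_cast (by omega : t ≠ 0)
    have hta := haa t ht htU
    have ht1 : (1 : ℤ) ≤ t := by exact_mod_cast ht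
    fin_cases i <;> fin_cases j
    · exact no_self (s3 a m 0) (by rw [d0]; norm_num) t ht'
    · exact (not_assoc_deg (by rw [deg_shift, d0, d1]; norm_num) :
        ¬ Associated (s3 a m 0) ((s3 a m 1).comp (X + C (t : ℤ))))
    · show ¬ Associated (s3 a m 0) ((s3 a m 2).comp (X + C (t : ℤ)))
      intro h
      rcases assoc_cases h with h1 | h1
      · have h2 := congrArg (eval (-(t : ℤ))) h1
        rw [eval_comp, eval_add, eval_X, eval_C, neg_add_cancel, s3_eval0, s3_eval2] at h2
        linarith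
      · have h2 := congrArg (eval (-(t : ℤ))) h1
        rw [eval_neg, eval_comp, eval_add, eval_X, eval_C, neg_add_cancel, s3_eval0, s3_eval2] at h2
        linarith
    · exact (not_assoc_deg (by rw [deg_shift, d0, d1]; norm_num) :
        ¬ Associated (s3 a m 1) ((s3 a m 0).comp (X + C (t : ℤ))))
    · exact no_self (s3 a m 1) (by rw [d1]; norm_num) t ht'
    · exact (not_assoc_deg (by rw [deg_shift, d2, d1]; norm_num) :
        ¬ Associated (s3 a m 1) ((s3 a m 2).comp (X + C (t : ℤ))))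
    · show ¬ Associated (s3 a m 2) ((s3 a m 0).comp (X + C (t : ℤ)))
      intro h
      rcases assoc_cases h with h1 | h1
      · have h2 := congrArg (eval 0) h1
        rw [eval_comp, eval_add, eval_X, eval_C, zero_add, s3_eval0, s3_eval2] at h2
        linarith
      · have h2 := congrArg (eval 0) h1
        rw [eval_neg, eval_comp, eval_add, eval_X, eval_C, zero_add, s3_eval0, s3_eval2] at h2
        linarith
    · exact (not_assoc_deg (by rw [deg_shift, d2, d1]; norm_num) :
        ¬ Associated (s3 a m 2) ((s3 a m 1).comp (X + C (t : ℤ))))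
    · exact no_self (s3 a m 2) (by rw [d2]; norm_num) t ht'

lemma cop_aux (m n s : ℕ) (hm : Odd m) (hs : s ≤ n) (j : ℤ) (hj : j ∣ 2)
    (hd : (m : ℤ) ∣ (n : ℤ) - s - j) : Nat.Coprime m (n - s) := by
  apply Nat.Coprime.symm
  apply Nat.coprime_of_dvd
  intro p hp hpn hpm
  have h1 : (p : ℤ) ∣ (n : ℤ) - s := by
    have : ((n - s : ℕ) : ℤ) = (n : ℤ) - s := by omega
    rw [← this]
    exact_mod_cast hpn
  have h2 : (p : ℤ) ∣ (n : ℤ) - s - j := (Int.natCast_dvd_natCast.2 hpm).trans hd
  have h3 : (p : ℤ) ∣ j := by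
    have := dvd_sub h1 h2
    rwa [sub_sub_cancel] at this
  have h4 : (p : ℤ) ∣ 2 := h3.trans hj
  have h5 : p ∣ 2 := by exact_mod_cast h4
  have h6 : p = 2 := (Nat.prime_dvd_prime_iff_eq hp Nat.prime_two).1 h5
  subst h6
  obtain ⟨w, hw⟩ := hm
  omega

/-- the remainders to be used -/
lemma exists_rem (m n : ℕ) (hm : 1 ≤ m) (hmn : 2 * m + 1 < n)
    (hadm : (m = 1 ∧ Even n) ∨ (m = 3 ∧ n % 6 ≠ 1) ∨ m = 2 ∨ 4 ≤ m) :
    ∃ s, s < m ∧ Nat.Coprime m (n - s) ∧ Odd (((n - s : ℕ) : ℤ) - m) := by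
  rcases hadm with ⟨h1, h2⟩ | ⟨h1, h2⟩ | h1 | h1
  · subst h1
    refine ⟨0, by norm_num, Nat.coprime_one_left _, ?_⟩
    rw [Int.odd_iff]
    rw [Nat.even_iff] at h2
    omega
  · subst h1
    have key : ∃ s, s < 3 ∧ ¬ 3 ∣ n - s ∧ (n - s) % 2 = 0 := by
      have h6 : n % 6 < 6 := Nat.mod_lt _ (by norm_num)
      rcases (by omega : n % 6 = 0 ∨ n % 6 = 2 ∨ n % 6 = 3 ∨ n % 6 = 4 ∨ n % 6 = 5) with
        h | h | h | h | h
      · exact ⟨2, by omega⟩
      · exact ⟨0, by omega⟩
      · exact ⟨1, by omega⟩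
      · exact ⟨0, by omega⟩
      · exact ⟨1, by omega⟩
    obtain ⟨s, hs1, hs2, hs3⟩ := key
    refine ⟨s, hs1, (Nat.Prime.coprime_iff_not_dvd Nat.prime_three).2 hs2, ?_⟩
    rw [Int.odd_iff]
    omega
  · subst h1
    have key : ∃ s, s < 2 ∧ (n - s) % 2 = 1 := by
      rcases Nat.mod_two_eq_zero_or_one n with h | h
      · exact ⟨1, by omega⟩
      · exact ⟨0, by omega⟩
    obtain ⟨s, hs1, hs2⟩ := key
    refine ⟨s, hs1, Nat.coprime_two_left.2 (Nat.odd_iff.2 hs2), ?_⟩
    rw [Int.odd_iff]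
    omega
  · rcases Nat.even_or_odd m with hev | hod
    · obtain ⟨w, hw⟩ : ∃ w, w = m * ((n - 1) / m) := ⟨_, rfl⟩
      have h3 : w + (n - 1) % m = n - 1 := by rw [hw]; exact Nat.div_add_mod _ _
      have h4 : m ∣ w := by rw [hw]; exact dvd_mul_right _ _
      have h5 : (n - 1) % m < m := Nat.mod_lt _ (by omega)
      have h6 : w % 2 = 0 := by
        have : Even w := by rw [hw]; exact hev.mul_right _
        exact Nat.even_iff.1 this
      have h7 : m % 2 = 0 := Nat.even_iff.1 hev
      refine ⟨(n - 1) % m, h5, ?_, ?_⟩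
      · have e : n - (n - 1) % m = w + 1 := by omega
        rw [e]
        apply Nat.Coprime.symm
        apply Nat.coprime_of_dvd
        intro p hp hp1 hp2
        have h8 : p ∣ 1 := (Nat.dvd_add_right (hp2.trans h4)).1 hp1
        exact hp.one_lt.ne' (Nat.dvd_one.1 h8)
      · rw [Int.odd_iff]
        omega
    · obtain ⟨w, hw⟩ : ∃ w, w = m * (n / m) := ⟨_, rfl⟩
      have h3 : w + n % m = n := by rw [hw]; exact Nat.div_add_mod _ _
      have h4 : (m : ℤ) ∣ (w : ℤ) := by
        rw [hw]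
        exact_mod_cast dvd_mul_right _ _
      have h5 : n % m < m := Nat.mod_lt _ (by omega)
      have h7 : m % 2 = 1 := Nat.odd_iff.1 hod
      have pick : ∀ (s : ℕ) (j : ℤ), s < m → (n - s) % 2 = 0 → j ∣ 2 →
          (n : ℤ) - s - j = w → ∃ s, s < m ∧ Nat.Coprime m (n - s) ∧ Odd (((n - s : ℕ) : ℤ) - m) := by
        intro s j hs hpar hj hw'
        refine ⟨s, hs, cop_aux m n s hod (by omega) j hj (by rw [hw']; exact h4), ?_⟩
        rw [Int.odd_iff]
        omega
      rcases Nat.lt_or_ge (n % m) 2 with h8 | h8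
      · rcases (by omega : n % m = 0 ∨ n % m = 1) with h9 | h9
        · rcases Nat.mod_two_eq_zero_or_one n with h | h
          · exact pick 2 (-2) (by omega) (by omega) (by norm_num) (by omega)
          · exact pick 1 (-1) (by omega) (by omega) (by norm_num) (by omega)
        · rcases Nat.mod_two_eq_zero_or_one n with h | h
          · exact pick 0 1 (by omega) (by omega) (by norm_num) (by omega)
          · exact pick 3 (-2) (by omega) (by omega) (by norm_num) (by omega)
      · rcases Nat.mod_two_eq_zero_or_one w with h | h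
        · exact pick (n % m - 2) 2 (by omega) (by omega) (by norm_num) (by omega)
        · exact pick (n % m - 1) 1 (by omega) (by omega) (by norm_num) (by omega)

end Pool.Agent.Y879.GL
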