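import Pool.Agent.Y879.GL.Linear
import Pool.Agent.Y879.AP.Mean2

set_option autoImplicit false

/-!
# The pairs `n`, `e n + f` with `n = a + q m`
-/

namespace Pool.Agent.Y879.GL

open Polynomial Finset Filter
open Pool.Agent.W123.RP Pool.Agent.H373R2.T7 Pool.Agent.W123.RU Pool.Agent.W123.RU.Poly
open Pool.Agent.TH464.PW Pool.Agent.TH464.PO Pool.Agent.Y879.AP

/-- the coefficients -/
def ca (e : ℤ) (q : ℕ) : Fin 2 → ℤ := ![(q : ℤ), e * q]

/-- the constant terms -/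
def cb (e f : ℤ) (a : ℕ) : Fin 2 → ℤ := ![(a : ℤ), e * a + f]

/-- the two forms -/
noncomputable def pf (e f : ℤ) (q a : ℕ) : Fin 2 → ℤ[X] := fun i => lf (ca e q i) (cb e f a i)

lemma nu_exists (Q : ℕ → ℕ → Prop) (p : ℕ) (h : nuB Q p < p) : ∃ m : ℕ, m < p ∧ ¬ Q p m := by
  classical
  by_contra hcon
  push Not at hcon
  have h1 : nuB Q p = ((range p).filter (fun r => Q p r)).card := by
    unfold nuB
    exact card_iff _ _ (fun r _ => Iff.rfl)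
  rw [h1, Finset.filter_true_of_mem (fun r hr => hcon r (mem_range.1 hr)), card_range] at h
  exact lt_irrefl _ h

lemma pf_Q (e f : ℤ) (q a p m : ℕ) (hp : p.Prime) : Q (pf e f q a) p m ↔ Q2 e f p (q * m + a) := by
  have hpi : Prime (p : ℤ) := Nat.prime_iff_prime_int.1 hp
  unfold Q Q2 pf
  rw [Fin.exists_fin_two, hpi.dvd_mul]
  simp only [lf_eval, ca, cb, Matrix.cons_val_zero, Matrix.cons_val_one]
  push_cast
  rw [show e * (q : ℤ) * m + (e * a + f) = e * (q * m + a) + f by ring]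

lemma pf_Q0 (e f : ℤ) (he : e * e = 1) (q a p m : ℕ) (hp : p.Prime) (hqa : Nat.Coprime q a)
    (hqf : IsCoprime (q : ℤ) (e * a + f)) :
    Q (pf e f q a) p m ↔ Q0 (Qt (Q2 e f) a) q p m := by
  rw [pf_Q e f q a p m hp]
  unfold Q0 Qt
  constructor
  · intro h
    refine ⟨?_, h⟩
    intro hpq
    have hpi : Prime (p : ℤ) := Nat.prime_iff_prime_int.1 hp
    have hpq' : (p : ℤ) ∣ (q : ℤ) := Int.natCast_dvd_natCast.2 hpq
    unfold Q2 at h
    push_cast at h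
    rcases hpi.dvd_or_dvd h with h1 | h1
    · have h2 : (p : ℤ) ∣ (a : ℤ) := by
        have h3 : (a : ℤ) = (q * m + a) - q * m := by ring
        rw [h3]
        exact dvd_sub h1 (Dvd.dvd.mul_right hpq' _)
      have h3 := Nat.dvd_gcd hpq (Int.natCast_dvd_natCast.1 h2)
      rw [hqa] at h3
      exact hp.one_lt.ne' (Nat.dvd_one.1 h3)
    · have h2 : (p : ℤ) ∣ e * a + f := by
        have h3 : e * (a : ℤ) + f = (e * (q * m + a) + f) - q * (e * m) := by ring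
        rw [h3]
        exact dvd_sub h1 (Dvd.dvd.mul_right hpq' _)
      exact hpi.not_unit (hqf.isUnit_of_dvd' hpq' h2)
  · exact fun h => h.2

lemma pf_nuB (e f : ℤ) (he : e * e = 1) (q a p : ℕ) (hp : p.Prime) (hqa : Nat.Coprime q a)
    (hqf : IsCoprime (q : ℤ) (e * a + f)) :
    nuB (Q (pf e f q a)) p = nuB (Qn (Q2 e f) q) p := by
  classical
  have h1 : nuB (Q (pf e f q a)) p = nuB (Q0 (Qt (Q2 e f) a) q) p := by
    unfold nuB
    exact card_iff _ _ (fun r _ => pf_Q0 e f he q a p r hp hqa hqf)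
  have hper := perB_Q2 e f he
  have hper2 : PerB (Qt (Q2 e f) a) 2 := perB_Qt _ _ hper a
  rw [h1]
  by_cases h : p ∣ q
  · rw [nuB_Q0_dvd _ _ _ h, nuB_Qn_dvd _ _ _ h]
  · rw [nuB_Q0_not _ hper2.per _ _ hp h, nuB_Qn_not _ _ _ h, nuB_Qt _ 2 hper]

lemma pf_Vq (e f : ℤ) (he : e * e = 1) (q a y : ℕ) (hqa : Nat.Coprime q a)
    (hqf : IsCoprime (q : ℤ) (e * a + f)) : Vq (Q (pf e f q a)) y = Vq (Qn (Q2 e f) q) y := by
  unfold Vq
  apply Finset.prod_congr rfl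
  intro p hp
  rw [pf_nuB e f he q a p (mem_pz.1 hp).2 hqa hqf]

lemma e_abs (e : ℤ) (he : e * e = 1) : |(e : ℝ)| = 1 := by
  have h : (e : ℝ) ^ 2 = 1 := by
    rw [sq]
    exact_mod_cast he
  have h2 : |(e : ℝ)| ^ 2 = 1 := by rw [sq_abs, h]
  have h3 : 0 ≤ |(e : ℝ)| := abs_nonneg _
  nlinarith

lemma pf_us (e f : ℤ) (he : e * e = 1) (hf : Even f) (q a : ℕ) (hq : 1 ≤ q)
    (hqa : Nat.Coprime q a) (hqf : IsCoprime (q : ℤ) (e * a + f)) (H : ℝ) (hqH : (q : ℝ) ≤ H)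
    (hfH : (a : ℝ) + |(f : ℝ)| ≤ H) : US 2 1 H 0 (pf e f q a) := by
  have hq0 : (q : ℤ) ≠ 0 := by exact_mod_cast (by omega : q ≠ 0)
  have he0 : e ≠ 0 := by
    rintro rfl
    simp at he
  have ha0 : (0 : ℝ) ≤ a := Nat.cast_nonneg _
  have hqr0 : (0 : ℝ) ≤ q := Nat.cast_nonneg _
  apply us_lf
  · intro i
    fin_cases i
    · exact hq0
    · exact mul_ne_zero he0 hq0
  · intro i
    fin_cases i
    · exact Nat.isCoprime_iff_coprime.2 hqa
    · have h1 : IsCoprime e (e * a + f) := ⟨e, 0, by rw [he]; ring⟩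
      exact h1.mul_left hqf
  · intro i
    fin_cases i
    · simp only [ca, Fin.zero_eta, Matrix.cons_val_zero]
      push_cast
      rw [abs_of_nonneg hqr0]
      exact hqH
    · simp only [ca, Fin.mk_one, Matrix.cons_val_one]
      push_cast
      rw [abs_mul, e_abs e he, abs_of_nonneg hqr0, one_mul]
      exact hqH
  · intro i
    fin_cases i
    · simp only [cb, Fin.zero_eta, Matrix.cons_val_zero]
      push_cast
      rw [abs_of_nonneg ha0]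
      have := abs_nonneg (f : ℝ)
      linarith
    · simp only [cb, Fin.mk_one, Matrix.cons_val_one]
      push_cast
      have h1 := abs_add_le ((e : ℝ) * a) (f : ℝ)
      rw [abs_mul, e_abs e he, abs_of_nonneg ha0, one_mul] at h1
      linarith
  · intro p hp
    have hper := perB_Q2 e f he
    have hlt : nuB (Q (pf e f q a)) p < p := by
      rw [pf_nuB e f he q a p hp hqa hqf]
      exact adm_Qn _ (adm_Q2 e f he hf) q p hp
    obtain ⟨m, _, hm⟩ := nu_exists _ p hlt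
    refine ⟨m, fun i h => hm ⟨i, ?_⟩⟩
    unfold pf
    rw [lf_eval]
    exact h
  · intro i j t ht htU
    exfalso
    have : (1 : ℝ) ≤ t := by exact_mod_cast ht
    linarith

lemma pf_noas (e f : ℤ) (he : e * e = 1) (q a : ℕ) (hq : 1 ≤ q) (E0 : Finset ℕ) (U : ℝ)
    (hE : ∀ t : ℕ, 1 ≤ t → (t : ℝ) ≤ U → t ∉ E0 → f ^ 2 ≠ ((q : ℤ) * t) ^ 2) :
    NoAs (pf e f q a) E0 U := by
  intro i j t ht htU htE h
  have hne := hE t ht htU htE
  have hq0 : (q : ℤ) ≠ 0 := by exact_mod_cast (by omega : q ≠ 0)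
  have ht0 : (t : ℤ) ≠ 0 := by exact_mod_cast (by omega : t ≠ 0)
  have he0 : e ≠ 0 := by
    rintro rfl
    simp at he
  have hqt : (q : ℤ) * t ≠ 0 := mul_ne_zero hq0 ht0
  have heqt : e * q * t ≠ 0 := mul_ne_zero (mul_ne_zero he0 hq0) ht0
  unfold pf at h
  have h1 := lf_assoc _ _ _ _ _ h
  fin_cases i <;> fin_cases j <;>
    simp only [ca, cb, Fin.zero_eta, Fin.mk_one, Matrix.cons_val_zero, Matrix.cons_val_one] at h1
  · rcases h1 with h1 | h1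
    · exact hqt (by linarith [h1.2])
    · exact hq0 (by linarith [h1.1])
  · rcases h1 with ⟨h1, h2⟩ | ⟨h1, h2⟩
    · have he1 : e = 1 := by
        have : (q : ℤ) * (e - 1) = 0 := by linarith
        rcases mul_eq_zero.1 this with h3 | h3
        · exact absurd h3 hq0
        · linarith
      rw [he1] at h2
      apply hne
      have h4 : f = -((q : ℤ) * t) := by linarith
      rw [h4]
      ring
    · have he1 : e = -1 := by
        have : (q : ℤ) * (e + 1) = 0 := by linarith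
        rcases mul_eq_zero.1 this with h3 | h3
        · exact absurd h3 hq0
        · linarith
      rw [he1] at h2
      apply hne
      have h4 : f = (q : ℤ) * t := by linarith
      rw [h4]
  · rcases h1 with ⟨h1, h2⟩ | ⟨h1, h2⟩
    · have he1 : e = 1 := by
        have : (q : ℤ) * (e - 1) = 0 := by linarith
        rcases mul_eq_zero.1 this with h3 | h3
        · exact absurd h3 hq0
        · linarith
      rw [he1] at h2
      apply hne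
      have h4 : f = (q : ℤ) * t := by linarith
      rw [h4]
    · have he1 : e = -1 := by
        have : (q : ℤ) * (e + 1) = 0 := by linarith
        rcases mul_eq_zero.1 this with h3 | h3
        · exact absurd h3 hq0
        · linarith
      rw [he1] at h2
      apply hne
      have h4 : f = -((q : ℤ) * t) := by linarith
      rw [h4]
      ring
  · rcases h1 with h1 | h1
    · exact heqt (by linarith [h1.2])
    · exact mul_ne_zero he0 hq0 (by linarith [h1.1])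

lemma pf_Vup (A : ℝ) (hA : 0 < A) (r : ℕ) (hr2 : 2 ≤ r) : ∃ M : ℝ, 0 < M ∧ ∀ᶠ X : ℕ in atTop,
    ∀ (e f : ℤ) (q : ℕ), e * e = 1 → Even f → f ≠ 0 → |(f : ℝ)| ≤ (X : ℝ) ^ A → 1 ≤ q →
      (q : ℝ) ≤ (X : ℝ) ^ A → Vq (Qn (Q2 e f) q) ⌊(X : ℝ) ^ (1 / (r : ℝ))⌋₊ ≤ M / Real.log X := by
  obtain ⟨M, hM, h⟩ := V2_up (2 * A) (by positivity) r hr2
  refine ⟨M, hM, ?_⟩
  filter_upwards [h, eventually_ge_atTop 1] with X hX hX1 e f q he hf hf0 hfX hq hqX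
  have hX0 : (0 : ℝ) < X := by exact_mod_cast hX1
  have hfabs : ((f.natAbs : ℕ) : ℝ) = |(f : ℝ)| := by
    rw [Nat.cast_natAbs]
    push_cast
    rfl
  refine hX (Qn (Q2 e f) q) (q * f.natAbs) (adm_Qn _ (adm_Q2 e f he hf) q) ?_ ?_ ?_
  · exact Nat.mul_pos hq (Int.natAbs_pos.2 hf0)
  · push_cast [hfabs]
    calc (q : ℝ) * |(f : ℝ)| ≤ (X : ℝ) ^ A * (X : ℝ) ^ A := by gcongr
      _ = (X : ℝ) ^ (2 * A) := by
        rw [← Real.rpow_add hX0]
        congr 1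
        ring
  · intro p hp hpD
    rw [nuB_Qn_not _ _ _ (fun h1 => hpD (Dvd.dvd.mul_right h1 _)), nuB_Q2 e f he p hp]
    unfold nu2
    rw [if_neg]
    intro h2
    exact hpD (Dvd.dvd.mul_left (Int.natCast_dvd.1 h2) _)

/-- **The gap laws for the pairs `n`, `e n + f` in progressions.** -/
theorem prog2_gap (A δ θ : ℝ) (hA : 0 < A) (hδ : 0 < δ) (hθ : 0 < θ) (k0 : ℕ) (x0 ε : ℝ) (hε : 0 < ε) :
    ∃ r0 : ℕ, ∀ r : ℕ, r0 ≤ r → ∀ᶠ X : ℕ in atTop, ∀ (e f : ℤ) (q a : ℕ), e * e = 1 → Even f →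
      f ≠ 0 → |(f : ℝ)| ≤ (X : ℝ) ^ A → 1 ≤ q → (q : ℝ) ≤ (X : ℝ) ^ A → (a : ℝ) ≤ (X : ℝ) ^ A →
      Nat.Coprime q a → IsCoprime (q : ℤ) (e * a + f) →
      (∀ t : ℕ, 1 ≤ t → (t : ℝ) ≤ (X : ℝ) ^ δ → f ^ 2 ≠ ((q : ℤ) * t) ^ 2) →
      ∀ Z Y : ℕ, (X : ℝ) ^ θ ≤ Y →
      ∀ l T : ℕ, (l ≤ k0 ∨ T * Vq (Qn (Q2 e f) q) ⌊(X : ℝ) ^ (1 / (r : ℝ))⌋₊ ≤ x0) →
        |(Pk (Sf (Q (pf e f q a)) ⌊(X : ℝ) ^ (1 / (r : ℝ))⌋₊) l T Z Y : ℝ) -
          Y * Vq (Qn (Q2 e f) q) ⌊(X : ℝ) ^ (1 / (r : ℝ))⌋₊ *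
            Ck l (T * Vq (Qn (Q2 e f) q) ⌊(X : ℝ) ^ (1 / (r : ℝ))⌋₊)| ≤
          ε * (Y * Vq (Qn (Q2 e f) q) ⌊(X : ℝ) ^ (1 / (r : ℝ))⌋₊) := by
  obtain ⟨r0, h⟩ := gap_polys 2 1 (A + 1) δ θ (by linarith) hδ hθ k0 x0 ε hε
  refine ⟨max r0 2, ?_⟩
  intro r hr
  have hr2 : 2 ≤ r := (le_max_right _ _).trans hr
  obtain ⟨M, hM, hV⟩ := pf_Vup A hA r hr2
  filter_upwards [h r ((le_max_left _ _).trans hr) M, hV, eventually_ge_atTop 2] with X hX hVX hX2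
  intro e f q a he hf hf0 hfX hq hqX haX hqa hqf hne
  have hX2r : (2 : ℝ) ≤ X := by exact_mod_cast hX2
  have hX0 : (0 : ℝ) < X := by linarith
  have hX1 : (1 : ℝ) ≤ X := by linarith
  have hE : (X : ℝ) ^ (A + 1) = (X : ℝ) ^ A * X := by rw [Real.rpow_add hX0, Real.rpow_one]
  have hA0 : 0 < (X : ℝ) ^ A := Real.rpow_pos_of_pos hX0 _
  have hus := pf_us e f he hf q a hq hqa hqf ((X : ℝ) ^ (A + 1)) (by rw [hE]; nlinarith)
    (by rw [hE]; nlinarith)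
  have hno := pf_noas e f he q a hq ∅ ((X : ℝ) ^ δ) (fun t ht htU _ => hne t ht htU)
  have hus2 : US 2 1 ((X : ℝ) ^ (A + 1)) ((X : ℝ) ^ δ) (pf e f q a) :=
    { irr := hus.irr, deg := hus.deg, degD := hus.degD, hgt := hus.hgt, adm := hus.adm
      tr := fun i j t ht htU => hno i j t ht htU (by simp) }
  rw [← pf_Vq e f he q a _ hqa hqf]
  exact hX (pf e f q a) hus2 (by
    rw [pf_Vq e f he q a _ hqa hqf]
    exact hVX e f q he hf hf0 hfX hq hqX)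

/-- **Regular points of arbitrary sets of pairs `n`, `e n + f` in progressions.** -/
theorem prog2_her (A θ : ℝ) (hA : 0 < A) (hθ : 0 < θ) :
    ∃ r0 : ℕ, 2 ≤ r0 ∧ ∀ r : ℕ, r0 ≤ r → ∀ ε : ℝ, 0 < ε → ∃ cc : ℝ, 0 < cc ∧
      ∀ δ : ℝ, 0 < δ → ∃ B : ℕ, ∀ᶠ X : ℕ in atTop, ∀ (e f : ℤ) (q a : ℕ), e * e = 1 → Even f →
      f ≠ 0 → |(f : ℝ)| ≤ (X : ℝ) ^ A → 1 ≤ q → (q : ℝ) ≤ (X : ℝ) ^ A → (a : ℝ) ≤ (X : ℝ) ^ A →
      Nat.Coprime q a → IsCoprime (q : ℤ) (e * a + f) →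
      ∀ u Y : ℕ, (X : ℝ) ^ θ ≤ Y → Y ≤ X → Y ≤ u →
      ∀ S : Set ℕ, (∀ m ∈ S, Sf (Q (pf e f q a)) ⌊(X : ℝ) ^ (1 / (r : ℝ))⌋₊ m) →
        (Pool.Agent.TH977.PW.N (Irr S (1 / Vq (Qn (Q2 e f) q) ⌊(X : ℝ) ^ (1 / (r : ℝ))⌋₊) cc δ B Y)
          u (u + Y) : ℝ) ≤ ε * (Y * Vq (Qn (Q2 e f) q) ⌊(X : ℝ) ^ (1 / (r : ℝ))⌋₊) := by
  obtain ⟨r0, hr0, h⟩ := hered_polys 2 1 1 (A + 1) 1 θ (by linarith) one_pos hθ
  refine ⟨r0, hr0, ?_⟩
  intro r hr ε hε
  have hr2 : 2 ≤ r := hr0.trans hr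
  obtain ⟨M, hM, hV⟩ := pf_Vup A hA r hr2
  obtain ⟨cc, hcc, h2⟩ := h r hr M hM ε hε
  refine ⟨cc, hcc, ?_⟩
  intro δ hδ
  obtain ⟨B, h3⟩ := h2 δ hδ
  refine ⟨B, ?_⟩
  filter_upwards [h3, hV, eventually_ge_atTop 2] with X hX hVX hX2
  intro e f q a he hf hf0 hfX hq hqX haX hqa hqf u Y hXY hYX hYu S hS
  have hX2r : (2 : ℝ) ≤ X := by exact_mod_cast hX2
  have hX0 : (0 : ℝ) < X := by linarith
  have hX1 : (1 : ℝ) ≤ X := by linarith
  have hE : (X : ℝ) ^ (A + 1) = (X : ℝ) ^ A * X := by rw [Real.rpow_add hX0, Real.rpow_one]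
  have hA0 : 0 < (X : ℝ) ^ A := Real.rpow_pos_of_pos hX0 _
  have hus := pf_us e f he hf q a hq hqa hqf ((X : ℝ) ^ (A + 1)) (by rw [hE]; nlinarith)
    (by rw [hE]; nlinarith)
  have hno := pf_noas e f he q a hq {f.natAbs / q} ((X : ℝ) ^ (1 : ℝ)) (fun t ht _ htE h4 => by
    apply htE
    rw [mem_singleton]
    have h5 : f.natAbs = q * t := by
      have h6 := Int.natAbs_eq_iff_sq_eq.2 h4
      rw [h6, Int.natAbs_mul, Int.natAbs_natCast, Int.natAbs_natCast]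
    rw [h5, Nat.mul_div_cancel_left _ (by omega)])
  rw [← pf_Vq e f he q a _ hqa hqf]
  exact hX (pf e f q a) hus {f.natAbs / q} (by simp) hno (by
    rw [pf_Vq e f he q a _ hqa hqf]
    exact hVX e f q he hf hf0 hfX hq hqX) u Y hXY hYX hYu S hS

end Pool.Agent.Y879.GL
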