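import Pool.Agent.Y879.GL.UnifPoly

set_option autoImplicit false

/-!
# Auxiliary lemmas on associated polynomials, sizes, densities
-/

namespace Pool.Agent.Y879.GL

open Polynomial Finset Filter
open Pool.Agent.W123.RP Pool.Agent.H373R2.T7 Pool.Agent.W123.RU Pool.Agent.W123.RU.Poly
open Pool.Agent.TH464.PW Pool.Agent.TH464.PO

lemma assoc_cases {f g : ℤ[X]} (h : Associated f g) : f = g ∨ f = -g := by
  obtain ⟨u, hu⟩ := h
  obtain ⟨r, hr, hru⟩ := Polynomial.isUnit_iff.1 u.isUnit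
  rw [← hru] at hu
  rcases Int.isUnit_iff.1 hr with h1 | h1
  · left
    rw [h1, C_1, mul_one] at hu
    exact hu
  · right
    rw [h1] at hu
    rw [← hu]
    simp

lemma lc_shift (f : ℤ[X]) (t : ℤ) : (f.comp (X + C t)).leadingCoeff = f.leadingCoeff := by
  rw [leadingCoeff_comp (by rw [natDegree_X_add_C]; norm_num), leadingCoeff_X_add_C, one_pow, mul_one]

lemma periodic_const (f : ℤ[X]) (t : ℤ) (ht : t ≠ 0) (h : f = f.comp (X + C t)) : f.natDegree = 0 := by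
  have h1 : ∀ n : ℕ, f.eval ((n : ℤ) * t) = f.eval 0 := by
    intro n
    induction n with
    | zero => simp
    | succ n ih =>
      rw [← ih]
      conv_rhs => rw [h]
      rw [eval_comp, eval_add, eval_X, eval_C]
      congr 1
      push_cast
      ring
  have h2 : f - C (f.eval 0) = 0 := by
    apply Polynomial.eq_zero_of_infinite_isRoot
    apply Set.Infinite.mono (s := Set.range (fun n : ℕ => (n : ℤ) * t))
    · rintro _ ⟨n, rfl⟩
      rw [Set.mem_ofPred_eq, IsRoot.def, eval_sub, eval_C, h1 n, sub_self]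
    · apply Set.infinite_range_of_injective
      intro a b hab
      have : (a : ℤ) * t = b * t := hab
      have := mul_right_cancel₀ ht this
      exact_mod_cast this
  rw [sub_eq_zero.1 h2, natDegree_C]

/-- a polynomial is not associated to its translates -/
lemma no_self (f : ℤ[X]) (hf : f.natDegree ≠ 0) (t : ℤ) (ht : t ≠ 0) :
    ¬ Associated f (f.comp (X + C t)) := by
  intro h
  rcases assoc_cases h with h1 | h1
  · exact hf (periodic_const f t ht h1)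
  · have h2 := congrArg leadingCoeff h1
    rw [leadingCoeff_neg, lc_shift] at h2
    have h3 : f.leadingCoeff = 0 := by omega
    rw [leadingCoeff_eq_zero] at h3
    rw [h3, natDegree_zero] at hf
    exact hf rfl

open Classical in
/-- the sieve densities of two conditions -/
lemma Vq_anti (Q Q' : ℕ → ℕ → Prop) (y : ℕ) (h : ∀ p m, p.Prime → Q p m → Q' p m) : Vq Q' y ≤ Vq Q y := by
  unfold Vq
  apply Finset.prod_le_prod
  · intro p hp
    exact one_sub_nonneg _ p (mem_pz.1 hp).2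
  · intro p hp
    have h1 : nuB Q p ≤ nuB Q' p := by
      unfold nuB
      apply card_le_card
      intro r hr
      rw [mem_filter] at hr ⊢
      exact ⟨hr.1, h p r (mem_pz.1 hp).2 hr.2⟩
    have h2 : (nuB Q p : ℝ) / p ≤ (nuB Q' p : ℝ) / p := by gcongr
    linarith

/-- the bounds for the level -/
lemma level_ok (r : ℕ) (hr : 2 ≤ r) : ∀ᶠ X : ℕ in atTop, 3 ≤ ⌊(X : ℝ) ^ (1 / (r : ℝ))⌋₊ ∧
    Real.log X / (2 * r) ≤ Real.log ⌊(X : ℝ) ^ (1 / (r : ℝ))⌋₊ ∧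
    Real.log ⌊(X : ℝ) ^ (1 / (r : ℝ))⌋₊ ≤ Real.log X ∧ 1 ≤ Real.log ⌊(X : ℝ) ^ (1 / (r : ℝ))⌋₊ ∧
    1 ≤ Real.log X := by
  have hrr : (2 : ℝ) ≤ r := by exact_mod_cast hr
  have hpow2 : Tendsto (fun X : ℕ => (X : ℝ) ^ (1 / (2 * r : ℝ))) atTop atTop :=
    (tendsto_rpow_atTop (by positivity)).comp tendsto_natCast_atTop_atTop
  filter_upwards [hpow2.eventually_ge_atTop 3, eventually_ge_atTop 16] with X hX1 hX16
  obtain ⟨hy1, hy2, hy3, hy4⟩ := level_low r hr X (by omega) (by linarith)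
  have h3 : (3 : ℝ) ≤ (⌊(X : ℝ) ^ (1 / (r : ℝ))⌋₊ : ℝ) := hX1.trans hy1
  have h4 : 1 ≤ Real.log ⌊(X : ℝ) ^ (1 / (r : ℝ))⌋₊ := by
    have h5 : Real.log (Real.exp 1) ≤ Real.log ⌊(X : ℝ) ^ (1 / (r : ℝ))⌋₊ := by
      apply Real.log_le_log (Real.exp_pos _)
      have := Real.exp_one_lt_d9
      linarith
    rwa [Real.log_exp] at h5
  exact ⟨by exact_mod_cast h3, hy2, hy3, h4, h4.trans hy3⟩

/-- the upper bound for the density from a fixed system -/
lemma V_from_sys {ι : Type} [Fintype ι] [Nonempty ι] (F : ι → ℤ[X]) (hF : Sys F) (r : ℕ) (hr : 2 ≤ r) :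
    ∃ Cv : ℝ, 0 < Cv ∧ ∀ᶠ X : ℕ in atTop, ∀ Q' : ℕ → ℕ → Prop,
      (∀ p m, p.Prime → Q F p m → Q' p m) →
      Vq Q' ⌊(X : ℝ) ^ (1 / (r : ℝ))⌋₊ ≤ Cv / Real.log X ^ (Fintype.card ι) ∧
      Vq Q' ⌊(X : ℝ) ^ (1 / (r : ℝ))⌋₊ ≤ Cv / Real.log X := by
  obtain ⟨v, Cv, hv, hCv, hV⟩ := V_bounds F hF
  obtain ⟨k, hk⟩ : ∃ k, k = Fintype.card ι := ⟨_, rfl⟩
  have hk1 : 1 ≤ k := by rw [hk]; exact Fintype.card_pos
  rw [← hk] at hV ⊢
  have hrr : (2 : ℝ) ≤ r := by exact_mod_cast hr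
  refine ⟨Cv * (2 * r) ^ k, by positivity, ?_⟩
  filter_upwards [level_ok r hr] with X hX
  obtain ⟨h3, hy2, hy3, h4, h5⟩ := hX
  intro Q' hQ'
  have h6 := (Vq_anti (Q F) Q' ⌊(X : ℝ) ^ (1 / (r : ℝ))⌋₊ hQ').trans (hV _ h3).2
  have h7 : Cv / Real.log ⌊(X : ℝ) ^ (1 / (r : ℝ))⌋₊ ^ k ≤ Cv * (2 * r) ^ k / Real.log X ^ k := by
    rw [mul_div_assoc, ← div_pow, div_eq_mul_one_div Cv]
    apply mul_le_mul_of_nonneg_left _ hCv.le
    rw [one_div, ← inv_pow]
    apply pow_le_pow_left₀ (by positivity)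
    rw [inv_le_comm₀ (by linarith) (by positivity), inv_div]
    exact hy2
  refine ⟨h6.trans h7, (h6.trans h7).trans ?_⟩
  apply div_le_div_of_nonneg_left (by positivity) (by linarith)
  calc Real.log X = Real.log X ^ 1 := (pow_one _).symm
    _ ≤ Real.log X ^ k := pow_le_pow_right₀ h5 hk1

/-- the lower bound for the density -/
lemma V_low_log (c : ℕ) (r : ℕ) (hr : 2 ≤ r) : ∃ v : ℝ, 0 < v ∧ ∀ᶠ X : ℕ in atTop,
    ∀ Q' : ℕ → ℕ → Prop, PerB Q' c → (∀ p : ℕ, p.Prime → nuB Q' p < p) →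
      v / Real.log X ^ c ≤ Vq Q' ⌊(X : ℝ) ^ (1 / (r : ℝ))⌋₊ := by
  obtain ⟨v, hv, hV⟩ := V_lower_unif c
  refine ⟨v, hv, ?_⟩
  filter_upwards [level_ok r hr] with X hX
  obtain ⟨h3, hy2, hy3, h4, h5⟩ := hX
  intro Q' hQ hadm
  refine le_trans ?_ (hV Q' hQ hadm _ (by omega))
  apply div_le_div_of_nonneg_left hv.le (by positivity)
  exact pow_le_pow_left₀ (by linarith) hy3 c

end Pool.Agent.Y879.GL
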