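import Pool.Agent.TH977.PW.Hered
import Pool.Agent.TH464.PO.Gen

set_option autoImplicit false

/-!
# Neighbourhoods of almost all elements of an arbitrary set of sieved integers, uniform version

Adapted from `TH977.PW.Hered`.
-/

namespace Pool.Agent.Y879.GL

open Polynomial Finset Filter
open Pool.Agent.W123.RP Pool.Agent.H373R2.T7 Pool.Agent.W123.RU Pool.Agent.W123.RU.Poly
open Pool.Agent.W123.GS Pool.Agent.W123.PP Pool.Agent.TH464.PW Pool.Agent.TH464.PO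
open Pool.Agent.TH977.PW (N Sh co_Sh)

/-- All intervals `(m - s, m + t]` with `s, t ≤ Y` of length at least `L / c` contain the right order
of elements of `A`. -/
def RO (A : Set ℕ) (L c : ℝ) (Y m : ℕ) : Prop :=
  ∀ s t : ℕ, s ≤ Y → t ≤ Y → L ≤ c * (s + t) →
    c * (s + t) / L ≤ N A (m - s) (m + t) ∧ (N A (m - s) (m + t) : ℝ) ≤ (s + t) / (c * L)

/-- Up to `δ`, `A` has a constant density on both sides of `m` up to the distance `2 ^ j`. -/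
def CD (A : Set ℕ) (L c δ : ℝ) (m j : ℕ) : Prop :=
  ∃ lam : ℝ, c ≤ lam ∧ lam ≤ 1 / c ∧ ∀ s t : ℕ, s ≤ 2 ^ j → t ≤ 2 ^ j →
    |(N A (m - s) (m + t) : ℝ) - lam * (s + t) / L| ≤ δ * 2 ^ j / L

open Classical in
/-- the number of the scales `L ≤ 2 ^ j ≤ Y` without this property -/
noncomputable def bS (A : Set ℕ) (L c δ : ℝ) (Y m : ℕ) : ℕ :=
  ((Finset.range (Nat.log 2 Y + 1)).filter (fun j => L ≤ (2 : ℝ) ^ j ∧ ¬ CD A L c δ m j)).card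

/-- The elements of `A` that are not regular points of `A`. -/
def Irr (A : Set ℕ) (L c δ : ℝ) (B Y : ℕ) : Set ℕ :=
  {m | m ∈ A ∧ ¬ (RO A L c Y m ∧ bS A L c δ Y m ≤ B)}

lemma sdata_Qt (Q : ℕ → ℕ → Prop) (c : ℕ) (hQ : PerB Q c) (hadm : ∀ p : ℕ, p.Prime → nuB Q p < p)
    (s : ℕ) : Sdata (Qt Q s) (CoG Q) c (2 * c) (c ^ 2) := by
  refine ⟨perB_Qt Q c hQ s, ?_, le_rfl, ?_, coll_gen Q c hQ (2 * c)⟩
  · intro p hp
    rw [nuB_Qt Q c hQ]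
    exact hadm p hp
  · intro p _ _ t m h1 h2
    refine ⟨m + s, h1, ?_⟩
    unfold Qt at h2
    rw [show m + s + t = m + t + s by ring]
    exact h2

open Classical in
/-- **Regular points of arbitrary sets of sieved integers**, uniform version. -/
theorem hered_abs (c e D' : ℕ) (hc : 1 ≤ c) :
    ∃ K0 : ℕ, 2 ≤ K0 ∧ ∀ r : ℕ, K0 ≤ r → ∀ C3 : ℝ, 0 < C3 →
    ∀ ε : ℝ, 0 < ε → ∃ cc : ℝ, 0 < cc ∧ ∀ δ : ℝ, 0 < δ → ∃ (B : ℕ) (L0 : ℝ),
      ∀ᶠ Y : ℕ in atTop, ∀ (Q : ℕ → ℕ → Prop) (L : ℝ) (E0 : Finset ℕ) (Z : ℕ), PerB Q c →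
        (∀ p : ℕ, p.Prime → nuB Q p < p) → L0 ≤ L → L ^ 8 ≤ Y → Y ≤ Z →
        Vq Q ⌊(Y : ℝ) ^ (1 / (r : ℝ))⌋₊ ≤ C3 / L → E0.card ≤ e →
        (∀ h ∈ Icc 1 ⌊L⌋₊, h ∉ E0 → ((pz ⌊(Y : ℝ) ^ (1 / (r : ℝ))⌋₊).filter
          (fun p : ℕ => ⌊L⌋₊ < p ∧ CoG Q p h)).card ≤ D' * ⌊L⌋₊) →
        ∀ A : Set ℕ, (∀ m ∈ A, Sf Q ⌊(Y : ℝ) ^ (1 / (r : ℝ))⌋₊ m) →
        (N (Irr A L cc δ B Y) Z (Z + Y) : ℝ) ≤ ε * Y / L := by
  obtain ⟨K0, hK0, hmain⟩ := sieve_inputE c (2 * c) (c ^ 2) D' e hc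
  refine ⟨K0, hK0, ?_⟩
  intro r hr C3 hC3 ε hε
  obtain ⟨C1, C2, hC1, hC2, hin⟩ := hmain r hr C3 hC3
  obtain ⟨c1, Lam, hc1, hLam, hpts⟩ := points C1 C2 hC1 hC2 ε hε
  obtain ⟨c0, hc0def⟩ : ∃ c0 : ℝ, c0 = min c1 1 := ⟨_, rfl⟩
  have hc0 : 0 < c0 := by rw [hc0def]; exact lt_min hc1 one_pos
  have hc0c1 : c0 ≤ c1 := by rw [hc0def]; exact min_le_left _ _
  have hc01 : c0 ≤ 1 := by rw [hc0def]; exact min_le_right _ _
  obtain ⟨cc, hcdef⟩ : ∃ cc : ℝ, cc = min (1 / (3 * Lam)) (c0 / 4) := ⟨_, rfl⟩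
  have hcc : 0 < cc := by rw [hcdef]; positivity
  have hc4 : cc ≤ c0 / 4 := by rw [hcdef]; exact min_le_right _ _
  have hcL : cc ≤ 1 / (3 * Lam) := by rw [hcdef]; exact min_le_left _ _
  refine ⟨cc, hcc, ?_⟩
  intro δ hδ
  obtain ⟨K, B0, hB0, hpts⟩ := hpts (min δ (c0 / 4)) (by positivity)
  obtain ⟨s0, hs0⟩ : ∃ s0 : ℕ, 2 / c0 ≤ (2 : ℝ) ^ s0 := by
    obtain ⟨j, hj⟩ := pow_unbounded_of_one_lt (2 / c0) (one_lt_two : (1 : ℝ) < 2)
    exact ⟨j, hj.le⟩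
  obtain ⟨L0, hL0⟩ := hin (B0 + 1) (by positivity)
  refine ⟨K + s0, L0, ?_⟩
  filter_upwards [hL0] with Y hY
  intro Q L E0 Z hQ hadm hLL0 hL8 hYZ hV hE0 hlarge A hA
  obtain ⟨s, hs⟩ : ∃ s, s = Z - Y := ⟨_, rfl⟩
  obtain ⟨h1, h2, h3, h4⟩ := hY (Qt Q s) (CoG Q) L E0 (sdata_Qt Q c hQ hadm s) hLL0 hL8
    (by rw [Vq_Qt Q c hQ]; exact hV) hE0 hlarge
    (fun n => Sf (Qt Q s) ⌊(Y : ℝ) ^ (1 / (r : ℝ))⌋₊ n) (fun m hm _ _ p hp => hm p hp)
  have hLpos : 0 < L := by linarith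
  have hLL : 0 < L ^ 2 := by positivity
  have hB0L : 0 ≤ B0 * L ^ 2 := by positivity
  have hLY : L ≤ Y := by nlinarith
  have hBX' : B0 * L ^ 2 ≤ Y := by nlinarith
  have hPP : ∀ n, Sh A Z Y n → Sf (Qt Q s) ⌊(Y : ℝ) ^ (1 / (r : ℝ))⌋₊ n := by
    intro n hn
    have h5 := hA _ hn.2.2
    rw [sf_Qt, hs]
    exact h5
  have hbad := hpts (Sh A Z Y) (fun n => Sf (Qt Q s) ⌊(Y : ℝ) ^ (1 / (r : ℝ))⌋₊ n) Y L h1 hBX' hPP h3 h4
  refine le_trans ?_ hbad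
  have hcoP : ∀ a b, co (Sh A Z Y) a b ≤
      co (fun n => Sf (Qt Q s) ⌊(Y : ℝ) ^ (1 / (r : ℝ))⌋₊ n) a b := by
    intro a b
    unfold co
    apply card_le_card
    intro n hn
    rw [mem_filter] at hn ⊢
    exact ⟨hn.1, hPP n hn.2⟩
  have hle : ((Finset.Ioc Z (Z + Y)).filter (fun m => m ∈ Irr A L cc δ (K + s0) Y)).card ≤
      ((Finset.Ioc Y (2 * Y)).filter (fun p => Sh A Z Y p ∧ ¬ (
        (∀ H : ℕ, 1 ≤ H → H ≤ Y →
          c1 / L * H ≤ cl (Sh A Z Y) p (p + H) ∧ c1 / L * H ≤ cl (Sh A Z Y) (p + 1 - H) (p + 1)) ∧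
        (∀ H : ℕ, ⌊L⌋₊ ≤ H → H ≤ Y →
          (co (fun n => Sf (Qt Q s) ⌊(Y : ℝ) ^ (1 / (r : ℝ))⌋₊ n) p (p + H) : ℝ) ≤ Lam / L * H ∧
            (co (fun n => Sf (Qt Q s) ⌊(Y : ℝ) ^ (1 / (r : ℝ))⌋₊ n) (p - H) p : ℝ) ≤ Lam / L * H) ∧
        ((range (Nat.log 2 Y + 1)).filter (fun j => L ≤ (2 : ℝ) ^ j ∧
          ¬ Good (Sh A Z Y) 0 Lam (min δ (c0 / 4)) L p j)).card ≤ K))).card := by
    apply Finset.card_le_card_of_injOn (fun m => m - (Z - Y))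
    · intro m hm
      rw [Finset.mem_coe, mem_filter, mem_Ioc] at hm
      obtain ⟨⟨hm1, hm2⟩, hm3, hm4⟩ := hm
      obtain ⟨n, rfl⟩ : ∃ n, m = n + (Z - Y) := ⟨m - (Z - Y), by omega⟩
      have e : n + (Z - Y) - (Z - Y) = n := by omega
      have hn1 : Y < n := by omega
      have hn2 : n ≤ 2 * Y := by omega
      rw [Finset.mem_coe]
      beta_reduce
      rw [e, mem_filter, mem_Ioc]
      refine ⟨⟨hn1, hn2⟩, ⟨by omega, by omega, hm3⟩, ?_⟩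
      rintro ⟨W1, W2, W3⟩
      apply hm4
      have hgood := local_good (Sh A Z Y) n Y L c0 Lam cc δ K s0 h1 hLY (by omega) hc0 hc01 hLam hcc
        hc4 hcL hδ hs0 (by
          intro H hH1 hH2
          have h3 : c0 / L * H ≤ c1 / L * H := by gcongr
          exact ⟨h3.trans (W1 H hH1 hH2).1, h3.trans (W1 H hH1 hH2).2⟩) (by
          intro H hH1 hH2
          have a1 := hcoP n (n + H)
          have a2 := hcoP (n - H) n
          have a1' : (co (Sh A Z Y) n (n + H) : ℝ) ≤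
              co (fun n => Sf (Qt Q s) ⌊(Y : ℝ) ^ (1 / (r : ℝ))⌋₊ n) n (n + H) := by
            exact_mod_cast a1
          have a2' : (co (Sh A Z Y) (n - H) n : ℝ) ≤
              co (fun n => Sf (Qt Q s) ⌊(Y : ℝ) ^ (1 / (r : ℝ))⌋₊ n) (n - H) n := by
            exact_mod_cast a2
          exact ⟨a1'.trans (W2 H hH1 hH2).1, a2'.trans (W2 H hH1 hH2).2⟩) W3
      obtain ⟨G1, G2⟩ := hgood
      have hshift : ∀ s t : ℕ, s ≤ Y → t ≤ Y → N A (n + (Z - Y) - s) (n + (Z - Y) + t) =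
          co (Sh A Z Y) (n - s) (n + t) := by
        intro s t hs ht
        rw [co_Sh A Z Y _ _ (by omega)]
        congr 1 <;> omega
      constructor
      · intro s t hs ht hst
        rw [hshift s t hs ht]
        exact G1 s t hs ht hst
      · refine le_trans ?_ G2
        unfold bS
        apply card_le_card
        intro j hj
        rw [mem_filter] at hj ⊢
        obtain ⟨hj1, hj2, hj3⟩ := hj
        refine ⟨hj1, hj2, ?_⟩
        rintro ⟨lam, g1, g2, g3⟩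
        apply hj3
        have hjY : 2 ^ j ≤ Y := by
          have h6 : j ≤ Nat.log 2 Y := by
            rw [mem_range] at hj1
            omega
          have hY0 : Y ≠ 0 := by
            rintro rfl
            simp at hLY
            linarith
          exact (Nat.pow_le_pow_right (by norm_num) h6).trans (Nat.pow_log_le_self 2 hY0)
        refine ⟨lam, g1, g2, ?_⟩
        intro s t hs ht
        rw [hshift s t (hs.trans hjY) (ht.trans hjY)]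
        exact g3 s t hs ht
    · intro a ha b hb hab
      rw [Finset.mem_coe, mem_filter, mem_Ioc] at ha hb
      simp only at hab
      omega
  unfold N
  exact_mod_cast hle

end Pool.Agent.Y879.GL
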