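import Pool.Agent.Y879.GL.GapZ

set_option autoImplicit false

/-!
# Gap laws for sieve conditions which depend on `X`
-/

namespace Pool.Agent.Y879.GL

open Polynomial Finset Filter
open Pool.Agent.W123.RP Pool.Agent.H373R2.T7 Pool.Agent.W123.RU Pool.Agent.W123.RU.Poly
open Pool.Agent.TH464.PW Pool.Agent.TH464.PO

open Classical in
/-- the primes dividing `R` -/
lemma card_primes_le (S : Finset ℕ) (T R : ℕ) (hT : 2 ≤ T) (hR : 0 < R) (x : ℝ) (hRx : (R : ℝ) ≤ x)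
    (hS : ∀ p ∈ S, p.Prime ∧ T < p ∧ p ∣ R) : (S.card : ℝ) * Real.log T ≤ Real.log x := by
  have h1 : ∏ p ∈ S, p ∣ R := Finset.prod_primes_dvd R (fun p hp => (hS p hp).1.prime)
    (fun p hp => (hS p hp).2.2)
  have h2 : T ^ S.card ≤ ∏ p ∈ S, p := Finset.pow_card_le_prod _ _ _ (fun p hp => (hS p hp).2.1.le)
  have h3 : T ^ S.card ≤ R := h2.trans (Nat.le_of_dvd hR h1)
  have h4 : ((T : ℝ)) ^ S.card ≤ x := by
    refine le_trans ?_ hRx
    exact_mod_cast h3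
  have hT0 : (0 : ℝ) < T := by exact_mod_cast (by omega : 0 < T)
  have h5 := Real.log_le_log (by positivity) h4
  rwa [Real.log_pow] at h5

open Classical in
/-- **The gap laws, uniformly in the sieve conditions.** -/
theorem gap_unif (c : ℕ) (hc : 1 ≤ c) (A δ θ : ℝ) (hA : 0 < A) (hδ : 0 < δ) (hθ : 0 < θ) (k0 : ℕ)
    (x0 ε : ℝ) (hε : 0 < ε) :
    ∃ r0 : ℕ, ∀ r : ℕ, r0 ≤ r → ∀ Cv : ℝ, ∀ᶠ X : ℕ in atTop, ∀ Q : ℕ → ℕ → Prop, PerB Q c →
      (∀ p : ℕ, p.Prime → nuB Q p < p) →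
      Vq Q ⌊(X : ℝ) ^ (1 / (r : ℝ))⌋₊ ≤ Cv / Real.log X →
      (∀ t : ℕ, 1 ≤ t → (t : ℝ) ≤ (X : ℝ) ^ δ → ∃ R : ℕ, 0 < R ∧ (R : ℝ) ≤ (X : ℝ) ^ A ∧
        ∀ p : ℕ, p.Prime → t < p → CoG Q p t → p ∣ R) →
      ∀ Z Y : ℕ, (X : ℝ) ^ θ ≤ Y →
      ∀ k T : ℕ, (k ≤ k0 ∨ T * Vq Q ⌊(X : ℝ) ^ (1 / (r : ℝ))⌋₊ ≤ x0) →
        |(Pk (Sf Q ⌊(X : ℝ) ^ (1 / (r : ℝ))⌋₊) k T Z Y : ℝ) -
          Y * Vq Q ⌊(X : ℝ) ^ (1 / (r : ℝ))⌋₊ * Ck k (T * Vq Q ⌊(X : ℝ) ^ (1 / (r : ℝ))⌋₊)| ≤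
          ε * (Y * Vq Q ⌊(X : ℝ) ^ (1 / (r : ℝ))⌋₊) := by
  obtain ⟨K0, y0, T0, R0, η', κ, x1, hη', hκ, hx1, hgap⟩ := gen_gap c hc k0 x0 ε hε
  obtain ⟨v, hv, hV⟩ := V_lower_unif c
  obtain ⟨R1, hR1⟩ : ∃ R1 : ℕ, (K0 : ℝ) / θ ≤ R1 := exists_nat_ge _
  refine ⟨max R1 2, ?_⟩
  intro r hr Cv0
  have hr2 : 2 ≤ r := (le_max_right _ _).trans hr
  have hrr : (2 : ℝ) ≤ r := by exact_mod_cast hr2
  have hrpos : (0 : ℝ) < r := by linarith
  have hrK : (K0 : ℝ) ≤ θ * r := by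
    have h1 : (K0 : ℝ) / θ ≤ r := hR1.trans (by exact_mod_cast (le_max_left _ _).trans hr)
    rw [div_le_iff₀ hθ] at h1
    linarith
  obtain ⟨Cv, hCv⟩ : ∃ Cv, Cv = max Cv0 1 := ⟨_, rfl⟩
  have hCv1 : 1 ≤ Cv := by rw [hCv]; exact le_max_right _ _
  have hCv0 : Cv0 ≤ Cv := by rw [hCv]; exact le_max_left _ _
  have hpow2 : Tendsto (fun X : ℕ => (X : ℝ) ^ (1 / (2 * r : ℝ))) atTop atTop :=
    (tendsto_rpow_atTop (by positivity)).comp tendsto_natCast_atTop_atTop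
  have hlogX : Tendsto (fun X : ℕ => Real.log (X : ℝ)) atTop atTop :=
    Real.tendsto_log_atTop.comp tendsto_natCast_atTop_atTop
  obtain ⟨E, hE⟩ : ∃ E : ℝ, E = Real.exp (A * Cv / (η' * κ)) := ⟨_, rfl⟩
  have hE0 : 0 < E := by rw [hE]; exact Real.exp_pos _
  obtain ⟨M, hM⟩ : ∃ M : ℝ, M = 1 / (κ * v) + (x1 / κ + 1) / v := ⟨_, rfl⟩
  have hM0 : 0 < M := by rw [hM]; positivity
  have hq1 : (0 : ℝ) < (x1 / v) ^ R0 + 1 := by positivity
  have hq2 : (0 : ℝ) < x1 / v + 1 := by positivity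
  filter_upwards [hpow2.eventually_ge_atTop ((y0 : ℝ) + 3), eventually_ge_atTop 16,
    hlogX.eventually_ge_atTop (Cv / κ), hlogX.eventually_ge_atTop (Cv / κ * (T0 + 2 + E)),
    logpow_rpow (c * R0) ((x1 / v) ^ R0 + 1) θ hq1 hθ,
    logpow_rpow c (x1 / v + 1) δ hq2 hδ,
    logpow_rpow c M (θ / 2) hM0 (by positivity)] with X hX1 hX16 hX3 hX4 hX5 hX6 hX7
  intro Q hQ hadm hVup0 hres Z Y hXY k T hkT
  have hX16r : (16 : ℝ) ≤ X := by exact_mod_cast hX16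
  have hXpos : (0 : ℝ) < X := by linarith
  have hXone : (1 : ℝ) ≤ X := by linarith
  have hlX0 : 0 < Real.log X := Real.log_pos (by linarith)
  have hy0r : (0 : ℝ) ≤ y0 := Nat.cast_nonneg _
  obtain ⟨hy1, hy2, hy3, hy4⟩ := level_low r hr2 X (by omega) (by linarith)
  obtain ⟨y, hy⟩ : ∃ y, y = ⌊(X : ℝ) ^ (1 / (r : ℝ))⌋₊ := ⟨_, rfl⟩
  rw [← hy] at hy1 hy2 hy3 hy4 hVup0 hkT ⊢
  have hyr : (y0 : ℝ) + 3 ≤ y := hX1.trans hy1
  have hyy0 : y0 ≤ y := by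
    have : (y0 : ℝ) ≤ y := by linarith
    exact_mod_cast this
  have hy3' : 3 ≤ y := by
    have : (3 : ℝ) ≤ y := by linarith
    exact_mod_cast this
  have hlogy : 0 < Real.log y := lt_of_lt_of_le (by positivity) hy2
  have hVlow0 := hV Q hQ hadm y (by omega)
  have hVlow : v / Real.log X ^ c ≤ Vq Q y := by
    refine le_trans ?_ hVlow0
    apply div_le_div_of_nonneg_left hv.le (by positivity)
    exact pow_le_pow_left₀ hlogy.le hy3 c
  have hVup : Vq Q y ≤ Cv / Real.log X := hVup0.trans (by gcongr)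
  obtain ⟨V, hVdef⟩ : ∃ V, V = Vq Q y := ⟨_, rfl⟩
  rw [← hVdef] at hVlow hVup hkT ⊢
  have hVpos : 0 < V := lt_of_lt_of_le (by positivity) hVlow
  have hVκ : V ≤ κ := by
    refine hVup.trans ?_
    rw [div_le_iff₀ hlX0]
    rw [div_le_iff₀ hκ] at hX3
    linarith
  have hyK : y ^ K0 ≤ Y := by
    have h3 : ((y ^ K0 : ℕ) : ℝ) ≤ Y := by
      push_cast
      calc (y : ℝ) ^ K0 ≤ ((X : ℝ) ^ (1 / (r : ℝ))) ^ K0 := by
            apply pow_le_pow_left₀ (Nat.cast_nonneg _)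
            rw [hy]
            exact Nat.floor_le (by positivity)
        _ = (X : ℝ) ^ (1 / (r : ℝ) * K0) := by
            rw [Real.rpow_mul hXpos.le, Real.rpow_natCast]
        _ ≤ (X : ℝ) ^ θ := by
            apply Real.rpow_le_rpow_of_exponent_le hXone
            rw [one_div, inv_mul_eq_div, div_le_iff₀ hrpos]
            exact hrK
        _ ≤ Y := hXY
    exact_mod_cast h3
  have hsY : (X : ℝ) ^ (θ / 2) ≤ √(Y : ℝ) := by
    apply Real.le_sqrt_of_sq_le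
    refine le_trans (le_of_eq ?_) hXY
    rw [← Real.rpow_natCast, ← Real.rpow_mul hXpos.le]
    congr 1
    push_cast
    ring
  have hsY2 : M * Real.log X ^ c ≤ √(Y : ℝ) := hX7.trans hsY
  have hs0 : 0 < √(Y : ℝ) := lt_of_lt_of_le (by positivity) hsY2
  have hsq : √(Y : ℝ) * √(Y : ℝ) = Y := Real.mul_self_sqrt (Nat.cast_nonneg Y)
  have hMv : M * v ≤ √(Y : ℝ) * V := by
    calc M * v = (M * Real.log X ^ c) * (v / Real.log X ^ c) := by field_simp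
      _ ≤ √(Y : ℝ) * V := mul_le_mul hsY2 hVlow (by positivity) hs0.le
  have hMv2 : M * v = 1 / κ + (x1 / κ + 1) := by
    rw [hM]
    field_simp
  rw [hMv2] at hMv
  have hx1κ : 0 < x1 / κ := by positivity
  have hκ1 : 0 < 1 / κ := by positivity
  rw [hVdef] at hVκ hMv hkT hVpos ⊢
  refine hgap Q Z Y y hQ hadm hyy0 hyK hVκ ?_ ?_ ?_ k T hkT
  · have h1 : 1 / κ ≤ √(Y : ℝ) * Vq Q y := by linarith
    rw [div_le_iff₀ hκ] at h1
    calc √(Y : ℝ) = √(Y : ℝ) * 1 := (mul_one _).symm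
      _ ≤ √(Y : ℝ) * (√(Y : ℝ) * Vq Q y * κ) := mul_le_mul_of_nonneg_left h1 hs0.le
      _ = κ * ((√(Y : ℝ) * √(Y : ℝ)) * Vq Q y) := by ring
      _ = κ * (Y * Vq Q y) := by rw [hsq]
  · have h1 : x1 / κ ≤ (√(Y : ℝ) * Vq Q y) ^ 2 := by nlinarith
    rw [div_le_iff₀ hVpos]
    rw [div_le_iff₀ hκ] at h1
    calc x1 ≤ (√(Y : ℝ) * Vq Q y) ^ 2 * κ := h1
      _ = κ * ((√(Y : ℝ) * √(Y : ℝ)) * Vq Q y) * Vq Q y := by ring
      _ = κ * (Y * Vq Q y) * Vq Q y := by rw [hsq]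
  · intro T' h1 h2
    rw [← hVdef] at h1 h2
    have hTr0 : (0 : ℝ) ≤ T' := Nat.cast_nonneg _
    -- T' is large
    have hTlo : κ * Real.log X / Cv ≤ T' := by
      rw [div_le_iff₀ (by linarith)]
      have h3 : κ ≤ T' * (Cv / Real.log X) := h1.trans (mul_le_mul_of_nonneg_left hVup hTr0)
      calc κ * Real.log X ≤ T' * (Cv / Real.log X) * Real.log X :=
            mul_le_mul_of_nonneg_right h3 hlX0.le
        _ = T' * Cv := by field_simp
    have hbig : (T0 : ℝ) + 2 + E ≤ T' := by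
      refine le_trans ?_ hTlo
      rw [le_div_iff₀ (by linarith)]
      have h4 : Cv / κ * (T0 + 2 + E) * κ ≤ Real.log X * κ :=
        mul_le_mul_of_nonneg_right hX4 hκ.le
      have h5 : Cv / κ * (T0 + 2 + E) * κ = ((T0 : ℝ) + 2 + E) * Cv := by field_simp
      linarith
    have hT0r : (0 : ℝ) ≤ T0 := Nat.cast_nonneg _
    have hT2 : 2 ≤ T' := by
      have : (2 : ℝ) ≤ T' := by linarith
      exact_mod_cast this
    have hT2r : (2 : ℝ) ≤ T' := by exact_mod_cast hT2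
    -- T' is small
    have hTup : (T' : ℝ) ≤ x1 / v * Real.log X ^ c := by
      have h3 : (T' : ℝ) * (v / Real.log X ^ c) ≤ x1 := (mul_le_mul_of_nonneg_left hVlow hTr0).trans h2
      rw [div_mul_eq_mul_div, le_div_iff₀ hv]
      have h4 := mul_le_mul_of_nonneg_right h3 (show 0 ≤ Real.log X ^ c by positivity)
      have h5 : (T' : ℝ) * (v / Real.log X ^ c) * Real.log X ^ c = T' * v := by field_simp
      linarith
    refine ⟨?_, ?_, ?_⟩
    · have : (T0 : ℝ) ≤ T' := by linarith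
      exact_mod_cast this
    · have h3 : ((T' ^ R0 : ℕ) : ℝ) ≤ Y := by
        push_cast
        calc (T' : ℝ) ^ R0 ≤ (x1 / v * Real.log X ^ c) ^ R0 := pow_le_pow_left₀ hTr0 hTup _
          _ = (x1 / v) ^ R0 * Real.log X ^ (c * R0) := by rw [mul_pow, pow_mul]
          _ ≤ ((x1 / v) ^ R0 + 1) * Real.log X ^ (c * R0) := by
            gcongr
            linarith
          _ ≤ (X : ℝ) ^ θ := hX5
          _ ≤ Y := hXY
      exact_mod_cast h3
    · intro t ht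
      rw [mem_Icc] at ht
      have htX : (t : ℝ) ≤ (X : ℝ) ^ δ := by
        calc (t : ℝ) ≤ T' := by exact_mod_cast ht.2
          _ ≤ x1 / v * Real.log X ^ c := hTup
          _ ≤ (x1 / v + 1) * Real.log X ^ c := by gcongr; linarith
          _ ≤ (X : ℝ) ^ δ := hX6
      obtain ⟨R, hR0, hRA, hRd⟩ := hres t ht.1 htX
      have h3 := card_primes_le ((pz y).filter (fun p : ℕ => T' < p ∧ CoG Q p t)) T' R hT2 hR0
        ((X : ℝ) ^ A) hRA (fun p hp => by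
          rw [mem_filter] at hp
          have hpp := (mem_pz.1 hp.1).2
          exact ⟨hpp, hp.2.1, hRd p hpp (by omega) hp.2.2⟩)
      rw [Real.log_rpow hXpos] at h3
      have hlT : A * Cv / (η' * κ) ≤ Real.log T' := by
        have h4 : E ≤ T' := by linarith
        have h5 := Real.log_le_log hE0 h4
        rwa [hE, Real.log_exp] at h5
      have hq : 0 < A * Cv / (η' * κ) := by positivity
      have hlT0 : 0 < Real.log T' := lt_of_lt_of_le hq hlT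
      -- `A log X ≤ η' T' log T'`
      have h6 : A * Real.log X ≤ η' * T' * Real.log T' := by
        calc A * Real.log X = η' * (κ * Real.log X / Cv) * (A * Cv / (η' * κ)) := by
              field_simp
          _ ≤ η' * T' * Real.log T' := by
              apply mul_le_mul _ hlT hq.le (by positivity)
              exact mul_le_mul_of_nonneg_left hTlo hη'.le
      have h7 : ((((pz y).filter (fun p : ℕ => T' < p ∧ CoG Q p t)).card : ℕ) : ℝ) * Real.log T' ≤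
          η' * T' * Real.log T' := h3.trans h6
      exact le_of_mul_le_mul_right h7 hlT0

end Pool.Agent.Y879.GL
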