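import Pool.Agent.TH464.PO.Gen
import Pool.Agent.TH464.PO.PolyExact
import Pool.Agent.TH464.PO.Ext

set_option autoImplicit false

/-!
# The gap laws for systems of polynomials, intervals with arbitrary starting points (after
`Pool.Agent.Y859.SP.GapPoly`)
-/

namespace Pool.Agent.Y879.GL

open Polynomial Finset Filter
open Pool.Agent.W123.RP Pool.Agent.H373R2.T7 Pool.Agent.W123.RU Pool.Agent.W123.RU.Poly
open Pool.Agent.TH464.PW Pool.Agent.TH464.PO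

variable {ι : Type} [Fintype ι]

open Classical in
/-- **The gap laws**, for systems of polynomials, in all intervals `(Z, Z + Y]`. -/
theorem gap_poly_Z [Nonempty ι] (f : ι → ℤ[X]) (hf : Sys f) (hT : NoTr f) (θ : ℝ) (hθ : 0 < θ)
    (k0 : ℕ) (x0 ε : ℝ) (hε : 0 < ε) :
    ∃ r0 : ℕ, ∀ r : ℕ, r0 ≤ r → ∀ᶠ X : ℕ in atTop, ∀ Z Y : ℕ, (X : ℝ) ^ θ ≤ Y →
      ∀ k T : ℕ, (k ≤ k0 ∨ T * Vq (Q f) ⌊(X : ℝ) ^ (1 / (r : ℝ))⌋₊ ≤ x0) →
        |(Pk (Sf (Q f) ⌊(X : ℝ) ^ (1 / (r : ℝ))⌋₊) k T Z Y : ℝ) -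
          Y * Vq (Q f) ⌊(X : ℝ) ^ (1 / (r : ℝ))⌋₊ * Ck k (T * Vq (Q f) ⌊(X : ℝ) ^ (1 / (r : ℝ))⌋₊)| ≤
          ε * (Y * Vq (Q f) ⌊(X : ℝ) ^ (1 / (r : ℝ))⌋₊) := by
  obtain ⟨c, hc, hQ⟩ := exists_c f hf
  obtain ⟨K0, y0, T0, R0, η', κ, x1, hη', hκ, hx1, hgap⟩ := gen_gap c hc k0 x0 ε hε
  obtain ⟨r0, h0⟩ := poly_sizes f hf hT θ hθ K0 y0 T0 R0 η' κ x1 hη' hκ hx1.le
  obtain ⟨v, Cv, hv, hCv, hV⟩ := V_bounds f hf
  obtain ⟨kk, hkk⟩ : ∃ k, k = Fintype.card ι := ⟨_, rfl⟩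
  rw [← hkk] at hV
  refine ⟨max r0 2, ?_⟩
  intro r hr
  have hr2 : 2 ≤ r := (le_max_right _ _).trans hr
  have hrr : (2 : ℝ) ≤ r := by exact_mod_cast hr2
  have hpow2 : Tendsto (fun X : ℕ => (X : ℝ) ^ (1 / (2 * r : ℝ))) atTop atTop :=
    (tendsto_rpow_atTop (by positivity)).comp tendsto_natCast_atTop_atTop
  obtain ⟨M, hM⟩ : ∃ M : ℝ, M = 1 / (κ * v) + (x1 / κ + 1) / v := ⟨_, rfl⟩
  have hM0 : 0 < M := by rw [hM]; positivity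
  filter_upwards [h0 r ((le_max_left _ _).trans hr), V_small f hf r hr2 κ hκ,
     hpow2.eventually_ge_atTop 3, eventually_ge_atTop 16,
     logpow_rpow kk M (θ / 2) hM0 (by positivity)] with X hX hVκ hX1 hX16 hX4
  intro Z Y hXY k T hkT
  obtain ⟨hy1, hy2, hy3, hy4⟩ := level_low r hr2 X (by omega) (by linarith)
  obtain ⟨y, hy⟩ : ∃ y, y = ⌊(X : ℝ) ^ (1 / (r : ℝ))⌋₊ := ⟨_, rfl⟩
  obtain ⟨a1, a2, a3⟩ := hX Y hXY y hy
  rw [← hy] at hy1 hy2 hy3 hy4 hVκ hkT ⊢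
  have hX16r : (16 : ℝ) ≤ X := by exact_mod_cast hX16
  have hXpos : (0 : ℝ) < X := by linarith
  have hy3' : 3 ≤ y := by
    have : (3 : ℝ) ≤ y := by linarith
    exact_mod_cast this
  have hlogy : 0 < Real.log y := Real.log_pos (by
    have : (3 : ℝ) ≤ y := by exact_mod_cast hy3'
    linarith)
  have hlogX : 0 < Real.log X := lt_of_lt_of_le hlogy hy3
  obtain ⟨L, hL⟩ : ∃ L : ℝ, L = Real.log X ^ kk := ⟨_, rfl⟩
  have hL0 : 0 < L := by rw [hL]; positivity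
  rw [← hL] at hX4
  have hVlow : v / L ≤ Vq (Q f) y := by
    refine le_trans ?_ (hV y hy3').1
    rw [hL]
    apply div_le_div_of_nonneg_left hv.le (by positivity)
    exact pow_le_pow_left₀ hlogy.le hy3 kk
  have hVpos : 0 < Vq (Q f) y := lt_of_lt_of_le (by positivity) hVlow
  have hsY : (X : ℝ) ^ (θ / 2) ≤ √(Y : ℝ) := by
    apply Real.le_sqrt_of_sq_le
    refine le_trans (le_of_eq ?_) hXY
    rw [← Real.rpow_natCast, ← Real.rpow_mul hXpos.le]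
    congr 1
    push_cast
    ring
  have hsY2 : M * L ≤ √(Y : ℝ) := hX4.trans hsY
  have hs0 : 0 < √(Y : ℝ) := lt_of_lt_of_le (by positivity) hsY2
  have hsq : √(Y : ℝ) * √(Y : ℝ) = Y := Real.mul_self_sqrt (Nat.cast_nonneg Y)
  have hMv : M * v ≤ √(Y : ℝ) * Vq (Q f) y := by
    calc M * v = (M * L) * (v / L) := by field_simp
      _ ≤ √(Y : ℝ) * Vq (Q f) y := mul_le_mul hsY2 hVlow (by positivity) hs0.le
  have hMv2 : M * v = 1 / κ + (x1 / κ + 1) := by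
    rw [hM]
    field_simp
  rw [hMv2] at hMv
  have hx1κ : 0 < x1 / κ := by positivity
  have hκ1 : 0 < 1 / κ := by positivity
  refine hgap (Q f) Z Y y hQ (fun p hp => Poly.adm f hf p hp) a1 a2 hVκ ?_ ?_ a3 k T hkT
  · have h1 : 1 / κ ≤ √(Y : ℝ) * Vq (Q f) y := by linarith
    rw [div_le_iff₀ hκ] at h1
    calc √(Y : ℝ) = √(Y : ℝ) * 1 := (mul_one _).symm
      _ ≤ √(Y : ℝ) * (√(Y : ℝ) * Vq (Q f) y * κ) := mul_le_mul_of_nonneg_left h1 hs0.le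
      _ = κ * ((√(Y : ℝ) * √(Y : ℝ)) * Vq (Q f) y) := by ring
      _ = κ * (Y * Vq (Q f) y) := by rw [hsq]
  · have h1 : x1 / κ ≤ (√(Y : ℝ) * Vq (Q f) y) ^ 2 := by nlinarith
    rw [div_le_iff₀ hVpos]
    rw [div_le_iff₀ hκ] at h1
    calc x1 ≤ (√(Y : ℝ) * Vq (Q f) y) ^ 2 * κ := h1
      _ = κ * ((√(Y : ℝ) * √(Y : ℝ)) * Vq (Q f) y) * Vq (Q f) y := by ring
      _ = κ * (Y * Vq (Q f) y) * Vq (Q f) y := by rw [hsq]

end Pool.Agent.Y879.GL
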