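import Pool.Agent.Y879.GL.HerAbs
import Pool.Agent.Y879.GL.Assoc

set_option autoImplicit false

/-!
# Regular points: systems of polynomials whose coefficients are bounded by a power of `X`
-/

namespace Pool.Agent.Y879.GL

open Polynomial Finset Filter
open Pool.Agent.W123.RP Pool.Agent.H373R2.T7 Pool.Agent.W123.RU Pool.Agent.W123.RU.Poly
open Pool.Agent.W123.GS Pool.Agent.W123.PP Pool.Agent.TH464.PW Pool.Agent.TH464.PO
open Pool.Agent.TH977.PW (N)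

lemma pow_le_lin (x : ℝ) (n : ℕ) (h0 : 0 ≤ x) (h1 : x ≤ 1) (h : n * x ≤ 1) :
    (1 - x) ^ n ≤ 1 - n * x / 2 := by
  have h2 : (1 - x) ^ n * (1 + n * x) ≤ 1 := by
    have h3 : 1 + n * x ≤ (1 + x) ^ n := one_add_mul_le_pow (by linarith) n
    calc (1 - x) ^ n * (1 + n * x) ≤ (1 - x) ^ n * (1 + x) ^ n :=
          mul_le_mul_of_nonneg_left h3 (pow_nonneg (by linarith) _)
      _ = (1 - x ^ 2) ^ n := by rw [← mul_pow]; ring
      _ ≤ 1 := pow_le_one₀ (by nlinarith) (by nlinarith)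
  have h4 : 0 ≤ n * x := by positivity
  by_contra hcon
  rw [not_le] at hcon
  have h5 : (1 - n * x / 2) * (1 + n * x) < (1 - x) ^ n * (1 + n * x) :=
    mul_lt_mul_of_pos_right hcon (by linarith)
  nlinarith

/-- the densities at two levels -/
lemma Vq_ratio (c : ℕ) : ∃ C : ℝ, 0 < C ∧ ∀ Q : ℕ → ℕ → Prop, PerB Q c →
    (∀ p : ℕ, p.Prime → nuB Q p < p) → ∀ y y' : ℕ, 2 * c + 2 ≤ y → y ≤ y' →
      Vq Q y ≤ C * (Real.log y' / Real.log y) ^ (2 * c) * Vq Q y' := by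
  obtain ⟨a, b, ha, hb, hV⟩ := Vz_bounds
  refine ⟨(b / a) ^ (2 * c), by positivity, ?_⟩
  intro Q hQ hadm y y' hy hyy
  have hsub : pz y ⊆ pz y' := by
    intro p hp
    rw [mem_pz] at hp ⊢
    exact ⟨hp.1.trans hyy, hp.2⟩
  obtain ⟨a1, a2⟩ := hV y (by omega)
  obtain ⟨b1, b2⟩ := hV y' (by omega)
  have hly : 0 < Real.log y := Real.log_pos (by exact_mod_cast (by omega : 1 < y))
  have hly' : 0 < Real.log y' := Real.log_pos (by exact_mod_cast (by omega : 1 < y'))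
  have hVz : 0 < Vz y := lt_of_lt_of_le (by positivity) a1
  have hVz' : 0 < Vz y' := lt_of_lt_of_le (by positivity) b1
  have hVq' : 0 < Vq Q y' := Vq_pos Q hadm y'
  have hVq : 0 < Vq Q y := Vq_pos Q hadm y
  have e1 : (∏ p ∈ pz y' \ pz y, (1 - (nuB Q p : ℝ) / p)) * Vq Q y = Vq Q y' :=
    Finset.prod_sdiff hsub
  have e2 : (∏ p ∈ pz y' \ pz y, (1 - 1 / (p : ℝ))) * Vz y = Vz y' := Finset.prod_sdiff hsub
  have hle : (∏ p ∈ pz y' \ pz y, (1 - 1 / (p : ℝ))) ^ (2 * c) ≤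
      ∏ p ∈ pz y' \ pz y, (1 - (nuB Q p : ℝ) / p) := by
    rw [← Finset.prod_pow]
    apply Finset.prod_le_prod
    · intro p hp
      rw [Finset.mem_sdiff, mem_pz] at hp
      have h2 : (2 : ℝ) ≤ p := by exact_mod_cast hp.1.2.two_le
      have : 1 / (p : ℝ) ≤ 1 / 2 := one_div_le_one_div_of_le (by norm_num) h2
      exact pow_nonneg (by linarith) _
    · intro p hp
      rw [Finset.mem_sdiff, mem_pz, mem_pz] at hp
      have hyp : y < p := by
        by_contra h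
        exact hp.2 ⟨not_lt.1 h, hp.1.2⟩
      have hp0 : (0 : ℝ) < p := by exact_mod_cast hp.1.2.pos
      have hp1 : (1 : ℝ) ≤ p := by exact_mod_cast hp.1.2.one_lt.le
      have h3 : (((2 * c : ℕ)) : ℝ) * (1 / p) ≤ 1 := by
        rw [mul_one_div, div_le_one hp0]
        exact_mod_cast (by omega : 2 * c ≤ p)
      have h4 := pow_le_lin (1 / (p : ℝ)) (2 * c) (by positivity) (by
        rw [div_le_one hp0]
        exact hp1) h3
      refine h4.trans ?_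
      have h5 : (nuB Q p : ℝ) ≤ c := by exact_mod_cast hQ.few p hp.1.2
      have h6 : (nuB Q p : ℝ) / p ≤ c / p := by gcongr
      have h7 : (((2 * c : ℕ)) : ℝ) * (1 / p) / 2 = c / p := by
        push_cast
        field_simp
      rw [h7]
      linarith
  have hq : a / b * (Real.log y / Real.log y') ≤ ∏ p ∈ pz y' \ pz y, (1 - 1 / (p : ℝ)) := by
    have h8 : a / b * (Real.log y / Real.log y') * Vz y ≤ Vz y' := by
      calc a / b * (Real.log y / Real.log y') * Vz y ≤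
            a / b * (Real.log y / Real.log y') * (b / Real.log y) :=
            mul_le_mul_of_nonneg_left a2 (by positivity)
        _ = a / Real.log y' := by field_simp
        _ ≤ Vz y' := b1
    rw [← e2] at h8
    exact le_of_mul_le_mul_right h8 hVz
  have h9 : (a / b * (Real.log y / Real.log y')) ^ (2 * c) * Vq Q y ≤ Vq Q y' := by
    rw [← e1]
    apply mul_le_mul_of_nonneg_right _ hVq.le
    exact (pow_le_pow_left₀ (by positivity) hq _).trans hle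
  have h10 : (a / b * (Real.log y / Real.log y')) ^ (2 * c) *
      ((b / a) ^ (2 * c) * (Real.log y' / Real.log y) ^ (2 * c)) = 1 := by
    rw [← mul_pow, ← mul_pow]
    have : a / b * (Real.log y / Real.log y') * (b / a * (Real.log y' / Real.log y)) = 1 := by
      field_simp
    rw [this, one_pow]
  calc Vq Q y = ((a / b * (Real.log y / Real.log y')) ^ (2 * c) *
        ((b / a) ^ (2 * c) * (Real.log y' / Real.log y) ^ (2 * c))) * Vq Q y := by rw [h10, one_mul]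
    _ = ((b / a) ^ (2 * c) * (Real.log y' / Real.log y) ^ (2 * c)) *
        ((a / b * (Real.log y / Real.log y')) ^ (2 * c) * Vq Q y) := by ring
    _ ≤ ((b / a) ^ (2 * c) * (Real.log y' / Real.log y) ^ (2 * c)) * Vq Q y' :=
        mul_le_mul_of_nonneg_left h9 (by positivity)

lemma RR_le' {k D : ℕ} {H U0 : ℝ} {f : Fin k → ℤ[X]} (h : US k D H U0 f) (hH : 1 ≤ H) (U : ℝ) (t : ℕ)
    (ht : 1 ≤ t) (htU : (t : ℝ) ≤ U) :
    (RR f t : ℝ) ≤ (((2 * D).factorial : ℝ) * ((D + 1) * (H * (U ^ D * 2 ^ D))) ^ (2 * D)) ^ (k * k) := by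
  have hU1 : (1 : ℝ) ≤ U := le_trans (by exact_mod_cast ht) htU
  obtain ⟨a, ha⟩ : ∃ a : ℤ, a = ⌊H⌋ := ⟨_, rfl⟩
  have haH : (a : ℝ) ≤ H := by rw [ha]; exact Int.floor_le H
  have ha1 : 1 ≤ a := by
    rw [ha]
    exact Int.le_floor.2 (by exact_mod_cast hH)
  have hco : ∀ i n, |(f i).coeff n| ≤ a := by
    intro i n
    rw [ha]
    apply Int.le_floor.2
    push_cast
    exact h.hgt i n
  obtain ⟨b, hb⟩ : ∃ b : ℤ, b = (D + 1) * (a * (t ^ D * 2 ^ D)) := ⟨_, rfl⟩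
  have ht' : (1 : ℤ) ≤ t := by exact_mod_cast ht
  have hfac1 : (1 : ℤ) ≤ (D + 1) * (t ^ D * 2 ^ D) := by
    have h1 : (1 : ℤ) ≤ (t : ℤ) ^ D := one_le_pow₀ ht'
    have h2 : (1 : ℤ) ≤ (2 : ℤ) ^ D := one_le_pow₀ (by norm_num)
    have h3 : (1 : ℤ) ≤ (D : ℤ) + 1 := by omega
    have h4 : (1 : ℤ) ≤ (t : ℤ) ^ D * 2 ^ D := one_le_mul_of_one_le_of_one_le h1 h2
    exact one_le_mul_of_one_le_of_one_le h3 h4
  have hab : a ≤ b := by
    rw [hb]
    calc a = a * 1 := (mul_one a).symm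
      _ ≤ a * ((D + 1) * (t ^ D * 2 ^ D)) := mul_le_mul_of_nonneg_left hfac1 (by omega)
      _ = _ := by ring
  have hb1 : 1 ≤ b := by omega
  have hbR : (b : ℝ) ≤ (D + 1) * (H * (U ^ D * 2 ^ D)) := by
    rw [hb]
    push_cast
    have h0 : (0 : ℝ) ≤ a := by exact_mod_cast (by omega : (0 : ℤ) ≤ a)
    gcongr
  have hres : ∀ i j, ((resultant (f i) ((f j).comp (X + C (t : ℤ)))).natAbs : ℝ) ≤
      ((2 * D).factorial : ℝ) * ((D + 1) * (H * (U ^ D * 2 ^ D))) ^ (2 * D) := by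
    intro i j
    have h1 := res_bound (f i) ((f j).comp (X + C (t : ℤ))) (f i).natDegree
      ((f j).comp (X + C (t : ℤ))).natDegree b (fun n => (hco i n).trans hab)
      (fun n => by
        rw [hb]
        exact coeff_shift (f j) D (h.degD j) a (hco j) t ht n)
    rw [deg_shift] at h1
    have hdeg : (f i).natDegree + (f j).natDegree ≤ 2 * D := by
      have := h.degD i
      have := h.degD j
      omega
    have h2 : ((f i).natDegree + (f j).natDegree).factorial * b ^ ((f i).natDegree + (f j).natDegree) ≤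
        ((2 * D).factorial : ℤ) * b ^ (2 * D) := by
      apply mul_le_mul
      · exact_mod_cast Nat.factorial_le hdeg
      · exact pow_le_pow_right₀ hb1 hdeg
      · positivity
      · positivity
    have h3 := h1.trans h2
    have h4 : ((resultant (f i) ((f j).comp (X + C (t : ℤ)))).natAbs : ℝ) =
        ((|resultant (f i) ((f j).comp (X + C (t : ℤ))) (f i).natDegree (f j).natDegree| : ℤ) : ℝ) := by
      rw [deg_shift, Nat.cast_natAbs]
    rw [h4]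
    have h5 : ((|resultant (f i) ((f j).comp (X + C (t : ℤ))) (f i).natDegree (f j).natDegree| : ℤ) : ℝ) ≤
        (((2 * D).factorial : ℤ) * b ^ (2 * D) : ℤ) := by exact_mod_cast h3
    refine h5.trans ?_
    push_cast
    have hb0 : (0 : ℝ) ≤ b := by exact_mod_cast (by omega : (0 : ℤ) ≤ b)
    gcongr
  unfold RR
  push_cast
  calc ∏ i, ∏ j, ((resultant (f i) ((f j).comp (X + C (t : ℤ)))).natAbs : ℝ)
      ≤ ∏ _i : Fin k, ∏ _j : Fin k,
        (((2 * D).factorial : ℝ) * ((D + 1) * (H * (U ^ D * 2 ^ D))) ^ (2 * D)) := by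
        apply Finset.prod_le_prod
        · intro i _
          exact Finset.prod_nonneg fun j _ => Nat.cast_nonneg _
        · intro i _
          apply Finset.prod_le_prod
          · intro j _
            exact Nat.cast_nonneg _
          · intro j _
            exact hres i j
    _ = _ := by
        rw [Finset.prod_const, Finset.prod_const, Finset.card_univ, Fintype.card_fin, ← pow_mul]

lemma RR_ev (k D : ℕ) (E δ : ℝ) (hE : 0 < E) (hδ : 0 < δ) : ∃ A : ℝ, 0 < A ∧ ∀ᶠ X : ℕ in atTop,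
    ∀ (f : Fin k → ℤ[X]) (U0 : ℝ), US k D ((X : ℝ) ^ E) U0 f → ∀ t : ℕ, 1 ≤ t →
      (t : ℝ) ≤ (X : ℝ) ^ δ → (RR f t : ℝ) ≤ (X : ℝ) ^ A := by
  obtain ⟨A1, hA1⟩ : ∃ A1 : ℝ, A1 = 1 + 2 * D * (E + δ * D + 1) := ⟨_, rfl⟩
  have hA10 : 0 < A1 := by rw [hA1]; positivity
  obtain ⟨A, hA⟩ : ∃ A : ℝ, A = A1 * (k * k) + 1 := ⟨_, rfl⟩
  have hA0 : 0 < A := by rw [hA]; positivity
  refine ⟨A, hA0, ?_⟩
  filter_upwards [eventually_ge_atTop (((2 * D).factorial + (D + 1) * 2 ^ D + 1))] with X hXb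
  intro f U0 hf t ht htU
  have hXr : (((2 * D).factorial + (D + 1) * 2 ^ D + 1 : ℕ) : ℝ) ≤ X := by exact_mod_cast hXb
  push_cast at hXr
  have hf0 : (0 : ℝ) ≤ ((2 * D).factorial : ℝ) := Nat.cast_nonneg _
  have hd0 : (0 : ℝ) ≤ ((D : ℝ) + 1) * 2 ^ D := by positivity
  have hX1 : (1 : ℝ) ≤ X := by linarith
  have hX0 : (0 : ℝ) < X := by linarith
  refine (RR_le' hf (Real.one_le_rpow hX1 hE.le) _ t ht htU).trans ?_
  have h1 : ((D : ℝ) + 1) * ((X : ℝ) ^ E * (((X : ℝ) ^ δ) ^ D * 2 ^ D)) ≤ (X : ℝ) ^ (E + δ * D + 1) := by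
    calc ((D : ℝ) + 1) * ((X : ℝ) ^ E * (((X : ℝ) ^ δ) ^ D * 2 ^ D)) =
          (((D : ℝ) + 1) * 2 ^ D) * ((X : ℝ) ^ E * ((X : ℝ) ^ δ) ^ D) := by ring
      _ ≤ X * ((X : ℝ) ^ E * ((X : ℝ) ^ δ) ^ D) := by
          apply mul_le_mul_of_nonneg_right (by linarith) (by positivity)
      _ = (X : ℝ) ^ (E + δ * D + 1) := by
          rw [← Real.rpow_natCast ((X : ℝ) ^ δ), ← Real.rpow_mul hX0.le, ← Real.rpow_add hX0,
            Real.rpow_add hX0 (E + δ * D) 1, Real.rpow_one]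
          ring
  have h2 : ((2 * D).factorial : ℝ) * (((D : ℝ) + 1) * ((X : ℝ) ^ E * (((X : ℝ) ^ δ) ^ D * 2 ^ D))) ^ (2 * D) ≤
      (X : ℝ) ^ A1 := by
    calc ((2 * D).factorial : ℝ) * (((D : ℝ) + 1) * ((X : ℝ) ^ E * (((X : ℝ) ^ δ) ^ D * 2 ^ D))) ^ (2 * D)
        ≤ X * ((X : ℝ) ^ (E + δ * D + 1)) ^ (2 * D) := by
          apply mul_le_mul (by linarith) _ (by positivity) hX0.le
          exact pow_le_pow_left₀ (by positivity) h1 _
      _ = (X : ℝ) ^ A1 := by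
          rw [← Real.rpow_natCast, ← Real.rpow_mul hX0.le, hA1]
          nth_rewrite 1 [← Real.rpow_one (X : ℝ)]
          rw [← Real.rpow_add hX0]
          congr 1
          push_cast
          ring
  calc _ ≤ ((X : ℝ) ^ A1) ^ (k * k) := pow_le_pow_left₀ (by positivity) h2 _
    _ = (X : ℝ) ^ (A1 * (k * k)) := by
        rw [← Real.rpow_natCast, ← Real.rpow_mul hX0.le]
        push_cast
        rfl
    _ ≤ (X : ℝ) ^ A := Real.rpow_le_rpow_of_exponent_le hX1 (by rw [hA]; linarith)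

/-- no two polynomials of the system are associated translates, up to exceptional shifts -/
def NoAs {k : ℕ} (f : Fin k → ℤ[X]) (E0 : Finset ℕ) (U : ℝ) : Prop :=
  ∀ i j, ∀ t : ℕ, 1 ≤ t → (t : ℝ) ≤ U → t ∉ E0 → ¬ Associated (f i) ((f j).comp (X + C (t : ℤ)))

lemma RR_pos' {k D : ℕ} {H U0 : ℝ} {f : Fin k → ℤ[X]} (h : US k D H U0 f) (E0 : Finset ℕ) (U : ℝ)
    (hno : NoAs f E0 U) (t : ℕ) (ht : 1 ≤ t) (htU : (t : ℝ) ≤ U) (htE : t ∉ E0) : 0 < RR f t := by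
  unfold RR
  apply Finset.prod_pos
  intro i _
  apply Finset.prod_pos
  intro j _
  rw [Int.natAbs_pos]
  exact res_ne_zero _ _ (h.irr i) (irr_shift _ (h.irr j) _) (h.deg i)
    (by rw [deg_shift]; exact h.deg j) (hno i j t ht htU htE)

open Classical in
/-- **Regular points, uniformly in the systems of polynomials.** -/
theorem hered_polys (k D e : ℕ) (E δ' θ : ℝ) (hE : 0 < E) (hδ' : 0 < δ') (hθ : 0 < θ) :
    ∃ r0 : ℕ, 2 ≤ r0 ∧ ∀ r : ℕ, r0 ≤ r → ∀ Cv : ℝ, 0 < Cv → ∀ ε : ℝ, 0 < ε → ∃ cc : ℝ, 0 < cc ∧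
      ∀ δ : ℝ, 0 < δ → ∃ B : ℕ, ∀ᶠ X : ℕ in atTop, ∀ f : Fin k → ℤ[X], US k D ((X : ℝ) ^ E) 0 f →
      ∀ E0 : Finset ℕ, E0.card ≤ e → NoAs f E0 ((X : ℝ) ^ δ') →
      Vq (Q f) ⌊(X : ℝ) ^ (1 / (r : ℝ))⌋₊ ≤ Cv / Real.log X →
      ∀ u Y : ℕ, (X : ℝ) ^ θ ≤ Y → Y ≤ X → Y ≤ u →
      ∀ A : Set ℕ, (∀ m ∈ A, Sf (Q f) ⌊(X : ℝ) ^ (1 / (r : ℝ))⌋₊ m) →
        (N (Irr A (1 / Vq (Q f) ⌊(X : ℝ) ^ (1 / (r : ℝ))⌋₊) cc δ B Y) u (u + Y) : ℝ) ≤
          ε * (Y * Vq (Q f) ⌊(X : ℝ) ^ (1 / (r : ℝ))⌋₊) := by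
  obtain ⟨K0, hK0, hab⟩ := hered_abs (k * D + 1) e 1 (by omega)
  refine ⟨K0, hK0, ?_⟩
  intro r hr Cv hCv ε hε
  have hr2 : 2 ≤ r := hK0.trans hr
  have hrr : (2 : ℝ) ≤ r := by exact_mod_cast hr2
  have hrpos : (0 : ℝ) < r := by linarith
  obtain ⟨c, hc⟩ : ∃ c, c = k * D + 1 := ⟨_, rfl⟩
  rw [← hc] at hab
  obtain ⟨Cr, hCr, hratio⟩ := Vq_ratio c
  obtain ⟨C3, hC3⟩ : ∃ C3 : ℝ, C3 = Cr * (2 * r / θ) ^ (2 * c) := ⟨_, rfl⟩
  have hC30 : 0 < C3 := by rw [hC3]; positivity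
  obtain ⟨cc, hcc, h⟩ := hab r hr C3 hC30 ε hε
  refine ⟨cc, hcc, fun δ hδ => ?_⟩
  obtain ⟨B, L0, hev⟩ := h δ hδ
  have hpowr : Tendsto (fun Y : ℕ => (Y : ℝ) ^ (1 / (r : ℝ))) atTop atTop :=
    (tendsto_rpow_atTop (by positivity)).comp tendsto_natCast_atTop_atTop
  obtain ⟨Y1, hY1⟩ := eventually_atTop.1 (hev.and ((level_ok r hr2).and
    (hpowr.eventually_ge_atTop ((2 * c + 2 : ℕ) : ℝ))))
  refine ⟨B, ?_⟩
  obtain ⟨v, hv, hVlow⟩ := V_low_log c r hr2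
  obtain ⟨A, hA, hRR⟩ := RR_ev k D E δ' hE hδ'
  have hlogX : Tendsto (fun X : ℕ => Real.log (X : ℝ)) atTop atTop :=
    Real.tendsto_log_atTop.comp tendsto_natCast_atTop_atTop
  have hpowθ : Tendsto (fun X : ℕ => (X : ℝ) ^ θ) atTop atTop :=
    (tendsto_rpow_atTop hθ).comp tendsto_natCast_atTop_atTop
  obtain ⟨G, hG⟩ : ∃ G : ℝ, G = Real.exp (2 * A * Cv) + 2 := ⟨_, rfl⟩
  have hG0 : 0 < G := by rw [hG]; positivity
  filter_upwards [hpowθ.eventually_ge_atTop ((Y1 : ℝ) + 1), level_ok r hr2, hVlow, hRR,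
    hlogX.eventually_ge_atTop (Cv * |L0|), hlogX.eventually_ge_atTop (2 * Cv * G),
    logpow_rpow (8 * c) (1 / v ^ 8) θ (by positivity) hθ,
    logpow_rpow c (1 / v) δ' (by positivity) hδ', eventually_ge_atTop 3] with X hX1 hX2 hX3 hX4 hX5
    hX6 hX7 hX8 hX9
  intro f hf E0 hE0 hno hVup u Y hXY hYX hYu A' hA'
  obtain ⟨V, hVdef⟩ : ∃ V, V = Vq (Q f) ⌊(X : ℝ) ^ (1 / (r : ℝ))⌋₊ := ⟨_, rfl⟩
  have hperB : PerB (Q f) c := by rw [hc]; exact us_perB hf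
  have hadm := us_adm hf
  have hVlo := hX3 (Q f) hperB hadm
  have hVpos : 0 < Vq (Q f) ⌊(X : ℝ) ^ (1 / (r : ℝ))⌋₊ := Vq_pos (Q f) hadm _
  rw [← hVdef] at hVup hVlo hVpos ⊢
  have hXr : (3 : ℝ) ≤ X := by exact_mod_cast hX9
  have hX0 : (0 : ℝ) < X := by linarith
  have hX1r : (1 : ℝ) ≤ X := by linarith
  have hlX : 0 < Real.log X := Real.log_pos (by linarith)
  have hLlow : Real.log X / Cv ≤ 1 / V := by
    rw [div_le_div_iff₀ hCv hVpos]
    rw [le_div_iff₀ hlX] at hVup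
    linarith
  have hLup : 1 / V ≤ 1 / v * Real.log X ^ c := by
    rw [div_mul_eq_mul_div, one_mul, div_le_div_iff₀ hVpos hv, one_mul]
    rw [div_le_iff₀ (by positivity)] at hVlo
    linarith
  have hY1' : Y1 ≤ Y := by
    have : (Y1 : ℝ) ≤ Y := by linarith
    exact_mod_cast this
  obtain ⟨hY2, hY3, hY4⟩ := hY1 Y hY1'
  obtain ⟨g1, g2, g3, g4, g5⟩ := hY3
  have hYpos : (0 : ℝ) < Y := lt_of_lt_of_le (by positivity) hXY
  have hYXr : (Y : ℝ) ≤ X := by exact_mod_cast hYX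
  have hLfl : (⌊1 / V⌋₊ : ℝ) ≤ 1 / V := Nat.floor_le (by positivity)
  have hLfl2 : 1 / V < ⌊1 / V⌋₊ + 1 := Nat.lt_floor_add_one _
  -- the floor of `L` is large
  have hT1 : Real.log X / (2 * Cv) ≤ ⌊1 / V⌋₊ := by
    have h5 : Real.log X / Cv = Real.log X / (2 * Cv) + Real.log X / (2 * Cv) := by
      field_simp
      norm_num
    have h6 : 1 ≤ Real.log X / (2 * Cv) := by
      rw [le_div_iff₀ (by positivity)]
      have : 1 ≤ G := by
        rw [hG]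
        have := Real.exp_pos (2 * A * Cv)
        linarith
      nlinarith
    linarith
  have hT2 : G ≤ ⌊1 / V⌋₊ := by
    refine le_trans ?_ hT1
    rw [le_div_iff₀ (by positivity)]
    linarith
  have hT3 : 2 ≤ ⌊1 / V⌋₊ := by
    have h5 : (2 : ℝ) ≤ ⌊1 / V⌋₊ := by
      have := Real.exp_pos (2 * A * Cv)
      linarith
    exact_mod_cast h5
  have hT4 : 2 * A * Cv ≤ Real.log ⌊1 / V⌋₊ := by
    have h5 : Real.exp (2 * A * Cv) ≤ ⌊1 / V⌋₊ := by linarith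
    have h6 := Real.log_le_log (Real.exp_pos _) h5
    rwa [Real.log_exp] at h6
  have hfin := hY2 (Q f) (1 / V) E0 u hperB hadm (by
      -- L0 ≤ L
      refine le_trans (le_abs_self L0) (le_trans ?_ hLlow)
      rw [le_div_iff₀ hCv]
      linarith) (by
      -- L ^ 8 ≤ Y
      refine le_trans ?_ (hX7.trans hXY)
      calc (1 / V) ^ 8 ≤ (1 / v * Real.log X ^ c) ^ 8 := pow_le_pow_left₀ (by positivity) hLup 8
        _ = 1 / v ^ 8 * Real.log X ^ (8 * c) := by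
          rw [mul_pow, div_pow, one_pow, ← pow_mul, mul_comm c 8]) hYu (by
      -- the density at the lower level
      have hlev : ⌊(Y : ℝ) ^ (1 / (r : ℝ))⌋₊ ≤ ⌊(X : ℝ) ^ (1 / (r : ℝ))⌋₊ :=
        Nat.floor_le_floor (Real.rpow_le_rpow hYpos.le hYXr (by positivity))
      have h5 := hratio (Q f) hperB hadm ⌊(Y : ℝ) ^ (1 / (r : ℝ))⌋₊ ⌊(X : ℝ) ^ (1 / (r : ℝ))⌋₊
        (Nat.le_floor hY4) hlev
      rw [← hVdef] at h5
      refine h5.trans ?_
      have h6 : θ * Real.log X ≤ Real.log Y := by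
        rw [← Real.log_rpow hX0]
        exact Real.log_le_log (by positivity) hXY
      have h7 : θ * Real.log X / (2 * r) ≤ Real.log ⌊(Y : ℝ) ^ (1 / (r : ℝ))⌋₊ := by
        refine le_trans ?_ g2
        gcongr
      have h8 : 0 < Real.log ⌊(Y : ℝ) ^ (1 / (r : ℝ))⌋₊ := by linarith
      have h9 : Real.log ⌊(X : ℝ) ^ (1 / (r : ℝ))⌋₊ / Real.log ⌊(Y : ℝ) ^ (1 / (r : ℝ))⌋₊ ≤
          2 * r / θ := by
        rw [div_le_div_iff₀ h8 hθ]
        rw [div_le_iff₀ (by positivity)] at h7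
        have := hX2.2.2.1
        nlinarith
      have h10 : 0 ≤ Real.log ⌊(X : ℝ) ^ (1 / (r : ℝ))⌋₊ / Real.log ⌊(Y : ℝ) ^ (1 / (r : ℝ))⌋₊ :=
        div_nonneg (by linarith [hX2.2.2.2.1]) h8.le
      rw [hC3, div_div_eq_mul_div, div_one]
      apply mul_le_mul_of_nonneg_right _ hVpos.le
      apply mul_le_mul_of_nonneg_left _ hCr.le
      exact pow_le_pow_left₀ h10 h9 _) hE0 (by
      -- few large primes
      intro t ht htE
      rw [mem_Icc] at ht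
      have htU : (t : ℝ) ≤ (X : ℝ) ^ δ' := by
        calc (t : ℝ) ≤ ⌊1 / V⌋₊ := by exact_mod_cast ht.2
          _ ≤ 1 / V := hLfl
          _ ≤ 1 / v * Real.log X ^ c := hLup
          _ ≤ (X : ℝ) ^ δ' := hX8
      have h5 := card_primes_le ((pz ⌊(Y : ℝ) ^ (1 / (r : ℝ))⌋₊).filter
        (fun p : ℕ => ⌊1 / V⌋₊ < p ∧ CoG (Q f) p t)) ⌊1 / V⌋₊ (RR f t) hT3
        (RR_pos' hf E0 _ hno t ht.1 htU htE) ((X : ℝ) ^ A) (hX4 f 0 hf t ht.1 htU) (fun p hp => by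
          rw [mem_filter] at hp
          exact ⟨(mem_pz.1 hp.1).2, hp.2.1, RR_dvd hf t p hp.2.2⟩)
      rw [Real.log_rpow hX0] at h5
      have hlT0 : 0 < Real.log ⌊1 / V⌋₊ := lt_of_lt_of_le (by positivity) hT4
      have h6 : A * Real.log X ≤ ⌊1 / V⌋₊ * Real.log ⌊1 / V⌋₊ := by
        calc A * Real.log X = Real.log X / (2 * Cv) * (2 * A * Cv) := by field_simp
          _ ≤ ⌊1 / V⌋₊ * Real.log ⌊1 / V⌋₊ :=
            mul_le_mul hT1 hT4 (by positivity) (Nat.cast_nonneg _)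
      have h7 : ((((pz ⌊(Y : ℝ) ^ (1 / (r : ℝ))⌋₊).filter
        (fun p : ℕ => ⌊1 / V⌋₊ < p ∧ CoG (Q f) p t)).card : ℕ) : ℝ) ≤ ⌊1 / V⌋₊ :=
        le_of_mul_le_mul_right (h5.trans h6) hlT0
      rw [one_mul]
      exact_mod_cast h7) A' (by
      intro m hm p hp hq
      rw [mem_pz] at hp
      exact hA' m hm p (mem_pz.2 ⟨hp.1.trans (Nat.floor_le_floor
        (Real.rpow_le_rpow hYpos.le hYXr (by positivity))), hp.2⟩) hq)
  refine hfin.trans (le_of_eq ?_)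
  field_simp

end Pool.Agent.Y879.GL
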