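import Pool.Agent.Y879.GL.HerPoly

set_option autoImplicit false

/-!
# Systems of linear forms with large coefficients
-/

namespace Pool.Agent.Y879.GL

open Polynomial Finset Filter
open Pool.Agent.W123.RP Pool.Agent.H373R2.T7 Pool.Agent.W123.RU Pool.Agent.W123.RU.Poly
open Pool.Agent.TH464.PW Pool.Agent.TH464.PO

/-- the linear form `a x + b` -/
noncomputable def lf (a b : ℤ) : ℤ[X] := C a * X + C b

lemma lf_eval (a b x : ℤ) : (lf a b).eval x = a * x + b := by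
  unfold lf
  simp

lemma lf_coeff (a b : ℤ) (n : ℕ) : (lf a b).coeff n = if n = 0 then b else if n = 1 then a else 0 := by
  unfold lf
  rw [coeff_add, coeff_C_mul, coeff_X, coeff_C]
  by_cases h0 : n = 0
  · simp [h0]
  · by_cases h1 : n = 1
    · simp [h1]
    · rw [if_neg (fun h => h1 h.symm), if_neg h0, if_neg h0, if_neg h1]
      simp

lemma lf_deg (a b : ℤ) (ha : a ≠ 0) : (lf a b).natDegree = 1 := by
  unfold lf
  exact natDegree_linear ha

lemma lf_prim (a b : ℤ) (hab : IsCoprime a b) : (lf a b).IsPrimitive := by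
  intro r hr
  rw [C_dvd_iff_dvd_coeff] at hr
  have h0 := hr 0
  have h1 := hr 1
  rw [lf_coeff] at h0 h1
  simp only [if_true] at h0
  simp only [one_ne_zero, if_false, if_true] at h1
  exact hab.isUnit_of_dvd' h1 h0

lemma lf_irr (a b : ℤ) (ha : a ≠ 0) (hab : IsCoprime a b) : Irreducible (lf a b) := by
  apply (lf_prim a b hab).irreducible_of_irreducible_map_of_injective (φ := Int.castRingHom ℚ)
    (RingHom.injective_int _)
  apply irreducible_of_degree_eq_one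
  unfold lf
  rw [Polynomial.map_add, Polynomial.map_mul, map_C, map_C, map_X]
  apply degree_linear
  simpa using ha

lemma lf_shift (a b t : ℤ) : (lf a b).comp (X + C t) = lf a (b + a * t) := by
  unfold lf
  rw [add_comp, mul_comp, C_comp, X_comp, C_comp, mul_add, ← C_mul, add_assoc, ← C_add, add_comm (a * t)]

lemma lf_inj (a b a' b' : ℤ) (h : lf a b = lf a' b') : a = a' ∧ b = b' := by
  have h0 := congrArg (fun f => Polynomial.coeff f 0) h
  have h1 := congrArg (fun f => Polynomial.coeff f 1) h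
  simp only [lf_coeff] at h0 h1
  simp only [if_true] at h0
  simp only [one_ne_zero, if_false, if_true] at h1
  exact ⟨h1, h0⟩

lemma lf_neg (a b : ℤ) : -lf a b = lf (-a) (-b) := by
  unfold lf
  rw [C_neg, C_neg]
  ring

lemma lf_assoc (a b a' b' t : ℤ) (h : Associated (lf a b) ((lf a' b').comp (X + C t))) :
    (a = a' ∧ b = b' + a' * t) ∨ (a = -a' ∧ b = -(b' + a' * t)) := by
  rw [lf_shift] at h
  rcases assoc_cases h with h1 | h1
  · exact Or.inl (lf_inj _ _ _ _ h1)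
  · rw [lf_neg] at h1
    exact Or.inr (lf_inj _ _ _ _ h1)

lemma us_lf (k : ℕ) (a b : Fin k → ℤ) (H U : ℝ) (ha : ∀ i, a i ≠ 0) (hab : ∀ i, IsCoprime (a i) (b i))
    (haH : ∀ i, |(a i : ℝ)| ≤ H) (hbH : ∀ i, |(b i : ℝ)| ≤ H)
    (hadm : ∀ p : ℕ, p.Prime → ∃ m : ℕ, ∀ i, ¬ (p : ℤ) ∣ a i * m + b i)
    (htr : ∀ i j, ∀ t : ℕ, 1 ≤ t → (t : ℝ) ≤ U → ¬ (a i = a j ∧ b i = b j + a j * t) ∧
      ¬ (a i = -a j ∧ b i = -(b j + a j * t))) : US k 1 H U (fun i => lf (a i) (b i)) where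
  irr i := lf_irr _ _ (ha i) (hab i)
  deg i := by rw [lf_deg _ _ (ha i)]; norm_num
  degD i := by rw [lf_deg _ _ (ha i)]
  hgt i n := by
    rw [lf_coeff]
    split_ifs
    · exact hbH i
    · exact haH i
    · simpa using (abs_nonneg _).trans (haH i)
  adm p hp := by
    obtain ⟨m, hm⟩ := hadm p hp
    refine ⟨m, fun i => ?_⟩
    rw [lf_eval]
    exact hm i
  tr i j t ht htU h := by
    rcases lf_assoc _ _ _ _ _ h with h1 | h1
    · exact (htr i j t ht htU).1 h1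
    · exact (htr i j t ht htU).2 h1

/-- the upper bound for the density of systems with two classes -/
theorem V2_up (A : ℝ) (hA : 0 < A) (r : ℕ) (hr2 : 2 ≤ r) : ∃ M : ℝ, 0 < M ∧ ∀ᶠ X : ℕ in atTop,
    ∀ (Q : ℕ → ℕ → Prop) (D : ℕ), (∀ p : ℕ, p.Prime → nuB Q p < p) → 1 ≤ D → (D : ℝ) ≤ (X : ℝ) ^ A →
      (∀ p : ℕ, p.Prime → ¬ p ∣ D → 2 ≤ nuB Q p) →
      Vq Q ⌊(X : ℝ) ^ (1 / (r : ℝ))⌋₊ ≤ M / Real.log X := by
  obtain ⟨Cu, hCu, hVup⟩ := V_upper_unif
  have hrr : (2 : ℝ) ≤ r := by exact_mod_cast hr2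
  obtain ⟨M, hM⟩ : ∃ M : ℝ, M = Cu * (2 * r) ^ 2 * (64 * (A + 3)) := ⟨_, rfl⟩
  have hM0 : 0 < M := by rw [hM]; positivity
  refine ⟨M, hM0, ?_⟩
  filter_upwards [level_ok r hr2, logpow_rpow 1 (2 * (A + 3)) (1 / (r : ℝ)) (by positivity) (by positivity),
    eventually_ge_atTop 3] with X g h9 h15
  obtain ⟨g1, g2, g3, g4, g5⟩ := g
  intro Q D hadm hD hDX hnu
  obtain ⟨y, hy⟩ : ∃ y, y = ⌊(X : ℝ) ^ (1 / (r : ℝ))⌋₊ := ⟨_, rfl⟩
  rw [← hy] at g1 g2 g3 g4 ⊢
  have hX1 : (1 : ℝ) ≤ X := by exact_mod_cast (by omega : 1 ≤ X)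
  have hX0 : (0 : ℝ) < X := by linarith
  have hlX : 0 < Real.log X := by linarith
  have hyX2 : (X : ℝ) ^ (1 / (r : ℝ)) ≤ 2 * y := by
    have h6 : (X : ℝ) ^ (1 / (r : ℝ)) < y + 1 := by rw [hy]; exact Nat.lt_floor_add_one _
    have h7 : (1 : ℝ) ≤ y := by exact_mod_cast (by omega : 1 ≤ y)
    linarith
  obtain ⟨z, hz⟩ : ∃ z : ℕ, z = ⌈A * Real.log X⌉₊ + 2 := ⟨_, rfl⟩
  have hz1 : A * Real.log X ≤ z := by
    rw [hz]
    push_cast
    have := Nat.le_ceil (A * Real.log X)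
    linarith
  have hz2 : (z : ℝ) ≤ (A + 3) * Real.log X := by
    rw [hz]
    push_cast
    have := (Nat.ceil_lt_add_one (by positivity : 0 ≤ A * Real.log X)).le
    linarith
  have hzy : z ≤ y := by
    rw [pow_one] at h9
    have : (z : ℝ) ≤ y := by linarith
    exact_mod_cast this
  have hz0 : (0 : ℝ) < z := by
    have : 2 ≤ z := by omega
    exact_mod_cast (by omega : 0 < z)
  have hlogD : Real.log D ≤ z := by
    refine le_trans ?_ hz1
    rw [← Real.log_rpow hX0]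
    exact Real.log_le_log (by exact_mod_cast hD) hDX
  have hV1 := hVup Q D (by omega) hadm hnu z y (by omega) hzy hlogD
  have hly0 : 0 < Real.log y := by linarith
  have hlz0 : 0 ≤ Real.log z := Real.log_nonneg (by exact_mod_cast (by omega : 1 ≤ z))
  have hlz : Real.log z ^ 2 ≤ 64 * (A + 3) * Real.log X ^ (1 / 4 : ℝ) := by
    have e1 : Real.log z ≤ 8 * (z : ℝ) ^ (1 / 8 : ℝ) := by
      have e2 := Real.log_le_sub_one_of_pos (Real.rpow_pos_of_pos hz0 (1 / 8 : ℝ))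
      rw [Real.log_rpow hz0] at e2
      linarith
    have e3 : Real.log z ^ 2 ≤ (8 * (z : ℝ) ^ (1 / 8 : ℝ)) ^ 2 := pow_le_pow_left₀ hlz0 e1 2
    refine e3.trans ?_
    rw [mul_pow, ← Real.rpow_natCast ((z : ℝ) ^ (1 / 8 : ℝ)), ← Real.rpow_mul hz0.le]
    have e4 : (z : ℝ) ^ ((1 / 8 : ℝ) * ((2 : ℕ) : ℝ)) ≤ (A + 3) * Real.log X ^ (1 / 4 : ℝ) := by
      rw [show (1 / 8 : ℝ) * ((2 : ℕ) : ℝ) = 1 / 4 by norm_num]
      calc (z : ℝ) ^ (1 / 4 : ℝ) ≤ ((A + 3) * Real.log X) ^ (1 / 4 : ℝ) :=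
            Real.rpow_le_rpow hz0.le hz2 (by norm_num)
        _ = (A + 3) ^ (1 / 4 : ℝ) * Real.log X ^ (1 / 4 : ℝ) :=
            Real.mul_rpow (by linarith) hlX.le
        _ ≤ (A + 3) * Real.log X ^ (1 / 4 : ℝ) := by
            apply mul_le_mul_of_nonneg_right _ (by positivity)
            calc (A + 3) ^ (1 / 4 : ℝ) ≤ (A + 3) ^ (1 : ℝ) :=
                  Real.rpow_le_rpow_of_exponent_le (by linarith) (by norm_num)
              _ = A + 3 := Real.rpow_one _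
    calc (8 : ℝ) ^ 2 * (z : ℝ) ^ ((1 / 8 : ℝ) * ((2 : ℕ) : ℝ)) ≤
        (8 : ℝ) ^ 2 * ((A + 3) * Real.log X ^ (1 / 4 : ℝ)) := mul_le_mul_of_nonneg_left e4 (by norm_num)
      _ = _ := by ring
  have hl14 : Real.log X ^ (1 / 4 : ℝ) ≤ Real.log X := by
    calc Real.log X ^ (1 / 4 : ℝ) ≤ Real.log X ^ (1 : ℝ) :=
          Real.rpow_le_rpow_of_exponent_le g5 (by norm_num)
      _ = Real.log X := Real.rpow_one _
  refine hV1.trans ?_
  rw [div_pow, mul_div_assoc', div_le_div_iff₀ (by positivity) hlX]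
  have e1 : Real.log X ^ 2 ≤ (2 * r) ^ 2 * Real.log y ^ 2 := by
    rw [← mul_pow]
    apply pow_le_pow_left₀ hlX.le
    rw [div_le_iff₀ (by positivity)] at g2
    linarith
  calc Cu * Real.log z ^ 2 * Real.log X ≤
      Cu * (64 * (A + 3) * Real.log X ^ (1 / 4 : ℝ)) * Real.log X := by
        gcongr
    _ ≤ Cu * (64 * (A + 3) * Real.log X) * Real.log X := by gcongr
    _ = Cu * (64 * (A + 3)) * Real.log X ^ 2 := by ring
    _ ≤ Cu * (64 * (A + 3)) * ((2 * r) ^ 2 * Real.log y ^ 2) := by gcongr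
    _ = M * Real.log y ^ 2 := by rw [hM]; ring

end Pool.Agent.Y879.GL
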