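import Pool.Agent.Y879.GL.Assoc
import Pool.Agent.TH464.PO.QuadAP

set_option autoImplicit false

/-!
# Quadratic polynomials, uniformly in the coefficients
-/

namespace Pool.Agent.Y879.GL

open Polynomial Finset Filter
open Pool.Agent.W123.RP Pool.Agent.H373R2.T7 Pool.Agent.W123.RU Pool.Agent.W123.RU.Poly
open Pool.Agent.TH464.PW Pool.Agent.TH464.PO

lemma quad_coeff (a b c : ℤ) (n : ℕ) (H : ℤ) (ha : |a| ≤ H) (hb : |b| ≤ H) (hc : |c| ≤ H) :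
    |(quad a b c).coeff n| ≤ H := by
  have hH : 0 ≤ H := (abs_nonneg _).trans ha
  have e : (quad a b c).coeff n = if n = 2 then a else if n = 1 then b else if n = 0 then c else 0 := by
    unfold quad
    simp only [coeff_add, coeff_C_mul, coeff_X_pow, coeff_X, coeff_C]
    rcases n with _ | _ | _ | n
    · simp
    · simp
    · simp
    · simp
  rw [e]
  split_ifs
  · exact ha
  · exact hb
  · exact hc
  · simpa using hH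

/-- a single irreducible polynomial -/
lemma us_single (f : ℤ[X]) (hf : Irreducible f) (hd : f.natDegree ≠ 0) (D : ℕ) (hD : f.natDegree ≤ D)
    (H U : ℝ) (hH : ∀ n, |((f.coeff n : ℤ) : ℝ)| ≤ H)
    (hadm : ∀ p : ℕ, p.Prime → ∃ m : ℕ, ¬ (p : ℤ) ∣ f.eval (m : ℤ)) :
    US 1 D H U (fun _ => f) where
  irr := fun _ => hf
  deg := fun _ => hd
  degD := fun _ => hD
  hgt := fun _ n => hH n
  adm := fun p hp => by
    obtain ⟨m, hm⟩ := hadm p hp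
    exact ⟨m, fun _ => hm⟩
  tr := fun _ _ t ht _ => no_self f hd t (by exact_mod_cast (by omega : t ≠ 0))

/-- the densities of the primes -/
lemma Vz_up (r : ℕ) (hr : 2 ≤ r) : ∃ C : ℝ, 0 < C ∧ ∀ᶠ X : ℕ in atTop,
    0 ≤ Vz ⌊(X : ℝ) ^ (1 / (r : ℝ))⌋₊ ∧ Vz ⌊(X : ℝ) ^ (1 / (r : ℝ))⌋₊ ≤ C / Real.log X := by
  obtain ⟨c, C, hc, hC, hV⟩ := Vz_bounds
  have hrr : (2 : ℝ) ≤ r := by exact_mod_cast hr
  refine ⟨C * (2 * r), by positivity, ?_⟩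
  filter_upwards [level_ok r hr] with X hX
  obtain ⟨h3, hy2, hy3, h4, h5⟩ := hX
  obtain ⟨h6, h7⟩ := hV ⌊(X : ℝ) ^ (1 / (r : ℝ))⌋₊ (by omega)
  refine ⟨le_trans (by positivity) h6, h7.trans ?_⟩
  rw [mul_div_assoc, div_eq_mul_one_div C]
  apply mul_le_mul_of_nonneg_left _ hC.le
  rw [one_div, inv_le_comm₀ (by linarith) (by positivity), inv_div]
  exact hy2

open Classical in
/-- **The gap laws, uniformly in the quadratic polynomials.** -/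
theorem quad_unif (A : ℕ) (θ : ℝ) (hθ : 0 < θ) (k0 : ℕ) (x0 ε : ℝ) (hε : 0 < ε) :
    ∃ r0 : ℕ, ∀ r : ℕ, r0 ≤ r → ∀ B : ℝ, ∀ᶠ X : ℕ in atTop, ∀ a b c : ℤ, 0 < a →
      (∀ p : ℕ, p.Prime → ¬ ((p : ℤ) ∣ a ∧ (p : ℤ) ∣ b ∧ (p : ℤ) ∣ c)) →
      ¬ (Even (a + b) ∧ Even c) → ¬ IsSquare (b ^ 2 - 4 * a * c) →
      |a| ≤ (X : ℤ) ^ A → |b| ≤ (X : ℤ) ^ A → |c| ≤ (X : ℤ) ^ A →
      Vq (Q (qs a b c)) ⌊(X : ℝ) ^ (1 / (r : ℝ))⌋₊ ≤ B * Vz ⌊(X : ℝ) ^ (1 / (r : ℝ))⌋₊ →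
      ∀ u Y : ℕ, (X : ℝ) ^ θ ≤ Y →
      ∀ k T : ℕ, (k ≤ k0 ∨ T * Vq (Q (qs a b c)) ⌊(X : ℝ) ^ (1 / (r : ℝ))⌋₊ ≤ x0) →
        |(Pk (Sf (Q (qs a b c)) ⌊(X : ℝ) ^ (1 / (r : ℝ))⌋₊) k T u Y : ℝ) -
          Y * Vq (Q (qs a b c)) ⌊(X : ℝ) ^ (1 / (r : ℝ))⌋₊ *
            Ck k (T * Vq (Q (qs a b c)) ⌊(X : ℝ) ^ (1 / (r : ℝ))⌋₊)| ≤
          ε * (Y * Vq (Q (qs a b c)) ⌊(X : ℝ) ^ (1 / (r : ℝ))⌋₊) := by
  obtain ⟨r0, h0⟩ := gap_polys 1 2 ((A : ℝ) + 1) 1 θ (by positivity) one_pos hθ k0 x0 ε hε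
  refine ⟨max r0 2, ?_⟩
  intro r hr B
  have hr2 : 2 ≤ r := (le_max_right _ _).trans hr
  obtain ⟨C, hC, hVz⟩ := Vz_up r hr2
  filter_upwards [h0 r ((le_max_left _ _).trans hr) (|B| * C), hVz, eventually_ge_atTop 1] with X h1 h2 h3
  intro a b c ha hg hpar hD haX hbX hcX hV u Y hY k T hT
  have hX1 : (1 : ℝ) ≤ X := by exact_mod_cast h3
  refine h1 (qs a b c) ?_ ?_ u Y hY k T hT
  · apply us_single (quad a b c) (quad_irr a b c ha.ne' hg hD)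
    · rw [quad_deg a b c ha.ne']
      norm_num
    · rw [quad_deg a b c ha.ne']
    · intro n
      have h4 := quad_coeff a b c n ((X : ℤ) ^ A) haX hbX hcX
      have h5 : |(((quad a b c).coeff n : ℤ) : ℝ)| ≤ (X : ℝ) ^ A := by exact_mod_cast h4
      refine h5.trans ?_
      rw [← Real.rpow_natCast]
      exact Real.rpow_le_rpow_of_exponent_le hX1 (by linarith)
    · intro p hp
      exact quad_adm a b c hg hpar p hp
  · refine hV.trans ?_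
    calc B * Vz ⌊(X : ℝ) ^ (1 / (r : ℝ))⌋₊ ≤ |B| * Vz ⌊(X : ℝ) ^ (1 / (r : ℝ))⌋₊ :=
          mul_le_mul_of_nonneg_right (le_abs_self B) h2.1
      _ ≤ |B| * (C / Real.log X) := mul_le_mul_of_nonneg_left h2.2 (abs_nonneg B)
      _ = |B| * C / Real.log X := by ring

end Pool.Agent.Y879.GL
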