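import Mathlib

set_option autoImplicit false

/-!
# Resultants of translates: nonvanishing and size
-/

namespace Pool.Agent.Y879.GL

open Polynomial

/-- a bound for the resultant -/
lemma res_bound (f g : ℤ[X]) (m n : ℕ) (H : ℤ) (hf : ∀ i, |f.coeff i| ≤ H)
    (hg : ∀ i, |g.coeff i| ≤ H) :
    |resultant f g m n| ≤ (m + n).factorial * H ^ (m + n) := by
  have hH : 0 ≤ H := (abs_nonneg _).trans (hf 0)
  have h1 := Matrix.det_le (A := sylvester f g m n) (abv := AbsoluteValue.abs) (x := H) (by
    intro i j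
    unfold sylvester
    rw [Matrix.of_apply, AbsoluteValue.abs_apply]
    refine Fin.addCases (fun j₁ => ?_) (fun j₁ => ?_) j
    · rw [Fin.addCases_left]
      split_ifs
      · exact hg _
      · simpa using hH
    · rw [Fin.addCases_right]
      split_ifs
      · exact hf _
      · simpa using hH)
  rw [AbsoluteValue.abs_apply, Fintype.card_fin, nsmul_eq_mul] at h1
  exact h1

/-- the coefficients of a translate -/
lemma coeff_shift (f : ℤ[X]) (D : ℕ) (hD : f.natDegree ≤ D) (H : ℤ) (hf : ∀ i, |f.coeff i| ≤ H)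
    (t : ℕ) (ht : 1 ≤ t) (n : ℕ) :
    |(f.comp (X + C (t : ℤ))).coeff n| ≤ (D + 1) * (H * (t ^ D * 2 ^ D)) := by
  have hH : 0 ≤ H := (abs_nonneg _).trans (hf 0)
  have e : (f.comp (X + C (t : ℤ))).coeff n =
      ∑ i ∈ Finset.range (f.natDegree + 1), f.coeff i * ((t : ℤ) ^ (i - n) * (i.choose n : ℤ)) := by
    unfold Polynomial.comp
    rw [eval₂_eq_sum_range, finsetSum_coeff]
    apply Finset.sum_congr rfl
    intro i _
    rw [coeff_C_mul, coeff_X_add_C_pow]
  rw [e]
  refine (Finset.abs_sum_le_sum_abs _ _).trans ?_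
  have h1 : ∀ i ∈ Finset.range (f.natDegree + 1),
      |f.coeff i * ((t : ℤ) ^ (i - n) * (i.choose n : ℤ))| ≤ H * (t ^ D * 2 ^ D) := by
    intro i hi
    rw [Finset.mem_range] at hi
    have ht' : (1 : ℤ) ≤ t := by exact_mod_cast ht
    rw [abs_mul, abs_of_nonneg (by positivity : (0 : ℤ) ≤ (t : ℤ) ^ (i - n) * (i.choose n : ℤ))]
    apply mul_le_mul (hf i) _ (by positivity) hH
    apply mul_le_mul
    · exact pow_le_pow_right₀ ht' (by omega)
    · have h2 : i.choose n ≤ 2 ^ i := Nat.choose_le_two_pow i n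
      have h3 : (2 : ℕ) ^ i ≤ 2 ^ D := Nat.pow_le_pow_right (by norm_num) (by omega)
      exact_mod_cast h2.trans h3
    · positivity
    · positivity
  refine (Finset.sum_le_sum h1).trans ?_
  rw [Finset.sum_const, Finset.card_range, nsmul_eq_mul]
  apply mul_le_mul_of_nonneg_right _ (by positivity)
  push_cast
  have : (f.natDegree : ℤ) ≤ D := by exact_mod_cast hD
  linarith

/-- irreducible polynomials which are not associated are coprime over `ℚ` -/
lemma coprime_map (f g : ℤ[X]) (hf : Irreducible f) (hg : Irreducible g) (hfd : f.natDegree ≠ 0)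
    (hgd : g.natDegree ≠ 0) (h : ¬ Associated f g) :
    IsCoprime (f.map (Int.castRingHom ℚ)) (g.map (Int.castRingHom ℚ)) := by
  have pf : f.IsPrimitive := hf.isPrimitive hfd
  have pg : g.IsPrimitive := hg.isPrimitive hgd
  have hf' := (IsPrimitive.Int.irreducible_iff_irreducible_map_cast pf).1 hf
  rw [hf'.coprime_iff_not_dvd]
  intro hd
  rw [← IsPrimitive.Int.dvd_iff_map_cast_dvd_map_cast f g pf] at hd
  exact h (hf.associated_of_dvd hg hd)

lemma res_ne_zero (f g : ℤ[X]) (hf : Irreducible f) (hg : Irreducible g) (hfd : f.natDegree ≠ 0)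
    (hgd : g.natDegree ≠ 0) (h : ¬ Associated f g) : resultant f g ≠ 0 := by
  have h1 := resultant_ne_zero _ _ (coprime_map f g hf hg hfd hgd h)
  rw [natDegree_map_eq_of_injective (Int.castRingHom ℚ).injective_int,
    natDegree_map_eq_of_injective (Int.castRingHom ℚ).injective_int, resultant_map_map] at h1
  intro h2
  rw [h2] at h1
  simp at h1

/-- the values of two polynomials -/
lemma dvd_res (f g : ℤ[X]) (hfd : f.natDegree ≠ 0) (m d : ℤ) (h1 : d ∣ f.eval m) (h2 : d ∣ g.eval m) :
    d ∣ resultant f g := by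
  obtain ⟨p, q, _, _, h⟩ := exists_mul_add_mul_eq_C_resultant f g le_rfl le_rfl (Or.inl hfd)
  have h3 := congrArg (eval m) h
  rw [eval_add, eval_mul, eval_mul, eval_C] at h3
  rw [← h3]
  exact dvd_add (h1.mul_right _) (h2.mul_right _)

lemma irr_shift (f : ℤ[X]) (hf : Irreducible f) (t : ℤ) : Irreducible (f.comp (X + C t)) := by
  have e : f.comp (X + C t) = taylorEquiv t f := rfl
  rw [e]
  exact (MulEquiv.irreducible_iff (taylorEquiv t)).2 hf

lemma deg_shift (f : ℤ[X]) (t : ℤ) : (f.comp (X + C t)).natDegree = f.natDegree := by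
  have e : f.comp (X + C t) = taylor t f := rfl
  rw [e, natDegree_taylor]

end Pool.Agent.Y879.GL
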