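import Pool.Agent.Y879.GL.GapZ

set_option autoImplicit false

/-!
# The gap laws for the elements of a residue class
-/

namespace Pool.Agent.Y879.GL

open Polynomial Finset Filter
open Pool.Agent.W123.RP Pool.Agent.H373R2.T7 Pool.Agent.W123.RU Pool.Agent.W123.RU.Poly
open Pool.Agent.TH464.PW Pool.Agent.TH464.PO

open Classical in
lemma card_win (M c : ℕ) (hM : 0 < M) (G g : ℕ → Prop) (hG : ∀ n, G n ↔ ∃ m, n = M * m + c ∧ g m)
    (m T : ℕ) : ((Ico (M * m + c - T) (M * m + c)).filter G).card =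
      ((Ico (m - T / M) m).filter g).card := by
  symm
  apply Finset.card_bij (fun m' _ => M * m' + c)
  · intro a ha
    rw [mem_filter, mem_Ico] at ha ⊢
    obtain ⟨⟨h1, h2⟩, h3⟩ := ha
    refine ⟨⟨?_, ?_⟩, (hG _).2 ⟨a, rfl, h3⟩⟩
    · have h4 : m - a ≤ T / M := by omega
      rw [Nat.le_div_iff_mul_le hM] at h4
      have h5 : M * m = M * a + (m - a) * M := by
        have : m = a + (m - a) := by omega
        calc M * m = M * (a + (m - a)) := by rw [← this]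
          _ = M * a + (m - a) * M := by ring
      omega
    · have := Nat.mul_lt_mul_of_pos_left h2 hM
      omega
  · intro a _ b _ hab
    have : M * a = M * b := by omega
    exact Nat.eq_of_mul_eq_mul_left hM this
  · intro n hn
    rw [mem_filter, mem_Ico] at hn
    obtain ⟨⟨h1, h2⟩, h3⟩ := hn
    obtain ⟨a, rfl, h4⟩ := (hG n).1 h3
    have ham : a < m := by
      by_contra h
      have := Nat.mul_le_mul_left M (not_lt.1 h)
      omega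
    refine ⟨a, ?_, rfl⟩
    rw [mem_filter, mem_Ico]
    refine ⟨⟨?_, ham⟩, h4⟩
    have h5 : (m - a) * M ≤ T := by
      have : M * m = M * a + (m - a) * M := by
        have : m = a + (m - a) := by omega
        calc M * m = M * (a + (m - a)) := by rw [← this]
          _ = M * a + (m - a) * M := by ring
      omega
    rw [← Nat.le_div_iff_mul_le hM] at h5
    omega

open Classical in
lemma Pk_scale (M c : ℕ) (hM : 0 < M) (G g : ℕ → Prop) (hG : ∀ n, G n ↔ ∃ m, n = M * m + c ∧ g m)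
    (k T u Y : ℕ) (hu : c ≤ u) :
    Pk G k T u Y = Pk g k (T / M) ((u - c) / M) ((u + Y - c) / M - (u - c) / M) := by
  have hle : (u - c) / M ≤ (u + Y - c) / M := Nat.div_le_div_right (by omega)
  unfold Pk
  symm
  apply Finset.card_bij (fun m _ => M * m + c)
  · intro a ha
    rw [mem_filter, mem_Ioc] at ha ⊢
    obtain ⟨⟨h1, h2⟩, h3, h4⟩ := ha
    have h2' : a ≤ (u + Y - c) / M := by omega
    rw [Nat.div_lt_iff_lt_mul hM] at h1
    rw [Nat.le_div_iff_mul_le hM] at h2'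
    refine ⟨⟨?_, ?_⟩, (hG _).2 ⟨a, rfl, h3⟩, ?_⟩
    · rw [mul_comm] at h1
      omega
    · rw [mul_comm] at h2'
      omega
    · rw [card_win M c hM G g hG]
      exact h4
  · intro a _ b _ hab
    have : M * a = M * b := by omega
    exact Nat.eq_of_mul_eq_mul_left hM this
  · intro n hn
    rw [mem_filter, mem_Ioc] at hn
    obtain ⟨⟨h1, h2⟩, h3, h4⟩ := hn
    obtain ⟨a, rfl, h5⟩ := (hG n).1 h3
    refine ⟨a, ?_, rfl⟩
    rw [mem_filter, mem_Ioc]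
    rw [card_win M c hM G g hG] at h4
    have e1 : (u - c) / M < a := by
      rw [Nat.div_lt_iff_lt_mul hM, mul_comm]
      omega
    have e2 : a ≤ (u + Y - c) / M := by
      rw [Nat.le_div_iff_mul_le hM, mul_comm]
      omega
    exact ⟨⟨e1, by omega⟩, h5, h4⟩

/-- the length of the interval of the indices -/
lemma len_scale (M a Y : ℕ) (hM : 0 < M) :
    |(((a + Y) / M - a / M : ℕ) : ℝ) - (Y : ℝ) / M| ≤ 1 := by
  have hle : a / M ≤ (a + Y) / M := Nat.div_le_div_right (by omega)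
  rw [Nat.cast_sub hle]
  have hMr : (0 : ℝ) < M := by exact_mod_cast hM
  have h1 : (((a + Y) / M : ℕ) : ℝ) ≤ ((a : ℝ) + Y) / M := by
    have := Nat.cast_div_le (α := ℝ) (m := a + Y) (n := M)
    push_cast at this
    exact this
  have h2 : ((a / M : ℕ) : ℝ) ≤ (a : ℝ) / M := Nat.cast_div_le
  have h3 : ((a : ℝ) + Y) / M < (((a + Y) / M : ℕ) : ℝ) + 1 := by
    have := Nat.lt_div_mul_add (a := a + Y) hM
    rw [div_lt_iff₀ hMr]
    have h4 : ((a + Y : ℕ) : ℝ) < (((a + Y) / M * M + M : ℕ) : ℝ) := by exact_mod_cast this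
    push_cast at h4
    linarith
  have h4 : (a : ℝ) / M < ((a / M : ℕ) : ℝ) + 1 := by
    have := Nat.lt_div_mul_add (a := a) hM
    rw [div_lt_iff₀ hMr]
    have h4 : ((a : ℕ) : ℝ) < ((a / M * M + M : ℕ) : ℝ) := by exact_mod_cast this
    push_cast at h4
    linarith
  have h5 : ((a : ℝ) + Y) / M = (a : ℝ) / M + (Y : ℝ) / M := by ring
  rw [abs_le]
  constructor <;> linarith

lemma div_scale (M T : ℕ) (hM : 0 < M) :
    ((T / M : ℕ) : ℝ) ≤ (T : ℝ) / M ∧ (T : ℝ) / M ≤ ((T / M : ℕ) : ℝ) + 1 := by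
  have hMr : (0 : ℝ) < M := by exact_mod_cast hM
  refine ⟨Nat.cast_div_le, ?_⟩
  have := Nat.lt_div_mul_add (a := T) hM
  rw [div_le_iff₀ hMr]
  have h4 : ((T : ℕ) : ℝ) < ((T / M * M + M : ℕ) : ℝ) := by exact_mod_cast this
  push_cast at h4
  linarith

/-- the numerical part -/
lemma num_scale (P Y Y' M T T' Vm ε : ℝ) (k : ℕ) (hM : 0 < M) (hY : 0 ≤ Y) (hY' : 0 ≤ Y')
    (hVm : 0 ≤ Vm) (hε : 0 < ε) (hε1 : ε ≤ 1) (hT' : 0 ≤ T')
    (h1 : |P - Y' * Vm * Ck k (T' * Vm)| ≤ ε / 4 * (Y' * Vm))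
    (h2 : |Y' - Y / M| ≤ 1) (h3 : T' ≤ T / M) (h4 : T / M ≤ T' + 1)
    (h5 : Vm ≤ ε / 4) (h6 : 8 * M / ε ≤ Y) :
    |P - Y * (Vm / M) * Ck k (T * (Vm / M))| ≤ ε * (Y * (Vm / M)) := by
  have hS : Y * (Vm / M) = (Y / M) * Vm := by ring
  have hTV : T * (Vm / M) = (T / M) * Vm := by ring
  rw [hS, hTV]
  obtain ⟨y, hy⟩ : ∃ y, y = Y / M := ⟨_, rfl⟩
  obtain ⟨t, ht⟩ : ∃ t, t = T / M := ⟨_, rfl⟩
  rw [← hy] at h2 ⊢
  rw [← ht] at h3 h4 ⊢
  have hy0 : 0 ≤ y := by rw [hy]; positivity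
  have hy8 : 8 ≤ ε * y := by
    rw [div_le_iff₀ hε] at h6
    rw [hy, mul_div_assoc', le_div_iff₀ hM]
    linarith
  obtain ⟨a1, a2⟩ := abs_le.1 h2
  obtain ⟨b1, b2⟩ := abs_le.1 h1
  obtain ⟨c1, c2⟩ := Ck_lip k (T' * Vm) ((t - T') * Vm) (by positivity)
    (mul_nonneg (by linarith) hVm)
  have e : T' * Vm + (t - T') * Vm = t * Vm := by ring
  rw [e] at c1 c2
  have d1 : (t - T') * Vm ≤ Vm := by nlinarith
  have hC0 : 0 ≤ Ck k (t * Vm) := Ck_nonneg _ _ (mul_nonneg (by linarith) hVm)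
  have hC1 : Ck k (t * Vm) ≤ 1 := Ck_le_one _ _ (mul_nonneg (by linarith) hVm)
  obtain ⟨C, hC⟩ : ∃ C, C = Ck k (t * Vm) := ⟨_, rfl⟩
  obtain ⟨C', hC'⟩ : ∃ C', C' = Ck k (T' * Vm) := ⟨_, rfl⟩
  rw [← hC] at c1 c2 hC0 hC1 ⊢
  rw [← hC'] at c1 c2 b1 b2
  have hCC : C' ≤ C + Vm := by linarith
  have hCC' : C ≤ C' := c1
  have hC'0 : 0 ≤ C' := hC0.trans hCC'
  -- sizes
  have s1 : Y' * Vm ≤ y * Vm + Vm := by nlinarith
  have s2 : y * Vm - Vm ≤ Y' * Vm := by nlinarith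
  have s3 : 8 * Vm ≤ ε * (y * Vm) := by nlinarith
  have s4 : 0 ≤ Y' * Vm := by positivity
  have s5 : 0 ≤ y * Vm := by positivity
  -- the main terms
  have m1 : Y' * Vm * C' ≤ y * Vm * C + Vm + (y * Vm + Vm) * Vm := by
    calc Y' * Vm * C' ≤ Y' * Vm * (C + Vm) := mul_le_mul_of_nonneg_left hCC s4
      _ ≤ (y * Vm + Vm) * (C + Vm) := mul_le_mul_of_nonneg_right s1 (by linarith)
      _ = y * Vm * C + Vm * C + (y * Vm + Vm) * Vm := by ring
      _ ≤ y * Vm * C + Vm + (y * Vm + Vm) * Vm := by nlinarith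
  have m2 : y * Vm * C - Vm ≤ Y' * Vm * C' := by
    calc y * Vm * C - Vm ≤ (y * Vm - Vm) * C := by nlinarith
      _ ≤ Y' * Vm * C := mul_le_mul_of_nonneg_right s2 hC0
      _ ≤ Y' * Vm * C' := mul_le_mul_of_nonneg_left hCC' s4
  have s6 : (y * Vm + Vm) * Vm ≤ (y * Vm + Vm) * (ε / 4) :=
    mul_le_mul_of_nonneg_left h5 (by positivity)
  have s7 : ε / 4 * (Y' * Vm) ≤ ε / 4 * (y * Vm + Vm) := mul_le_mul_of_nonneg_left s1 (by positivity)
  have s8 : ε * Vm ≤ Vm := by nlinarith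
  rw [abs_le]
  constructor
  · nlinarith
  · nlinarith

variable {ι : Type} [Fintype ι]

open Classical in
/-- **The gap laws for the elements of a residue class.** -/
theorem gap_scale [Nonempty ι] (f : ι → ℤ[X]) (hf : Sys f) (hT : NoTr f) (M c : ℕ) (hM : 0 < M)
    (G : ℕ → ℕ → Prop) (V : ℕ → ℝ) (y0 : ℕ)
    (hG : ∀ y, y0 ≤ y → ∀ n, G y n ↔ ∃ m, n = M * m + c ∧ Sf (Q f) y m)
    (hV : ∀ y, y0 ≤ y → V y = Vq (Q f) y / M) (θ : ℝ) (hθ : 0 < θ)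
    (k0 : ℕ) (x0 ε : ℝ) (hε : 0 < ε) :
    ∃ r0 : ℕ, ∀ r : ℕ, r0 ≤ r → ∀ᶠ X : ℕ in atTop, ∀ u Y : ℕ, c ≤ u → (X : ℝ) ^ θ ≤ Y →
      ∀ k T : ℕ, (k ≤ k0 ∨ T * V ⌊(X : ℝ) ^ (1 / (r : ℝ))⌋₊ ≤ x0) →
        |(Pk (G ⌊(X : ℝ) ^ (1 / (r : ℝ))⌋₊) k T u Y : ℝ) -
          Y * V ⌊(X : ℝ) ^ (1 / (r : ℝ))⌋₊ * Ck k (T * V ⌊(X : ℝ) ^ (1 / (r : ℝ))⌋₊)| ≤
          ε * (Y * V ⌊(X : ℝ) ^ (1 / (r : ℝ))⌋₊) := by
  obtain ⟨e, he⟩ : ∃ e, e = min ε 1 := ⟨_, rfl⟩
  have he0 : 0 < e := by rw [he]; positivity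
  have he1 : e ≤ 1 := by rw [he]; exact min_le_right _ _
  have heε : e ≤ ε := by rw [he]; exact min_le_left _ _
  obtain ⟨r0, h0⟩ := gap_poly_Z f hf hT (θ / 2) (by positivity) k0 x0 (e / 4) (by positivity)
  have hMr : (0 : ℝ) < M := by exact_mod_cast hM
  refine ⟨max r0 2, ?_⟩
  intro r hr
  have hr2 : 2 ≤ r := (le_max_right _ _).trans hr
  have hrr : (2 : ℝ) ≤ r := by exact_mod_cast hr2
  have hrpos : (0 : ℝ) < r := by linarith
  have hcast : Tendsto (fun X : ℕ => (X : ℝ)) atTop atTop := tendsto_natCast_atTop_atTop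
  have hpow : Tendsto (fun X : ℕ => (X : ℝ) ^ (θ / 2)) atTop atTop :=
    (tendsto_rpow_atTop (by positivity)).comp hcast
  have hpowr : Tendsto (fun X : ℕ => (X : ℝ) ^ (1 / (r : ℝ))) atTop atTop :=
    (tendsto_rpow_atTop (by positivity)).comp hcast
  filter_upwards [h0 r ((le_max_left _ _).trans hr), V_small f hf r hr2 (e / 4) (by positivity),
    hpow.eventually_ge_atTop (2 * M + 8 * M / e + 1), hpowr.eventually_ge_atTop (y0 : ℝ),
    eventually_ge_atTop 1] with X hX hVs hX1 hX2 hX3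
  intro u Y hu hXY k T hkT
  obtain ⟨y, hy⟩ : ∃ y, y = ⌊(X : ℝ) ^ (1 / (r : ℝ))⌋₊ := ⟨_, rfl⟩
  rw [← hy] at hX hVs hkT ⊢
  have hyy : y0 ≤ y := by
    rw [hy]
    exact Nat.le_floor hX2
  have hX3r : (1 : ℝ) ≤ X := by exact_mod_cast hX3
  have hVm0 : 0 ≤ Vq (Q f) y := (Vq_pos (Q f) (fun p hp => Poly.adm f hf p hp) y).le
  have hhalf : (X : ℝ) ^ θ = (X : ℝ) ^ (θ / 2) * (X : ℝ) ^ (θ / 2) := by
    rw [← Real.rpow_add (by linarith)]
    congr 1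
    ring
  obtain ⟨s, hs⟩ : ∃ s, s = (X : ℝ) ^ (θ / 2) := ⟨_, rfl⟩
  rw [← hs] at hX1 hhalf
  have h8 : 0 < 8 * (M : ℝ) / e := by positivity
  have hM1 : (1 : ℝ) ≤ M := by exact_mod_cast hM
  have hs1 : 1 ≤ s := by linarith
  have hYs : s * s ≤ Y := by rw [← hhalf]; exact hXY
  have hY1 : 2 * (M : ℝ) * s ≤ Y := by nlinarith
  have hY2 : 8 * (M : ℝ) / e ≤ Y := by nlinarith
  have hlen := len_scale M (u - c) Y hM
  rw [show u - c + Y = u + Y - c by omega] at hlen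
  obtain ⟨Y', hY'⟩ : ∃ Y', Y' = (u + Y - c) / M - (u - c) / M := ⟨_, rfl⟩
  rw [← hY'] at hlen
  have hYY : s ≤ Y' := by
    have h1 := (abs_le.1 hlen).1
    have h2 : 2 * s ≤ (Y : ℝ) / M := by
      rw [le_div_iff₀ hMr]
      linarith
    linarith
  rw [Pk_scale M c hM (G y) (Sf (Q f) y) (hG y hyy) k T u Y hu, ← hY', hV y hyy]
  rw [hV y hyy] at hkT
  obtain ⟨t1, t2⟩ := div_scale M T hM
  have hkT' : k ≤ k0 ∨ ((T / M : ℕ) : ℝ) * Vq (Q f) y ≤ x0 := by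
    rcases hkT with h | h
    · exact Or.inl h
    · right
      refine le_trans ?_ h
      calc ((T / M : ℕ) : ℝ) * Vq (Q f) y ≤ (T : ℝ) / M * Vq (Q f) y :=
            mul_le_mul_of_nonneg_right t1 hVm0
        _ = T * (Vq (Q f) y / M) := by ring
  have h1 := hX ((u - c) / M) Y' (by rw [← hs]; exact hYY) k (T / M) hkT'
  have h2 := num_scale _ (Y : ℝ) (Y' : ℝ) (M : ℝ) (T : ℝ) ((T / M : ℕ) : ℝ) (Vq (Q f) y) e k hMr
    (Nat.cast_nonneg _) (Nat.cast_nonneg _) hVm0 he0 he1 (Nat.cast_nonneg _) h1 hlen t1 t2 hVs hY2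
  refine h2.trans ?_
  exact mul_le_mul_of_nonneg_right heε (by positivity)

end Pool.Agent.Y879.GL
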