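import Pool.Agent.Y879.GL.Assoc
import Pool.Agent.Y879.GL.Pattern

set_option autoImplicit false

/-!
# The conditions of Schinzel's Goldbach-type hypothesis
-/

namespace Pool.Agent.Y879.GL

open Polynomial Finset Filter
open Pool.Agent.W123.RP Pool.Agent.H373R2.T7 Pool.Agent.W123.RU Pool.Agent.W123.RU.Poly
open Pool.Agent.TH464.PW Pool.Agent.TH464.PO

lemma coeff_bdd (f : ℤ[X]) : ∃ B : ℕ, ∀ n, |f.coeff n| ≤ B := by
  obtain ⟨B, hB⟩ : ∃ B : ℕ, B = ∑ n ∈ range (f.natDegree + 1), (f.coeff n).natAbs := ⟨_, rfl⟩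
  refine ⟨B, fun n => ?_⟩
  by_cases hn : n ∈ range (f.natDegree + 1)
  · have h1 : (f.coeff n).natAbs ≤ B := by
      rw [hB]
      exact Finset.single_le_sum (f := fun n => (f.coeff n).natAbs) (fun _ _ => Nat.zero_le _) hn
    rw [Int.abs_eq_natAbs]
    exact_mod_cast h1
  · rw [mem_range, not_lt] at hn
    rw [coeff_eq_zero_of_natDegree_lt (by omega)]
    simp

lemma dvd_eval_congr (f : ℤ[X]) (p m n : ℤ) (h : p ∣ m - n) (h2 : p ∣ f.eval m) : p ∣ f.eval n := by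
  have h1 := (h.trans (Polynomial.sub_dvd_eval_sub m n f))
  have h3 := dvd_sub h2 h1
  rwa [sub_sub_cancel] at h3

lemma natDegree_csub (a : ℤ) (G : ℤ[X]) : (C a - G).natDegree = G.natDegree := by
  rw [← natDegree_neg, neg_sub, natDegree_sub_C]

/-- the system of Schinzel's hypothesis -/
noncomputable def SN {g : ℕ} (F : Fin g → ℤ[X]) (G : ℤ[X]) (N : ℕ) : Fin (g + 1) → ℤ[X] :=
  Fin.cons (C (N : ℤ) - G) F

lemma SN_zero {g : ℕ} (F : Fin g → ℤ[X]) (G : ℤ[X]) (N : ℕ) : SN F G N 0 = C (N : ℤ) - G := rfl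

lemma SN_succ {g : ℕ} (F : Fin g → ℤ[X]) (G : ℤ[X]) (N : ℕ) (i : Fin g) : SN F G N i.succ = F i := rfl

/-- small values of a polynomial -/
lemma small_vals (G : ℤ[X]) : ∃ δ : ℝ, 0 < δ ∧ ∀ᶠ N : ℕ in atTop, ∀ t : ℤ,
    |(t : ℝ)| ≤ (N : ℝ) ^ δ → |((G.eval t : ℤ) : ℝ)| ≤ N / 4 := by
  obtain ⟨K, D, hKD⟩ := eval_bound G
  have hD : (0 : ℝ) < 2 * (D + 1) := by positivity
  refine ⟨1 / (2 * (D + 1)), by positivity, ?_⟩
  have hhalf : Tendsto (fun N : ℕ => (N : ℝ) ^ (1 / 2 : ℝ)) atTop atTop :=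
    (tendsto_rpow_atTop (by norm_num)).comp tendsto_natCast_atTop_atTop
  filter_upwards [hhalf.eventually_ge_atTop ((4 * K * 2 ^ D : ℕ) : ℝ), eventually_ge_atTop 1] with N hN hN1
  intro t ht
  have hN1r : (1 : ℝ) ≤ N := by exact_mod_cast hN1
  have hN0 : (0 : ℝ) < N := by linarith
  have h1 : (1 : ℝ) ≤ (N : ℝ) ^ (1 / (2 * ((D : ℝ) + 1))) := Real.one_le_rpow hN1r (by positivity)
  have h2 : 1 + |(t : ℝ)| ≤ 2 * (N : ℝ) ^ (1 / (2 * ((D : ℝ) + 1))) := by linarith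
  have h3 : (1 + |(t : ℝ)|) ^ D ≤ 2 ^ D * (N : ℝ) ^ (1 / 2 : ℝ) := by
    calc (1 + |(t : ℝ)|) ^ D ≤ (2 * (N : ℝ) ^ (1 / (2 * ((D : ℝ) + 1)))) ^ D :=
          pow_le_pow_left₀ (by positivity) h2 D
      _ = 2 ^ D * (N : ℝ) ^ (1 / (2 * ((D : ℝ) + 1)) * D) := by
          rw [mul_pow, ← Real.rpow_natCast ((N : ℝ) ^ (1 / (2 * ((D : ℝ) + 1)))), ← Real.rpow_mul hN0.le]
      _ ≤ 2 ^ D * (N : ℝ) ^ (1 / 2 : ℝ) := by
          apply mul_le_mul_of_nonneg_left _ (by positivity)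
          apply Real.rpow_le_rpow_of_exponent_le hN1r
          rw [div_mul_eq_mul_div, one_mul, div_le_div_iff₀ hD (by norm_num)]
          linarith
  have hs : (N : ℝ) ^ (1 / 2 : ℝ) * (N : ℝ) ^ (1 / 2 : ℝ) = N := by
    rw [← Real.rpow_add hN0]
    norm_num
  have hs0 : 0 < (N : ℝ) ^ (1 / 2 : ℝ) := by positivity
  push_cast at hN
  calc |((G.eval t : ℤ) : ℝ)| ≤ K * (1 + |(t : ℝ)|) ^ D := hKD t
    _ ≤ K * (2 ^ D * (N : ℝ) ^ (1 / 2 : ℝ)) := mul_le_mul_of_nonneg_left h3 (Nat.cast_nonneg _)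
    _ = (4 * K * 2 ^ D) * (N : ℝ) ^ (1 / 2 : ℝ) / 4 := by ring
    _ ≤ (N : ℝ) ^ (1 / 2 : ℝ) * (N : ℝ) ^ (1 / 2 : ℝ) / 4 := by
        apply div_le_div_of_nonneg_right _ (by norm_num)
        exact mul_le_mul_of_nonneg_right hN hs0.le
    _ = N / 4 := by rw [hs]

/-- the conditions for all large `N` -/
theorem us_schinzel {g : ℕ} (F : Fin g → ℤ[X]) (G : ℤ[X]) (hirr : ∀ i, Irreducible (F i))
    (hdeg : ∀ i, 1 ≤ (F i).natDegree) (hlc : ∀ i, 0 < (F i).leadingCoeff)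
    (htr : ∀ i j, i ≠ j → ∀ t : ℤ, F i ≠ (F j).comp (X + C t)) (hG : 1 ≤ G.natDegree) :
    ∃ (D : ℕ) (δ : ℝ), 0 < δ ∧ ∀ᶠ N : ℕ in atTop, Irreducible (C (N : ℤ) - G) →
      (∀ p : ℕ, p.Prime → ∃ n : ℤ, ¬ (p : ℤ) ∣ (∏ i, (F i).eval n) * ((N : ℤ) - G.eval n)) →
      US (g + 1) D ((N : ℝ) ^ (2 : ℝ)) ((N : ℝ) ^ δ) (SN F G N) := by
  obtain ⟨δ, hδ, hsm⟩ := small_vals G
  choose B hB using fun i => coeff_bdd (F i)
  obtain ⟨BG, hBG⟩ := coeff_bdd G
  obtain ⟨BT, hBT⟩ : ∃ BT, BT = BG + ∑ i, B i := ⟨_, rfl⟩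
  have hBi : ∀ i n, |(F i).coeff n| ≤ BT := by
    intro i n
    refine (hB i n).trans ?_
    rw [hBT]
    have := Finset.single_le_sum (f := B) (fun _ _ => Nat.zero_le _) (mem_univ i)
    exact_mod_cast (by omega : B i ≤ BG + ∑ i, B i)
  have hBG' : ∀ n, |G.coeff n| ≤ BT := by
    intro n
    refine (hBG n).trans ?_
    rw [hBT]
    exact_mod_cast (by omega : BG ≤ BG + ∑ i, B i)
  refine ⟨G.natDegree + ∑ i, (F i).natDegree, δ, hδ, ?_⟩
  filter_upwards [hsm, eventually_ge_atTop (2 * BT + 2)] with N hN hNB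
  intro hirrN hadm
  have hNBr : (2 * (BT : ℝ) + 2) ≤ N := by exact_mod_cast hNB
  have hBT0 : (0 : ℝ) ≤ BT := Nat.cast_nonneg _
  have hF0 : ∀ i, |(((F i).eval 0 : ℤ) : ℝ)| ≤ BT := by
    intro i
    rw [← coeff_zero_eq_eval_zero]
    exact_mod_cast hBi i 0
  have hN2 : (N : ℝ) ^ (2 : ℝ) = N * N := by
    rw [show (2 : ℝ) = ((2 : ℕ) : ℝ) by norm_num, Real.rpow_natCast]
    ring
  refine ⟨?_, ?_, ?_, ?_, ?_, ?_⟩
  · intro i
    refine Fin.cases ?_ (fun i => ?_) i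
    · exact hirrN
    · exact hirr i
  · intro i
    refine Fin.cases ?_ (fun i => ?_) i
    · rw [SN_zero, natDegree_csub]
      omega
    · rw [SN_succ]
      have := hdeg i
      omega
  · intro i
    refine Fin.cases ?_ (fun i => ?_) i
    · rw [SN_zero, natDegree_csub]
      omega
    · rw [SN_succ]
      have := Finset.single_le_sum (f := fun i => (F i).natDegree) (fun _ _ => Nat.zero_le _) (mem_univ i)
      omega
  · intro i n
    rw [hN2]
    refine Fin.cases ?_ (fun i => ?_) i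
    · rw [SN_zero, coeff_sub, coeff_C]
      push_cast
      have h1 : |(((G.coeff n : ℤ)) : ℝ)| ≤ BT := by exact_mod_cast hBG' n
      have h2 : |(((if n = 0 then (N : ℤ) else 0 : ℤ)) : ℝ)| ≤ N := by
        split_ifs <;> simp
      refine (abs_sub _ _).trans ?_
      push_cast at h2
      nlinarith
    · rw [SN_succ]
      have h1 : |((((F i).coeff n : ℤ)) : ℝ)| ≤ BT := by exact_mod_cast hBi i n
      nlinarith
  · intro p hp
    obtain ⟨n, hn⟩ := hadm p hp
    have hp0 : (p : ℤ) ≠ 0 := by exact_mod_cast hp.ne_zero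
    have hnn : 0 ≤ n % (p : ℤ) := Int.emod_nonneg _ hp0
    obtain ⟨m, hm⟩ := Int.eq_ofNat_of_zero_le hnn
    have hmn : (p : ℤ) ∣ (m : ℤ) - n := by
      rw [← hm]
      have := Int.emod_add_mul_ediv n p
      exact ⟨-(n / p), by linarith⟩
    refine ⟨m, fun i => ?_⟩
    refine Fin.cases ?_ (fun i => ?_) i
    · intro h
      rw [SN_zero] at h
      have h1 := dvd_eval_congr _ _ _ _ hmn h
      rw [eval_sub, eval_C] at h1
      exact hn (h1.mul_left _)
    · intro h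
      rw [SN_succ] at h
      have h1 := dvd_eval_congr _ _ _ _ hmn h
      exact hn ((h1.trans (Finset.dvd_prod_of_mem (fun i => (F i).eval n) (mem_univ i))).mul_right _)
  · intro i j t ht htU
    have hbig : ∀ s : ℤ, |(s : ℝ)| ≤ (N : ℝ) ^ δ → (BT : ℝ) < |(N : ℝ) - ((G.eval s : ℤ) : ℝ)| := by
      intro s hs
      have h1 := (abs_le.1 (hN s hs)).2
      have h2 : (BT : ℝ) < (N : ℝ) - ((G.eval s : ℤ) : ℝ) := by linarith
      exact lt_of_lt_of_le h2 (le_abs_self _)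
    refine Fin.cases ?_ (fun i => ?_) i
    · refine Fin.cases ?_ (fun j => ?_) j
      · rw [SN_zero]
        apply no_self
        · rw [natDegree_csub]
          omega
        · exact_mod_cast (by omega : t ≠ 0)
      · rw [SN_zero, SN_succ]
        intro h
        have key : |((((F j).eval 0 : ℤ)) : ℝ)| = |(N : ℝ) - ((G.eval (-(t : ℤ)) : ℤ) : ℝ)| := by
          rcases assoc_cases h with h1 | h1
          · have h2 := congrArg (eval (-(t : ℤ))) h1
            rw [eval_comp, eval_add, eval_X, eval_C, neg_add_cancel, eval_sub, eval_C] at h2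
            rw [← h2]
            push_cast
            rfl
          · have h2 := congrArg (eval (-(t : ℤ))) h1
            rw [eval_neg, eval_comp, eval_add, eval_X, eval_C, neg_add_cancel, eval_sub, eval_C] at h2
            have h3 : (F j).eval 0 = -((N : ℤ) - G.eval (-(t : ℤ))) := by linarith
            rw [h3]
            push_cast
            rw [abs_neg]
        have h4 := hbig (-(t : ℤ)) (by
          push_cast
          rw [abs_neg, abs_of_nonneg (Nat.cast_nonneg _)]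
          exact htU)
        have h5 := hF0 j
        linarith
    · refine Fin.cases ?_ (fun j => ?_) j
      · rw [SN_zero, SN_succ]
        intro h
        have key : |((((F i).eval 0 : ℤ)) : ℝ)| = |(N : ℝ) - ((G.eval (t : ℤ) : ℤ) : ℝ)| := by
          rcases assoc_cases h with h1 | h1
          · have h2 := congrArg (eval 0) h1
            rw [eval_comp, eval_add, eval_X, eval_C, zero_add, eval_sub, eval_C] at h2
            rw [h2]
            push_cast
            rfl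
          · have h2 := congrArg (eval 0) h1
            rw [eval_neg, eval_comp, eval_add, eval_X, eval_C, zero_add, eval_sub, eval_C] at h2
            rw [h2]
            push_cast
            rw [abs_neg]
        have h4 := hbig (t : ℤ) (by
          push_cast
          rw [abs_of_nonneg (Nat.cast_nonneg _)]
          exact htU)
        have h5 := hF0 i
        linarith
      · rw [SN_succ, SN_succ]
        by_cases hij : i = j
        · rw [hij]
          apply no_self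
          · have := hdeg j
            omega
          · exact_mod_cast (by omega : t ≠ 0)
        · intro h
          rcases assoc_cases h with h1 | h1
          · exact htr i j hij t h1
          · have h2 := congrArg leadingCoeff h1
            rw [leadingCoeff_neg, lc_shift] at h2
            have := hlc i
            have := hlc j
            omega

open Classical in
/-- **Schinzel's Goldbach-type hypothesis for almost primes**: density and gap laws -/
theorem schinzel_law {g : ℕ} (hg : 0 < g) (F : Fin g → ℤ[X]) (G : ℤ[X])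
    (hirr : ∀ i, Irreducible (F i)) (hdeg : ∀ i, 1 ≤ (F i).natDegree)
    (hlc : ∀ i, 0 < (F i).leadingCoeff)
    (htr : ∀ i j, i ≠ j → ∀ t : ℤ, F i ≠ (F j).comp (X + C t)) (hG : 1 ≤ G.natDegree)
    (θ ε x0 : ℝ) (k0 : ℕ) (hθ : 0 < θ) (hε : 0 < ε) :
    ∃ c r0 : ℕ, ∀ r : ℕ, r0 ≤ r → ∃ κ : ℝ, 0 < κ ∧ ∀ᶠ N : ℕ in atTop, Irreducible (C (N : ℤ) - G) →
      (∀ p : ℕ, p.Prime → ∃ n : ℤ, ¬ (p : ℤ) ∣ (∏ i, (F i).eval n) * ((N : ℤ) - G.eval n)) →
      κ / Real.log N ^ c ≤ Vq (Q (SN F G N)) ⌊(N : ℝ) ^ (1 / (r : ℝ))⌋₊ ∧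
      Vq (Q (SN F G N)) ⌊(N : ℝ) ^ (1 / (r : ℝ))⌋₊ ≤ 1 / (κ * Real.log N ^ g) ∧
      ∀ u Y : ℕ, (N : ℝ) ^ θ ≤ Y →
      ∀ k T : ℕ, (k ≤ k0 ∨ T * Vq (Q (SN F G N)) ⌊(N : ℝ) ^ (1 / (r : ℝ))⌋₊ ≤ x0) →
        |(Pk (Sf (Q (SN F G N)) ⌊(N : ℝ) ^ (1 / (r : ℝ))⌋₊) k T u Y : ℝ) -
          Y * Vq (Q (SN F G N)) ⌊(N : ℝ) ^ (1 / (r : ℝ))⌋₊ *
            Ck k (T * Vq (Q (SN F G N)) ⌊(N : ℝ) ^ (1 / (r : ℝ))⌋₊)| ≤
          ε * (Y * Vq (Q (SN F G N)) ⌊(N : ℝ) ^ (1 / (r : ℝ))⌋₊) := by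
  obtain ⟨D, δ, hδ, hUS⟩ := us_schinzel F G hirr hdeg hlc htr hG
  obtain ⟨r0, h0⟩ := gap_polys (g + 1) D 2 δ θ (by norm_num) hδ hθ k0 x0 ε hε
  refine ⟨(g + 1) * D + 1, max r0 2, ?_⟩
  intro r hr
  have hr2 : 2 ≤ r := (le_max_right _ _).trans hr
  have hne : Nonempty (Fin g) := ⟨⟨0, hg⟩⟩
  obtain ⟨v, hv, hVlow⟩ := V_low_log ((g + 1) * D + 1) r hr2
  by_cases hadmF : ∀ p : ℕ, p.Prime → ∃ m : ℕ, ∀ i, ¬ (p : ℤ) ∣ (F i).eval (m : ℤ)
  · have hF : Sys F := by
      refine ⟨hirr, fun i => by have := hdeg i; omega, hlc, ?_, hadmF⟩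
      intro i j hij
      by_contra hne
      apply htr i j hne 0
      rw [C_0, add_zero, comp_X]
      exact hij
    obtain ⟨Cv, hCv, hVup⟩ := V_from_sys F hF r hr2
    rw [Fintype.card_fin] at hVup
    have hκ : 0 < min v (1 / Cv) := by positivity
    refine ⟨min v (1 / Cv), hκ, ?_⟩
    filter_upwards [hUS, h0 r ((le_max_left _ _).trans hr) Cv, hVlow, hVup, level_ok r hr2] with N h1 h2 h3 h4 h5
    intro hirrN hadm
    have hus := h1 hirrN hadm
    have hlog : 0 < Real.log N := by linarith [h5.2.2.2.2]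
    have hQF : ∀ p m, p.Prime → Q F p m → Q (SN F G N) p m := by
      intro p m _ ⟨i, hi⟩
      exact ⟨i.succ, hi⟩
    refine ⟨?_, ?_, ?_⟩
    · refine le_trans ?_ (h3 _ (us_perB hus) (us_adm hus))
      exact div_le_div_of_nonneg_right (min_le_left _ _) (by positivity)
    · refine (h4 _ hQF).1.trans ?_
      rw [div_le_div_iff₀ (by positivity) (by positivity), one_mul]
      have h6 : Cv * min v (1 / Cv) ≤ 1 := by
        calc Cv * min v (1 / Cv) ≤ Cv * (1 / Cv) := mul_le_mul_of_nonneg_left (min_le_right _ _) hCv.le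
          _ = 1 := by field_simp
      calc Cv * (min v (1 / Cv) * Real.log N ^ g) = (Cv * min v (1 / Cv)) * Real.log N ^ g := by ring
        _ ≤ 1 * Real.log N ^ g := mul_le_mul_of_nonneg_right h6 (by positivity)
        _ = Real.log N ^ g := one_mul _
    · intro u Y hY k T hT
      have hE : US (g + 1) D ((N : ℝ) ^ (2 : ℝ)) ((N : ℝ) ^ δ) (SN F G N) := hus
      exact h2 (SN F G N) hE (h4 _ hQF).2 u Y hY k T hT
  · refine ⟨1, one_pos, Filter.Eventually.of_forall ?_⟩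
    intro N _ hadm
    exfalso
    apply hadmF
    intro p hp
    obtain ⟨n, hn⟩ := hadm p hp
    have hp0 : (p : ℤ) ≠ 0 := by exact_mod_cast hp.ne_zero
    have hnn : 0 ≤ n % (p : ℤ) := Int.emod_nonneg _ hp0
    obtain ⟨m, hm⟩ := Int.eq_ofNat_of_zero_le hnn
    have hmn : (p : ℤ) ∣ (m : ℤ) - n := by
      rw [← hm]
      have := Int.emod_add_mul_ediv n p
      exact ⟨-(n / p), by linarith⟩
    refine ⟨m, fun i h => ?_⟩
    have h1 := dvd_eval_congr _ _ _ _ hmn h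
    exact hn ((h1.trans (Finset.dvd_prod_of_mem (fun i => (F i).eval n) (mem_univ i))).mul_right _)

end Pool.Agent.Y879.GL
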