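import Pool.Agent.Y879.GL.QuadU

set_option autoImplicit false

/-!
# Two systems whose coefficients depend on `n`
-/

namespace Pool.Agent.Y879.GL

open Polynomial Finset Filter
open Pool.Agent.W123.RP Pool.Agent.H373R2.T7 Pool.Agent.W123.RU Pool.Agent.W123.RU.Poly
open Pool.Agent.TH464.PW Pool.Agent.TH464.PO

lemma not_assoc_deg {f g : ℤ[X]} (h : f.natDegree ≠ g.natDegree) : ¬ Associated f g := by
  intro h1
  rcases assoc_cases h1 with h2 | h2
  · exact h (by rw [h2])
  · exact h (by rw [h2, natDegree_neg])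

/-- `x` and `n - f (x)` for a monic quadratic `f` -/
noncomputable def s2 (b c : ℤ) (n : ℕ) : Fin 2 → ℤ[X] := ![X, quad (-1) (-b) ((n : ℤ) - c)]

lemma s2_eval1 (b c : ℤ) (n : ℕ) (x : ℤ) : (s2 b c n 1).eval x = (n : ℤ) - (x ^ 2 + b * x + c) := by
  change (quad (-1) (-b) ((n : ℤ) - c)).eval x = _
  rw [quad_eval]
  ring

lemma s2_eval0 (b c : ℤ) (n : ℕ) (x : ℤ) : (s2 b c n 0).eval x = x := by
  change (X : ℤ[X]).eval x = _
  rw [eval_X]

lemma s2_us (b c : ℤ) (n : ℕ) (H U : ℝ) (hH : (n : ℝ) + |(c : ℝ)| + |(b : ℝ)| + 1 ≤ H)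
    (hpar : Odd (b + c)) (h3 : ¬ (3 : ℤ) ∣ b) (hn : Odd n)
    (hnf : ∀ x : ℤ, x ^ 2 + b * x + c ≠ n) : US 2 2 H U (s2 b c n) := by
  have hirr1 : Irreducible (quad (-1) (-b) ((n : ℤ) - c)) := by
    apply quad_irr _ _ _ (by norm_num)
    · rintro p hp ⟨h1, _, _⟩
      have h2 : (p : ℤ) ∣ 1 := by
        have := (dvd_neg (a := (p : ℤ)) (b := (1 : ℤ))).1 h1
        exact this
      exact (Nat.prime_iff_prime_int.1 hp).not_unit (isUnit_of_dvd_one h2)
    · rintro ⟨s, hs⟩
      have e : b ^ 2 + 4 * ((n : ℤ) - c) = s * s := by linarith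
      have hev : Even (s - b) := by
        by_contra hodd
        rw [Int.not_even_iff_odd] at hodd
        obtain ⟨w, hw⟩ := hodd
        have e2 : 4 * ((n : ℤ) - c) = (2 * w + 1) * (2 * w + 1 + 2 * b) := by
          have : s = b + 2 * w + 1 := by linarith
          rw [this] at e
          linarith
        have e3 : (2 * w + 1) * (2 * w + 1 + 2 * b) = 2 * (2 * w * w + 2 * w + 2 * w * b + b) + 1 := by ring
        omega
      obtain ⟨w, hw⟩ := hev
      apply hnf w
      have : s = b + 2 * w := by linarith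
      rw [this] at e
      linarith
  have hbr : (0 : ℝ) ≤ |(b : ℝ)| := abs_nonneg _
  have hcr : (0 : ℝ) ≤ |(c : ℝ)| := abs_nonneg _
  have hnr : (0 : ℝ) ≤ (n : ℝ) := Nat.cast_nonneg _
  have d0 : (s2 b c n 0).natDegree = 1 := natDegree_X
  have d1 : (s2 b c n 1).natDegree = 2 := quad_deg _ _ _ (by norm_num)
  refine ⟨?_, ?_, ?_, ?_, ?_, ?_⟩
  · intro i
    fin_cases i
    · exact irreducible_X
    · exact hirr1
  · intro i
    fin_cases i
    · exact (by rw [d0]; norm_num : (s2 b c n 0).natDegree ≠ 0)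
    · exact (by rw [d1]; norm_num : (s2 b c n 1).natDegree ≠ 0)
  · intro i
    fin_cases i
    · exact (by rw [d0]; norm_num : (s2 b c n 0).natDegree ≤ 2)
    · exact (by rw [d1] : (s2 b c n 1).natDegree ≤ 2)
  · intro i k
    fin_cases i
    · change |(((X : ℤ[X]).coeff k : ℤ) : ℝ)| ≤ H
      rw [coeff_X]
      split_ifs
      · simp
        linarith
      · simp
        linarith
    · change |(((quad (-1) (-b) ((n : ℤ) - c)).coeff k : ℤ) : ℝ)| ≤ H
      have h4 := quad_coeff (-1) (-b) ((n : ℤ) - c) k ((n : ℤ) + |c| + |b| + 1)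
        (by
          rw [abs_neg, abs_one]
          have := abs_nonneg b
          have := abs_nonneg c
          have : (0 : ℤ) ≤ n := Int.natCast_nonneg n
          linarith)
        (by
          rw [abs_neg]
          have := abs_nonneg c
          have : (0 : ℤ) ≤ n := Int.natCast_nonneg n
          linarith)
        (by
          refine (abs_sub _ _).trans ?_
          rw [abs_of_nonneg (Int.natCast_nonneg n)]
          have := abs_nonneg b
          linarith)
      have h5 : |(((quad (-1) (-b) ((n : ℤ) - c)).coeff k : ℤ) : ℝ)| ≤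
          (((n : ℤ) + |c| + |b| + 1 : ℤ) : ℝ) := by exact_mod_cast h4
      refine h5.trans (le_trans (le_of_eq ?_) hH)
      push_cast
      ring
  · intro p hp
    have hpi := Nat.prime_iff_prime_int.1 hp
    obtain ⟨w, hw⟩ := hpar
    obtain ⟨v, hv⟩ := hn
    rcases Nat.lt_trichotomy p 3 with hp3 | hp3 | hp3
    · have hp2 : p = 2 := by
        have := hp.two_le
        omega
      subst hp2
      refine ⟨1, fun i => ?_⟩
      fin_cases i
      · change ¬ ((2 : ℕ) : ℤ) ∣ (s2 b c n 0).eval ((1 : ℕ) : ℤ)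
        rw [s2_eval0]
        decide
      · change ¬ ((2 : ℕ) : ℤ) ∣ (s2 b c n 1).eval ((1 : ℕ) : ℤ)
        rw [s2_eval1]
        push_cast
        omega
    · subst hp3
      by_cases h1 : (3 : ℤ) ∣ (n : ℤ) - (1 + b + c)
      · refine ⟨2, fun i => ?_⟩
        fin_cases i
        · change ¬ ((3 : ℕ) : ℤ) ∣ (s2 b c n 0).eval ((2 : ℕ) : ℤ)
          rw [s2_eval0]
          decide
        · change ¬ ((3 : ℕ) : ℤ) ∣ (s2 b c n 1).eval ((2 : ℕ) : ℤ)
          rw [s2_eval1]
          push_cast
          omega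
      · refine ⟨1, fun i => ?_⟩
        fin_cases i
        · change ¬ ((3 : ℕ) : ℤ) ∣ (s2 b c n 0).eval ((1 : ℕ) : ℤ)
          rw [s2_eval0]
          decide
        · change ¬ ((3 : ℕ) : ℤ) ∣ (s2 b c n 1).eval ((1 : ℕ) : ℤ)
          rw [s2_eval1]
          push_cast
          omega
    · have hnd : ∀ x : ℕ, 1 ≤ x → x ≤ 3 → ¬ (p : ℤ) ∣ (s2 b c n 0).eval (x : ℤ) := by
        intro x hx1 hx3 h
        rw [s2_eval0, Int.natCast_dvd_natCast] at h
        have := Nat.le_of_dvd (by omega) h
        omega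
      by_contra hcon
      push Not at hcon
      have key : ∀ x : ℕ, 1 ≤ x → x ≤ 3 → (p : ℤ) ∣ (n : ℤ) - ((x : ℤ) ^ 2 + b * x + c) := by
        intro x hx1 hx3
        obtain ⟨i, hi⟩ := hcon x
        fin_cases i
        · exact absurd hi (hnd x hx1 hx3)
        · rw [← s2_eval1]
          exact hi
      have k1 := key 1 (by norm_num) (by norm_num)
      have k2 := key 2 (by norm_num) (by norm_num)
      have k3 := key 3 (by norm_num) (by norm_num)
      have k4 : (p : ℤ) ∣ 2 := by
        have := dvd_sub (dvd_mul_of_dvd_right k2 2) (dvd_add k1 k3)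
        push_cast at this
        ring_nf at this
        exact this
      have k5 : p ∣ 2 := by exact_mod_cast k4
      have := Nat.le_of_dvd (by norm_num) k5
      omega
  · intro i j t ht _
    have ht' : (t : ℤ) ≠ 0 := by exact_mod_cast (by omega : t ≠ 0)
    fin_cases i <;> fin_cases j
    · exact no_self (s2 b c n 0) (by rw [d0]; norm_num) t ht'
    · exact (not_assoc_deg (by rw [deg_shift, d0, d1]; norm_num) :
        ¬ Associated (s2 b c n 0) ((s2 b c n 1).comp (X + C (t : ℤ))))
    · exact (not_assoc_deg (by rw [deg_shift, d0, d1]; norm_num) :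
        ¬ Associated (s2 b c n 1) ((s2 b c n 0).comp (X + C (t : ℤ))))
    · exact no_self (s2 b c n 1) (by rw [d1]; norm_num) t ht'

/-- the system `x` -/
lemma sysX : Sys (fun _ : Fin 1 => (X : ℤ[X])) where
  irr := fun _ => irreducible_X
  deg := fun _ => by rw [natDegree_X]; norm_num
  lead := fun _ => by rw [leadingCoeff_X]; norm_num
  inj := fun _ _ _ => Subsingleton.elim _ _
  adm := fun p hp => ⟨1, fun _ h => by
    rw [eval_X] at h
    have h1 : p ∣ 1 := by exact_mod_cast h
    exact hp.one_lt.ne' (Nat.dvd_one.1 h1)⟩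

end Pool.Agent.Y879.GL
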