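import Pool.Agent.Y879.GL.Unif
import Pool.Agent.Y879.GL.Res

set_option autoImplicit false

/-!
# Gap laws for systems of polynomials whose coefficients are bounded by a power of `X`
-/

namespace Pool.Agent.Y879.GL

open Polynomial Finset Filter
open Pool.Agent.W123.RP Pool.Agent.H373R2.T7 Pool.Agent.W123.RU Pool.Agent.W123.RU.Poly
open Pool.Agent.TH464.PW Pool.Agent.TH464.PO

/-- the number of roots modulo a prime -/
lemma rho_prim (f : ℤ[X]) (hf : f.IsPrimitive) (p : ℕ) (hp : p.Prime) :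
    Pool.Agent.H474R2.PG.rho f p ≤ f.natDegree := by
  have : Fact p.Prime := ⟨hp⟩
  set g : (ZMod p)[X] := f.map (Int.castRingHom (ZMod p)) with hg
  have hg0 : g ≠ 0 := by
    intro h
    have h1 : C (p : ℤ) ∣ f := by
      rw [C_dvd_iff_dvd_coeff]
      intro i
      have h3 : g.coeff i = 0 := by rw [h, coeff_zero]
      rw [hg, coeff_map, eq_intCast] at h3
      exact (ZMod.intCast_zmod_eq_zero_iff_dvd _ _).1 h3
    have h2 := hf _ h1
    have h3 : Prime (p : ℤ) := Nat.prime_iff_prime_int.1 hp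
    exact h3.not_unit h2
  have hdeg : g.natDegree ≤ f.natDegree := natDegree_map_le
  unfold Pool.Agent.H474R2.PG.rho
  classical
  calc ((Finset.range p).filter (fun a : ℕ => (p : ℤ) ∣ f.eval (a : ℤ))).card
      ≤ g.roots.toFinset.card := by
        apply Finset.card_le_card_of_injOn (fun a : ℕ => (a : ZMod p))
        · intro a ha
          rw [Finset.mem_coe, Finset.mem_filter] at ha
          rw [Finset.mem_coe, Multiset.mem_toFinset, mem_roots hg0, IsRoot.def, hg]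
          have h4 : eval ((a : ℤ) : ZMod p) (f.map (Int.castRingHom (ZMod p))) =
              ((f.eval (a : ℤ) : ℤ) : ZMod p) := by
            have := eval_map_apply (Int.castRingHom (ZMod p)) (p := f) (a : ℤ)
            simpa using this
          have h5 : ((f.eval (a : ℤ) : ℤ) : ZMod p) = 0 :=
            (ZMod.intCast_zmod_eq_zero_iff_dvd _ _).2 ha.2
          rw [← h5, ← h4]
          congr 1
          push_cast
          rfl
        · intro a ha b hb hab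
          rw [Finset.mem_coe, Finset.mem_filter, Finset.mem_range] at ha hb
          have h1 : (a : ZMod p) = b := hab
          rw [ZMod.natCast_eq_natCast_iff'] at h1
          rwa [Nat.mod_eq_of_lt ha.1, Nat.mod_eq_of_lt hb.1] at h1
    _ ≤ Multiset.card g.roots := Multiset.toFinset_card_le _
    _ ≤ g.natDegree := card_roots' g
    _ ≤ f.natDegree := hdeg

/-- a system of `k` irreducible polynomials of degrees at most `D`, with coefficients at most `H`,
without fixed prime divisor and without translates by `1 ≤ t ≤ U` -/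
structure US (k D : ℕ) (H U : ℝ) (f : Fin k → ℤ[X]) : Prop where
  irr : ∀ i, Irreducible (f i)
  deg : ∀ i, (f i).natDegree ≠ 0
  degD : ∀ i, (f i).natDegree ≤ D
  hgt : ∀ i n, |(((f i).coeff n : ℤ) : ℝ)| ≤ H
  adm : ∀ p : ℕ, p.Prime → ∃ m : ℕ, ∀ i, ¬ (p : ℤ) ∣ (f i).eval (m : ℤ)
  tr : ∀ i j, ∀ t : ℕ, 1 ≤ t → (t : ℝ) ≤ U → ¬ Associated (f i) ((f j).comp (X + C (t : ℤ)))

variable {k D : ℕ} {H U : ℝ} {f : Fin k → ℤ[X]}

open Classical in
lemma us_perB (h : US k D H U f) : PerB (Q f) (k * D + 1) := by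
  refine ⟨fun p n => per f p n, ?_⟩
  intro p hp
  have h1 := nuB_le_sum f p
  have h2 : ∑ i, Pool.Agent.H474R2.PG.rho (f i) p ≤ ∑ _i : Fin k, D :=
    Finset.sum_le_sum fun i _ => (rho_prim (f i) ((h.irr i).isPrimitive (h.deg i)) p hp).trans (h.degD i)
  rw [Finset.sum_const, Finset.card_univ, Fintype.card_fin, smul_eq_mul] at h2
  omega

open Classical in
lemma us_adm (h : US k D H U f) (p : ℕ) (hp : p.Prime) : nuB (Q f) p < p := by
  obtain ⟨m, hm⟩ := h.adm p hp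
  have h1 : (range p).filter (fun r => Q f p r) ⊂ range p := by
    rw [Finset.filter_ssubset]
    refine ⟨m % p, mem_range.2 (Nat.mod_lt _ hp.pos), ?_⟩
    intro h
    obtain ⟨i, hi⟩ := (per f p m).2 h
    exact hm i hi
  have h2 := card_lt_card h1
  rw [card_range] at h2
  unfold nuB
  convert h2

/-- the product of the resultants -/
noncomputable def RR (f : Fin k → ℤ[X]) (t : ℕ) : ℕ :=
  ∏ i, ∏ j, (resultant (f i) ((f j).comp (X + C (t : ℤ)))).natAbs

lemma RR_pos (h : US k D H U f) (t : ℕ) (ht : 1 ≤ t) (htU : (t : ℝ) ≤ U) : 0 < RR f t := by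
  unfold RR
  apply Finset.prod_pos
  intro i _
  apply Finset.prod_pos
  intro j _
  rw [Int.natAbs_pos]
  exact res_ne_zero _ _ (h.irr i) (irr_shift _ (h.irr j) _) (h.deg i)
    (by rw [deg_shift]; exact h.deg j) (h.tr i j t ht htU)

lemma RR_dvd (h : US k D H U f) (t p : ℕ) (hc : CoG (Q f) p t) : p ∣ RR f t := by
  obtain ⟨m, ⟨i, hi⟩, ⟨j, hj⟩⟩ := hc
  have h1 : (p : ℤ) ∣ ((f j).comp (X + C (t : ℤ))).eval (m : ℤ) := by
    rw [eval_comp, eval_add, eval_X, eval_C]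
    push_cast at hj
    exact hj
  have h2 := dvd_res (f i) ((f j).comp (X + C (t : ℤ))) (h.deg i) m p hi h1
  have h3 : p ∣ (resultant (f i) ((f j).comp (X + C (t : ℤ)))).natAbs := Int.natCast_dvd.1 h2
  unfold RR
  exact (h3.trans (Finset.dvd_prod_of_mem
    (fun j => (resultant (f i) ((f j).comp (X + C (t : ℤ)))).natAbs) (mem_univ j))).trans
    (Finset.dvd_prod_of_mem (fun i => ∏ j, (resultant (f i) ((f j).comp (X + C (t : ℤ)))).natAbs)
      (mem_univ i))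

lemma RR_le (h : US k D H U f) (hH : 1 ≤ H) (t : ℕ) (ht : 1 ≤ t) (htU : (t : ℝ) ≤ U) :
    (RR f t : ℝ) ≤ (((2 * D).factorial : ℝ) * ((D + 1) * (H * (U ^ D * 2 ^ D))) ^ (2 * D)) ^ (k * k) := by
  have hU1 : (1 : ℝ) ≤ U := le_trans (by exact_mod_cast ht) htU
  obtain ⟨a, ha⟩ : ∃ a : ℤ, a = ⌊H⌋ := ⟨_, rfl⟩
  have haH : (a : ℝ) ≤ H := by rw [ha]; exact Int.floor_le H
  have ha1 : 1 ≤ a := by
    rw [ha]
    exact Int.le_floor.2 (by exact_mod_cast hH)
  have hco : ∀ i n, |(f i).coeff n| ≤ a := by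
    intro i n
    rw [ha]
    apply Int.le_floor.2
    push_cast
    exact h.hgt i n
  obtain ⟨b, hb⟩ : ∃ b : ℤ, b = (D + 1) * (a * (t ^ D * 2 ^ D)) := ⟨_, rfl⟩
  have ht' : (1 : ℤ) ≤ t := by exact_mod_cast ht
  have hfac1 : (1 : ℤ) ≤ (D + 1) * (t ^ D * 2 ^ D) := by
    have h1 : (1 : ℤ) ≤ (t : ℤ) ^ D := one_le_pow₀ ht'
    have h2 : (1 : ℤ) ≤ (2 : ℤ) ^ D := one_le_pow₀ (by norm_num)
    have h3 : (1 : ℤ) ≤ (D : ℤ) + 1 := by omega
    have h4 : (1 : ℤ) ≤ (t : ℤ) ^ D * 2 ^ D := one_le_mul_of_one_le_of_one_le h1 h2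
    exact one_le_mul_of_one_le_of_one_le h3 h4
  have hab : a ≤ b := by
    rw [hb]
    calc a = a * 1 := (mul_one a).symm
      _ ≤ a * ((D + 1) * (t ^ D * 2 ^ D)) := mul_le_mul_of_nonneg_left hfac1 (by omega)
      _ = _ := by ring
  have hb1 : 1 ≤ b := by omega
  have hbR : (b : ℝ) ≤ (D + 1) * (H * (U ^ D * 2 ^ D)) := by
    rw [hb]
    push_cast
    have h0 : (0 : ℝ) ≤ a := by exact_mod_cast (by omega : (0 : ℤ) ≤ a)
    gcongr
  have hres : ∀ i j, ((resultant (f i) ((f j).comp (X + C (t : ℤ)))).natAbs : ℝ) ≤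
      ((2 * D).factorial : ℝ) * ((D + 1) * (H * (U ^ D * 2 ^ D))) ^ (2 * D) := by
    intro i j
    have h1 := res_bound (f i) ((f j).comp (X + C (t : ℤ))) (f i).natDegree
      ((f j).comp (X + C (t : ℤ))).natDegree b (fun n => (hco i n).trans hab)
      (fun n => by
        rw [hb]
        exact coeff_shift (f j) D (h.degD j) a (hco j) t ht n)
    rw [deg_shift] at h1
    have hdeg : (f i).natDegree + (f j).natDegree ≤ 2 * D := by
      have := h.degD i
      have := h.degD j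
      omega
    have h2 : ((f i).natDegree + (f j).natDegree).factorial * b ^ ((f i).natDegree + (f j).natDegree) ≤
        ((2 * D).factorial : ℤ) * b ^ (2 * D) := by
      apply mul_le_mul
      · exact_mod_cast Nat.factorial_le hdeg
      · exact pow_le_pow_right₀ hb1 hdeg
      · positivity
      · positivity
    have h3 := h1.trans h2
    have h4 : ((resultant (f i) ((f j).comp (X + C (t : ℤ)))).natAbs : ℝ) =
        ((|resultant (f i) ((f j).comp (X + C (t : ℤ))) (f i).natDegree (f j).natDegree| : ℤ) : ℝ) := by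
      rw [deg_shift, Nat.cast_natAbs]
    rw [h4]
    have h5 : ((|resultant (f i) ((f j).comp (X + C (t : ℤ))) (f i).natDegree (f j).natDegree| : ℤ) : ℝ) ≤
        (((2 * D).factorial : ℤ) * b ^ (2 * D) : ℤ) := by exact_mod_cast h3
    refine h5.trans ?_
    push_cast
    have hb0 : (0 : ℝ) ≤ b := by exact_mod_cast (by omega : (0 : ℤ) ≤ b)
    gcongr
  unfold RR
  push_cast
  calc ∏ i, ∏ j, ((resultant (f i) ((f j).comp (X + C (t : ℤ)))).natAbs : ℝ)
      ≤ ∏ _i : Fin k, ∏ _j : Fin k,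
        (((2 * D).factorial : ℝ) * ((D + 1) * (H * (U ^ D * 2 ^ D))) ^ (2 * D)) := by
        apply Finset.prod_le_prod
        · intro i _
          exact Finset.prod_nonneg fun j _ => Nat.cast_nonneg _
        · intro i _
          apply Finset.prod_le_prod
          · intro j _
            exact Nat.cast_nonneg _
          · intro j _
            exact hres i j
    _ = _ := by
        rw [Finset.prod_const, Finset.prod_const, Finset.card_univ, Fintype.card_fin, ← pow_mul]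

open Classical in
/-- **The gap laws, uniformly in the systems of polynomials** of bounded degree with coefficients up
to `X ^ E`. -/
theorem gap_polys (k D : ℕ) (E δ θ : ℝ) (hE : 0 < E) (hδ : 0 < δ) (hθ : 0 < θ) (k0 : ℕ)
    (x0 ε : ℝ) (hε : 0 < ε) :
    ∃ r0 : ℕ, ∀ r : ℕ, r0 ≤ r → ∀ Cv : ℝ, ∀ᶠ X : ℕ in atTop, ∀ f : Fin k → ℤ[X],
      US k D ((X : ℝ) ^ E) ((X : ℝ) ^ δ) f →
      Vq (Q f) ⌊(X : ℝ) ^ (1 / (r : ℝ))⌋₊ ≤ Cv / Real.log X →
      ∀ Z Y : ℕ, (X : ℝ) ^ θ ≤ Y →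
      ∀ l T : ℕ, (l ≤ k0 ∨ T * Vq (Q f) ⌊(X : ℝ) ^ (1 / (r : ℝ))⌋₊ ≤ x0) →
        |(Pk (Sf (Q f) ⌊(X : ℝ) ^ (1 / (r : ℝ))⌋₊) l T Z Y : ℝ) -
          Y * Vq (Q f) ⌊(X : ℝ) ^ (1 / (r : ℝ))⌋₊ *
            Ck l (T * Vq (Q f) ⌊(X : ℝ) ^ (1 / (r : ℝ))⌋₊)| ≤
          ε * (Y * Vq (Q f) ⌊(X : ℝ) ^ (1 / (r : ℝ))⌋₊) := by
  obtain ⟨A1, hA1⟩ : ∃ A1 : ℝ, A1 = 1 + 2 * D * (E + δ * D + 1) := ⟨_, rfl⟩
  have hA10 : 0 < A1 := by rw [hA1]; positivity
  obtain ⟨A, hA⟩ : ∃ A : ℝ, A = A1 * (k * k) + 1 := ⟨_, rfl⟩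
  have hA0 : 0 < A := by rw [hA]; positivity
  obtain ⟨r0, h0⟩ := gap_unif (k * D + 1) (by omega) A δ θ hA0 hδ hθ k0 x0 ε hε
  refine ⟨r0, ?_⟩
  intro r hr Cv
  filter_upwards [h0 r hr Cv, eventually_ge_atTop (((2 * D).factorial + (D + 1) * 2 ^ D + 1))] with X hX hXb
  intro f hf hV Z Y hY l T hT
  have hXr : (((2 * D).factorial + (D + 1) * 2 ^ D + 1 : ℕ) : ℝ) ≤ X := by exact_mod_cast hXb
  push_cast at hXr
  have hf0 : (0 : ℝ) ≤ ((2 * D).factorial : ℝ) := Nat.cast_nonneg _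
  have hd0 : (0 : ℝ) ≤ ((D : ℝ) + 1) * 2 ^ D := by positivity
  have hX1 : (1 : ℝ) ≤ X := by linarith
  have hX0 : (0 : ℝ) < X := by linarith
  refine hX (Q f) (us_perB hf) (us_adm hf) hV ?_ Z Y hY l T hT
  intro t ht htU
  refine ⟨RR f t, RR_pos hf t ht htU, ?_, fun p _ _ hc => RR_dvd hf t p hc⟩
  refine (RR_le hf (Real.one_le_rpow hX1 hE.le) t ht htU).trans ?_
  have h1 : ((D : ℝ) + 1) * ((X : ℝ) ^ E * (((X : ℝ) ^ δ) ^ D * 2 ^ D)) ≤ (X : ℝ) ^ (E + δ * D + 1) := by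
    calc ((D : ℝ) + 1) * ((X : ℝ) ^ E * (((X : ℝ) ^ δ) ^ D * 2 ^ D)) =
          (((D : ℝ) + 1) * 2 ^ D) * ((X : ℝ) ^ E * ((X : ℝ) ^ δ) ^ D) := by ring
      _ ≤ X * ((X : ℝ) ^ E * ((X : ℝ) ^ δ) ^ D) := by
          apply mul_le_mul_of_nonneg_right (by linarith) (by positivity)
      _ = (X : ℝ) ^ (E + δ * D + 1) := by
          rw [← Real.rpow_natCast ((X : ℝ) ^ δ), ← Real.rpow_mul hX0.le, ← Real.rpow_add hX0,
            Real.rpow_add hX0 (E + δ * D) 1, Real.rpow_one]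
          ring
  have h2 : ((2 * D).factorial : ℝ) * (((D : ℝ) + 1) * ((X : ℝ) ^ E * (((X : ℝ) ^ δ) ^ D * 2 ^ D))) ^ (2 * D) ≤
      (X : ℝ) ^ A1 := by
    calc ((2 * D).factorial : ℝ) * (((D : ℝ) + 1) * ((X : ℝ) ^ E * (((X : ℝ) ^ δ) ^ D * 2 ^ D))) ^ (2 * D)
        ≤ X * ((X : ℝ) ^ (E + δ * D + 1)) ^ (2 * D) := by
          apply mul_le_mul (by linarith) _ (by positivity) hX0.le
          exact pow_le_pow_left₀ (by positivity) h1 _
      _ = (X : ℝ) ^ A1 := by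
          rw [← Real.rpow_natCast, ← Real.rpow_mul hX0.le, hA1]
          nth_rewrite 1 [← Real.rpow_one (X : ℝ)]
          rw [← Real.rpow_add hX0]
          congr 1
          push_cast
          ring
  calc _ ≤ ((X : ℝ) ^ A1) ^ (k * k) := pow_le_pow_left₀ (by positivity) h2 _
    _ = (X : ℝ) ^ (A1 * (k * k)) := by
        rw [← Real.rpow_natCast, ← Real.rpow_mul hX0.le]
        push_cast
        rfl
    _ ≤ (X : ℝ) ^ A := Real.rpow_le_rpow_of_exponent_le hX1 (by rw [hA]; linarith)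

end Pool.Agent.Y879.GL
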